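import Pool.Agent.Helper8.PT.PowerSum

/-!
# The prime number theorem for a polynomial L-function
-/

set_option autoImplicit false

namespace Pool.Agent.Helper8.PT

open Filter Topology PowerSeries

/-- The power sums attached to a polynomial L-function are negligible. -/
theorem ps_main (q : ℝ) (hq : 1 < q) (S N : ℕ → ℝ) (D : ℕ) (hS0 : S 0 = 1)
    (hSD : ∀ m, D ≤ m → S m = 0) (hN0 : N 0 = 0)
    (hrec : ∀ k : ℕ, (k : ℝ) * S k =
      ∑ x ∈ Finset.HasAntidiagonal.antidiagonal k, N x.1 * S x.2)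
    (hN : ∀ j, |N j| ≤ q ^ j) (hev : ∀ j, Even j → 0 < j → 1 ≤ q ^ j + N j)
    (E : ℝ) (ε : ℕ → ℝ) (hε : ∀ j, 0 ≤ ε j ∧ ε j ≤ E)
    (h341 : ∀ j, ∀ r : ℝ, |r| ≤ 1 → 0 ≤ 3 * q ^ j + 4 * r * N j + (2 * r ^ 2 - 1) * (q ^ j - ε j)) :
    Tendsto (fun j => N j / q ^ j) atTop (𝓝 0) := by
  have hq0 : 0 < q := one_pos.trans hq
  -- positivity
  have hposp : 0 < ∑ m ∈ Finset.range D, S m * (q⁻¹) ^ m :=
    pos_at q hq S N D hS0 hSD hN0 hrec (fun j => by
      have := (abs_le.1 (hN j)).1
      linarith) hev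
  have hposm : 0 < ∑ m ∈ Finset.range D, ((-1) ^ m * S m) * (q⁻¹) ^ m := by
    refine pos_at q hq (fun m => (-1) ^ m * S m) (fun m => (-1) ^ m * N m) D (by simp [hS0])
      (fun m hm => by simp [hSD m hm]) (by simp [hN0]) (fun k => ?_) (fun j => ?_)
      (fun j hj hj0 => ?_)
    · have h1 : ∀ x ∈ Finset.HasAntidiagonal.antidiagonal k,
          ((-1) ^ x.1 * N x.1) * ((-1) ^ x.2 * S x.2) = (-1) ^ k * (N x.1 * S x.2) := by
        intro x hx
        have hx' := Finset.HasAntidiagonal.mem_antidiagonal.1 hx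
        rw [← hx', pow_add]
        ring
      rw [Finset.sum_congr rfl h1, ← Finset.mul_sum, ← hrec]
      ring
    · have h2 : |(-1) ^ j * N j| ≤ q ^ j := by
        rw [abs_mul, abs_pow, abs_neg, abs_one, one_pow, one_mul]
        exact hN j
      have := (abs_le.1 h2).1
      linarith
    · rw [hj.neg_one_pow, one_mul]
      exact hev j hj hj0
  -- the polynomial
  let p : Polynomial ℂ := ∑ m ∈ Finset.range D, Polynomial.monomial m (S m : ℂ)
  have hpc : ∀ m, p.coeff m = (S m : ℂ) := by
    intro m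
    simp only [p, Polynomial.finsetSum_coeff, Polynomial.coeff_monomial]
    rw [Finset.sum_ite_eq']
    split_ifs with h
    · rfl
    · rw [hSD m (by simpa using h)]
      simp
  obtain ⟨s, hs, hroot⟩ := exists_lser p.natDegree p rfl (by rw [hpc, hS0]; simp)
  have hpow : ∀ j, 0 < j → ((N j : ℝ) : ℂ) = -(s.map fun α => α ^ j).sum := by
    let NN : PowerSeries ℂ := mk fun j => (N j : ℂ)
    have h1 : th (p : PowerSeries ℂ) = NN * (p : PowerSeries ℂ) := by
      rw [th_eq_iff]
      intro k
      simp only [NN, Polynomial.coeff_coe, coeff_mk, hpc]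
      exact_mod_cast hrec k
    have h2 : th (p : PowerSeries ℂ) = -psum s * (p : PowerSeries ℂ) := by
      rw [hs]
      exact th_lser s
    have hp0 : (p : PowerSeries ℂ) ≠ 0 := by
      intro h0
      have := congrArg (coeff 0) h0
      rw [Polynomial.coeff_coe, hpc, hS0] at this
      simp at this
    have h3 : NN = -psum s := mul_right_cancel₀ hp0 (h1.symm.trans h2)
    intro j hj
    have h4 := congrArg (coeff j) h3
    simp only [NN, coeff_mk, map_neg, psum] at h4
    rw [h4, if_neg hj.ne']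
  -- normalized
  set t : Multiset ℂ := s.map fun α => α / (q : ℂ) with ht
  have hqc : (q : ℂ) ≠ 0 := by exact_mod_cast hq0.ne'
  have ha : ∀ j, 0 < j → ((N j / q ^ j : ℝ) : ℂ) = -(t.map fun β => β ^ j).sum := by
    intro j hj
    push_cast
    rw [hpow j hj, ht, Multiset.map_map, neg_div, ← Multiset.sum_map_div]
    congr 3
    funext α
    simp [div_pow]
  have habs : ∀ j, |N j / q ^ j| ≤ 1 := by
    intro j
    rw [abs_div, abs_of_pos (pow_pos hq0 j)]
    exact div_le_one_of_le₀ (hN j) (pow_pos hq0 j).le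
  -- first step: the roots have absolute value at most one
  have hle : ∀ β ∈ t, ‖β‖ ≤ 1 := by
    by_contra hcon
    push Not at hcon
    obtain ⟨β₁, hβ₁, hβ₁'⟩ := hcon
    obtain ⟨β₀, hβ₀, hmax⟩ := Finset.exists_max_image t.toFinset (fun β => ‖β‖)
      ⟨β₁, Multiset.mem_toFinset.2 hβ₁⟩
    have hρ : 1 < ‖β₀‖ := hβ₁'.trans_le (hmax β₁ (Multiset.mem_toFinset.2 hβ₁))
    have hβ0 : β₀ ≠ 0 := by
      rintro rfl
      rw [norm_zero] at hρ
      linarith
    set t' : Multiset ℂ := t.map fun β => β / β₀ with ht'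
    have hle' : ∀ γ ∈ t', ‖γ‖ ≤ 1 := by
      intro γ hγ
      obtain ⟨β, hβ, rfl⟩ := Multiset.mem_map.1 hγ
      rw [norm_div]
      exact div_le_one_of_le₀ (hmax β (Multiset.mem_toFinset.2 hβ)) (norm_nonneg _)
    have h1 := avg_psum t' hle'
    have hcount : (1 : ℂ) ∈ t' := Multiset.mem_map.2 ⟨β₀, Multiset.mem_toFinset.1 hβ₀,
      div_self hβ0⟩
    have h2 : Tendsto (fun j : ℕ => (t'.map fun γ => γ ^ (j + 1)).sum) atTop (𝓝 0) := by
      rw [tendsto_zero_iff_norm_tendsto_zero]
      have h3 : Tendsto (fun j : ℕ => (‖β₀‖⁻¹) ^ (j + 1)) atTop (𝓝 0) :=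
        (tendsto_pow_atTop_nhds_zero_of_lt_one (by positivity)
          (inv_lt_one_of_one_lt₀ hρ)).comp (tendsto_add_atTop_nat 1)
      refine squeeze_zero (fun n => norm_nonneg _) (fun j => ?_) h3
      have h4 : (t'.map fun γ => γ ^ (j + 1)).sum =
          -((N (j + 1) / q ^ (j + 1) : ℝ) : ℂ) / β₀ ^ (j + 1) := by
        rw [ha (j + 1) (Nat.succ_pos j), neg_neg, ht', Multiset.map_map, ← Multiset.sum_map_div]
        congr 2
        funext β
        simp [div_pow]
      rw [h4, norm_div, norm_neg, norm_pow, inv_pow, div_eq_mul_inv, Complex.norm_real]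
      exact mul_le_of_le_one_left (by positivity) (habs (j + 1))
    have h5 := h2.cesaro_smul
    have h6 := tendsto_nhds_unique h1 h5
    have h7 : 0 < t'.count 1 := Multiset.count_pos.2 hcount
    have h8 : (t'.count 1 : ℂ) ≠ 0 := by exact_mod_cast h7.ne'
    exact h8 h6
  -- second step: no root on the unit circle
  have hlt : ∀ β ∈ t, ‖β‖ < 1 := by
    intro β₀ hβ₀
    refine lt_of_le_of_ne (hle β₀ hβ₀) fun hone => ?_
    have hβ0 : β₀ ≠ 0 := by
      rintro rfl
      rw [norm_zero] at hone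
      exact zero_ne_one hone
    -- the case of real roots
    have hroot' : p.eval ((β₀ * q)⁻¹) = 0 := by
      obtain ⟨α, hα, hαβ⟩ := Multiset.mem_map.1 hβ₀
      have : α = β₀ * q := by
        rw [← hαβ]
        field_simp
      rw [← this]
      exact (hroot α hα).2
    have heval : ∀ x : ℂ, p.eval x = ∑ m ∈ Finset.range D, (S m : ℂ) * x ^ m := by
      intro x
      simp only [p, Polynomial.eval_finsetSum, Polynomial.eval_monomial]
    by_cases hsq : β₀ ^ 2 = 1
    · have hmul : β₀ * β₀ = 1 := by rw [← pow_two]; exact hsq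
      rcases mul_self_eq_one_iff.1 hmul with h | h
      · rw [h, one_mul, heval] at hroot'
        have h9 : ((∑ m ∈ Finset.range D, S m * (q⁻¹) ^ m : ℝ) : ℂ) = 0 := by
          push_cast
          exact hroot'
        have h10 : (∑ m ∈ Finset.range D, S m * (q⁻¹) ^ m : ℝ) = 0 := by exact_mod_cast h9
        exact hposp.ne' h10
      · rw [h, heval] at hroot'
        have h9 : ((∑ m ∈ Finset.range D, ((-1) ^ m * S m) * (q⁻¹) ^ m : ℝ) : ℂ) = 0 := by
          push_cast
          rw [← hroot']
          refine Finset.sum_congr rfl fun m _ => ?_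
          rw [neg_one_mul, inv_neg, neg_pow]
          ring
        have h10 : (∑ m ∈ Finset.range D, ((-1) ^ m * S m) * (q⁻¹) ^ m : ℝ) = 0 := by
          exact_mod_cast h9
        exact hposm.ne' h10
    · -- the three-four-one argument
      set z : ℂ := β₀⁻¹ with hz
      have hz1 : ‖z‖ = 1 := by rw [hz, norm_inv, hone, inv_one]
      set r : ℕ → ℝ := fun j => (z ^ (j + 1)).re with hr
      have hr1 : ∀ j, |r j| ≤ 1 := by
        intro j
        refine (Complex.abs_re_le_norm _).trans ?_
        rw [norm_pow, hz1, one_pow]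
      have hdouble : ∀ j, 2 * r j ^ 2 - 1 = ((z ^ 2) ^ (j + 1)).re := by
        intro j
        have h11 : (z ^ 2) ^ (j + 1) = z ^ (j + 1) * z ^ (j + 1) := by ring
        have h12 : (z ^ (j + 1)).re ^ 2 + (z ^ (j + 1)).im ^ 2 = 1 := by
          have h13 : ‖z ^ (j + 1)‖ ^ 2 = 1 := by rw [norm_pow, hz1, one_pow, one_pow]
          rw [← h13, Complex.sq_norm, Complex.normSq_apply]
          ring
        rw [h11, Complex.mul_re]
        simp only [hr]
        linear_combination h12
      set t' : Multiset ℂ := t.map fun β => z * β with ht'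
      have hle' : ∀ γ ∈ t', ‖γ‖ ≤ 1 := by
        intro γ hγ
        obtain ⟨β, hβ, rfl⟩ := Multiset.mem_map.1 hγ
        rw [norm_mul, hz1, one_mul]
        exact hle β hβ
      have hra : ∀ j, r j * (N (j + 1) / q ^ (j + 1)) =
          -((t'.map fun γ => γ ^ (j + 1)).sum).re := by
        intro j
        have h14 : (t'.map fun γ => γ ^ (j + 1)).sum =
            z ^ (j + 1) * (t.map fun β => β ^ (j + 1)).sum := by
          rw [ht', Multiset.map_map, ← Multiset.sum_map_mul_left]
          congr 2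
          funext β
          simp [mul_pow]
        have h15 : (t.map fun β => β ^ (j + 1)).sum = -((N (j + 1) / q ^ (j + 1) : ℝ) : ℂ) := by
          rw [ha (j + 1) (Nat.succ_pos j), neg_neg]
        rw [h14, h15, mul_neg, Complex.neg_re, neg_neg, Complex.re_mul_ofReal]
      have hcount : (1 : ℂ) ∈ t' := Multiset.mem_map.2 ⟨β₀, hβ₀, inv_mul_cancel₀ hβ0⟩
      have hm : (1 : ℝ) ≤ (t'.count 1 : ℝ) := by
        exact_mod_cast Multiset.count_pos.2 hcount
      have hz2 : z ^ 2 ≠ 1 := by
        intro h16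
        apply hsq
        rw [hz, inv_pow, inv_eq_one] at h16
        exact h16
      -- averages
      have hA1 : Tendsto (fun n : ℕ => (n : ℝ)⁻¹ • ∑ j ∈ Finset.range n,
          (r j * (N (j + 1) / q ^ (j + 1)))) atTop (𝓝 (-(t'.count 1 : ℝ))) := by
        have h17 := (Complex.continuous_re.tendsto _).comp (avg_psum t' hle')
        have h18 := h17.neg
        have h19 : -((t'.count 1 : ℂ)).re = -(t'.count 1 : ℝ) := by simp
        rw [h19] at h18
        refine h18.congr fun n => ?_
        rw [Function.comp_apply, Complex.smul_re, Complex.re_sum, ← smul_neg,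
          ← Finset.sum_neg_distrib]
        congr 1
        exact Finset.sum_congr rfl fun j _ => (hra j).symm
      have hA2 : Tendsto (fun n : ℕ => (n : ℝ)⁻¹ • ∑ j ∈ Finset.range n,
          (2 * r j ^ 2 - 1)) atTop (𝓝 0) := by
        have h17 := (Complex.continuous_re.tendsto _).comp (avg_pow (z ^ 2) (by
          rw [norm_pow, hz1, one_pow]))
        rw [if_neg hz2, Complex.zero_re] at h17
        refine h17.congr fun n => ?_
        rw [Function.comp_apply, Complex.smul_re, Complex.re_sum]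
        congr 1
        exact Finset.sum_congr rfl fun j _ => (hdouble j).symm
      have hA3 : Tendsto (fun n : ℕ => (n : ℝ)⁻¹ • ∑ j ∈ Finset.range n,
          ((2 * r j ^ 2 - 1) * (ε (j + 1) / q ^ (j + 1)))) atTop (𝓝 0) := by
        refine Filter.Tendsto.cesaro_smul ?_
        have h20 : Tendsto (fun j : ℕ => E * (q⁻¹) ^ (j + 1)) atTop (𝓝 0) := by
          have := ((tendsto_pow_atTop_nhds_zero_of_lt_one (by positivity)
            (inv_lt_one_of_one_lt₀ hq)).comp (tendsto_add_atTop_nat 1)).const_mul E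
          rwa [mul_zero] at this
        refine squeeze_zero_norm (fun j => ?_) h20
        rw [Real.norm_eq_abs, abs_mul]
        have h21 : |2 * r j ^ 2 - 1| ≤ 1 := by
          have h22 := sq_le_one_iff_abs_le_one (r j) |>.2 (hr1 j)
          rw [abs_le]
          constructor <;> nlinarith [sq_nonneg (r j)]
        have h23 : |ε (j + 1) / q ^ (j + 1)| ≤ E * (q⁻¹) ^ (j + 1) := by
          rw [abs_div, abs_of_nonneg (hε (j + 1)).1, abs_of_pos (pow_pos hq0 _), inv_pow,
            div_eq_mul_inv]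
          exact mul_le_mul_of_nonneg_right (hε (j + 1)).2 (by positivity)
        calc |2 * r j ^ 2 - 1| * |ε (j + 1) / q ^ (j + 1)| ≤ 1 * (E * (q⁻¹) ^ (j + 1)) :=
              mul_le_mul h21 h23 (abs_nonneg _) zero_le_one
          _ = _ := one_mul _
      have hA : Tendsto (fun n : ℕ => (n : ℝ)⁻¹ • ∑ j ∈ Finset.range n,
          (3 + 4 * (r j * (N (j + 1) / q ^ (j + 1))) + (2 * r j ^ 2 - 1) -
            (2 * r j ^ 2 - 1) * (ε (j + 1) / q ^ (j + 1)))) atTop
          (𝓝 (3 + 4 * (-(t'.count 1 : ℝ)) + 0 - 0)) := by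
        have h24 : Tendsto (fun n : ℕ => (n : ℝ)⁻¹ • ∑ j ∈ Finset.range n, (3 : ℝ)) atTop
            (𝓝 3) := Filter.Tendsto.cesaro_smul tendsto_const_nhds
        refine (((h24.add (hA1.const_mul 4)).add hA2).sub hA3).congr fun n => ?_
        have h27 : ∑ j ∈ Finset.range n,
            (3 + 4 * (r j * (N (j + 1) / q ^ (j + 1))) + (2 * r j ^ 2 - 1) -
              (2 * r j ^ 2 - 1) * (ε (j + 1) / q ^ (j + 1))) =
            ∑ j ∈ Finset.range n, (3 : ℝ) +
              4 * ∑ j ∈ Finset.range n, (r j * (N (j + 1) / q ^ (j + 1))) +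
              ∑ j ∈ Finset.range n, (2 * r j ^ 2 - 1) -
              ∑ j ∈ Finset.range n, ((2 * r j ^ 2 - 1) * (ε (j + 1) / q ^ (j + 1))) := by
          rw [Finset.mul_sum, ← Finset.sum_add_distrib, ← Finset.sum_add_distrib,
            ← Finset.sum_sub_distrib]
        rw [h27]
        simp only [smul_eq_mul]
        ring
      have hnn : ∀ n : ℕ, 0 ≤ (n : ℝ)⁻¹ • ∑ j ∈ Finset.range n,
          (3 + 4 * (r j * (N (j + 1) / q ^ (j + 1))) + (2 * r j ^ 2 - 1) -
            (2 * r j ^ 2 - 1) * (ε (j + 1) / q ^ (j + 1))) := by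
        intro n
        refine smul_nonneg (by positivity) (Finset.sum_nonneg fun j _ => ?_)
        have h25 := h341 (j + 1) (r j) (hr1 j)
        have hqj : 0 < q ^ (j + 1) := pow_pos hq0 _
        have h26 : 3 + 4 * (r j * (N (j + 1) / q ^ (j + 1))) + (2 * r j ^ 2 - 1) -
            (2 * r j ^ 2 - 1) * (ε (j + 1) / q ^ (j + 1)) =
            (3 * q ^ (j + 1) + 4 * r j * N (j + 1) +
              (2 * r j ^ 2 - 1) * (q ^ (j + 1) - ε (j + 1))) / q ^ (j + 1) := by
          field_simp
          ring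
        rw [h26]
        exact div_nonneg h25 hqj.le
      have hfin := ge_of_tendsto' hA hnn
      linarith
  -- conclusion
  have h30 := psum_tendsto_zero t hlt
  have h31 := ((Complex.continuous_re.tendsto _).comp h30).neg
  rw [Complex.zero_re, neg_zero] at h31
  refine h31.congr' ?_
  filter_upwards [eventually_gt_atTop 0] with j hj
  rw [Function.comp_apply, ← Complex.neg_re, ← ha j hj, Complex.ofReal_re]

end Pool.Agent.Helper8.PT
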