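import Pool.Agent.Helper8.PT.Monics
import Pool.Agent.Helper8.PT.PSMain

/-!
# Sums of characters over primes
-/

set_option autoImplicit false

namespace Pool.Agent.Helper8.PT

open Polynomial Classical Filter Topology

variable {F : Type} [Field F] [Fintype F]

/-- Weighted sums over prime powers. -/
noncomputable def NG (φ : F[X] → ℕ → ℝ) (j : ℕ) : ℝ :=
  ∑ d ∈ Finset.Icc 1 j, ∑ m ∈ Finset.Icc 1 j,
    if d * m = j then (d : ℝ) * ∑ P ∈ primes F d, φ P m else 0

lemma NN_eq_NG (ψ : F[X] → ℝ) (j : ℕ) : NN ψ j = NG (fun P m => ψ P ^ m) j := rfl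

lemma NG_add (φ φ' : F[X] → ℕ → ℝ) (j : ℕ) :
    NG (fun P m => φ P m + φ' P m) j = NG φ j + NG φ' j := by
  simp only [NG, ← Finset.sum_add_distrib]
  refine Finset.sum_congr rfl fun d _ => Finset.sum_congr rfl fun m _ => ?_
  split_ifs
  · rw [Finset.sum_add_distrib, mul_add]
  · rw [add_zero]

lemma NG_mul (c : ℝ) (φ : F[X] → ℕ → ℝ) (j : ℕ) :
    NG (fun P m => c * φ P m) j = c * NG φ j := by
  simp only [NG, Finset.mul_sum]
  refine Finset.sum_congr rfl fun d _ => Finset.sum_congr rfl fun m _ => ?_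
  split_ifs
  · rw [Finset.mul_sum]
    refine Finset.sum_congr rfl fun P _ => by ring
  · rw [mul_zero]

lemma NG_nonneg {φ : F[X] → ℕ → ℝ} (h : ∀ P m, 0 ≤ φ P m) (j : ℕ) : 0 ≤ NG φ j := by
  refine Finset.sum_nonneg fun d _ => Finset.sum_nonneg fun m _ => ?_
  split_ifs
  · exact mul_nonneg (Nat.cast_nonneg d) (Finset.sum_nonneg fun P _ => h P m)
  · exact le_rfl

lemma NG_single {φ : F[X] → ℕ → ℝ} (h : ∀ P m, 0 ≤ φ P m) {j : ℕ} (hj : 0 < j) :
    φ X j ≤ NG φ j := by
  have h1 : (1 : ℕ) ∈ Finset.Icc 1 j := Finset.mem_Icc.2 ⟨le_rfl, hj⟩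
  have h2 : j ∈ Finset.Icc 1 j := Finset.mem_Icc.2 ⟨hj, le_rfl⟩
  have hX : (X : F[X]) ∈ primes F 1 := mem_primes.2 ⟨monic_X, irreducible_X, natDegree_X⟩
  have hterm : ∀ d m, 0 ≤ (if d * m = j then (d : ℝ) * ∑ P ∈ primes F d, φ P m else 0) := by
    intro d m
    split_ifs
    · exact mul_nonneg (Nat.cast_nonneg d) (Finset.sum_nonneg fun P _ => h P m)
    · exact le_rfl
  calc φ X j ≤ ∑ P ∈ primes F 1, φ P j :=
        Finset.single_le_sum (f := fun P => φ P j) (fun P _ => h P j) hX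
    _ = (if 1 * j = j then ((1 : ℕ) : ℝ) * ∑ P ∈ primes F 1, φ P j else 0) := by
        rw [if_pos (one_mul j), Nat.cast_one, one_mul]
    _ ≤ ∑ m ∈ Finset.Icc 1 j, (if 1 * m = j then ((1 : ℕ) : ℝ) * ∑ P ∈ primes F 1, φ P m else 0) :=
        Finset.single_le_sum (f := fun m =>
          (if 1 * m = j then ((1 : ℕ) : ℝ) * ∑ P ∈ primes F 1, φ P m else 0))
          (fun m _ => hterm 1 m) h2
    _ ≤ NG φ j := Finset.single_le_sum (f := fun d => ∑ m ∈ Finset.Icc 1 j,
          (if d * m = j then (d : ℝ) * ∑ P ∈ primes F d, φ P m else 0))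
          (fun d _ => Finset.sum_nonneg fun m _ => hterm d m) h1

lemma sum_ite_mul_le {j d : ℕ} (hd : 1 ≤ d) (c : ℕ → ℝ) (C : ℝ) (hC : 0 ≤ C)
    (h : ∀ m, 1 ≤ m → c m ≤ C) : ∑ m ∈ Finset.Icc 1 j, (if d * m = j then c m else 0) ≤ C := by
  by_cases hex : ∃ m ∈ Finset.Icc 1 j, d * m = j
  · obtain ⟨m0, hm0, hdm⟩ := hex
    rw [Finset.sum_eq_single m0]
    · rw [if_pos hdm]
      exact h m0 (Finset.mem_Icc.1 hm0).1
    · intro m _ hne
      rw [if_neg]
      intro hdm'
      exact hne (Nat.eq_of_mul_eq_mul_left (by omega) (hdm'.trans hdm.symm))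
    · intro h'
      exact absurd hm0 h'
  · rw [Finset.sum_eq_zero]
    · exact hC
    · intro m hm
      exact if_neg fun hdm => hex ⟨m, hm, hdm⟩

/-- The number of prime powers at which `ψ` vanishes is bounded. -/
lemma NG_zero_le (ψ : F[X] → ℝ) (hval : ∀ f, ψ f = 0 ∨ ψ f = 1 ∨ ψ f = -1) (Z : Finset F[X])
    (hZ : ∀ P : F[X], P.Monic → Irreducible P → ψ P = 0 → P ∈ Z) (j : ℕ) :
    NG (fun P m => 1 - (ψ P ^ m) ^ 2) j ≤ ∑ P ∈ Z, (P.natDegree : ℝ) := by
  have h1 : ∀ d ∈ Finset.Icc 1 j, ∑ m ∈ Finset.Icc 1 j,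
      (if d * m = j then (d : ℝ) * ∑ P ∈ primes F d, (1 - (ψ P ^ m) ^ 2) else 0) ≤
      ∑ P ∈ (primes F d).filter (fun P => ψ P = 0), (P.natDegree : ℝ) := by
    intro d hd
    refine sum_ite_mul_le (Finset.mem_Icc.1 hd).1 _ _
      (Finset.sum_nonneg fun P _ => Nat.cast_nonneg _) fun m hm => ?_
    rw [Finset.mul_sum, Finset.sum_filter]
    refine Finset.sum_le_sum fun P hP => ?_
    rw [(mem_primes.1 hP).2.2]
    rcases hval P with h | h | h
    · rw [if_pos h, h, zero_pow (by omega)]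
      simp
    · rw [if_neg (by rw [h]; norm_num), h]
      simp
    · have h1 : ((-1 : ℝ) ^ m) ^ 2 = 1 := by
        rw [← pow_mul, mul_comm, pow_mul]
        simp
      rw [if_neg (by rw [h]; norm_num), h, h1]
      simp
  have hrw : NG (fun P m => 1 - (ψ P ^ m) ^ 2) j ≤
      ∑ d ∈ Finset.Icc 1 j, ∑ P ∈ (primes F d).filter (fun P => ψ P = 0), (P.natDegree : ℝ) :=
    Finset.sum_le_sum h1
  refine hrw.trans ?_
  rw [← Finset.sum_biUnion]
  · refine Finset.sum_le_sum_of_subset_of_nonneg ?_ fun P _ _ => Nat.cast_nonneg _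
    intro P hP
    obtain ⟨d, -, hPd⟩ := Finset.mem_biUnion.1 hP
    obtain ⟨hPp, hP0⟩ := Finset.mem_filter.1 hPd
    obtain ⟨hPm, hPi, -⟩ := mem_primes.1 hPp
    exact hZ P hPm hPi hP0
  · intro d _ d' _ hdd
    rw [Function.onFun, Finset.disjoint_left]
    intro P hP hP'
    exact hdd ((mem_primes.1 (Finset.mem_filter.1 hP).1).2.2.symm.trans
      (mem_primes.1 (Finset.mem_filter.1 hP').1).2.2)

lemma one_lt_card_real : (1 : ℝ) < (Fintype.card F : ℝ) := by
  exact_mod_cast Fintype.one_lt_card (α := F)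

/-- The prime number theorem for a nontrivial real character. -/
theorem NN_tendsto (ψ : F[X] → ℝ) (hψ : ∀ f g, ψ (f * g) = ψ f * ψ g) (hψ1 : ψ 1 = 1)
    (hval : ∀ f, ψ f = 0 ∨ ψ f = 1 ∨ ψ f = -1) (D : ℕ) (hSD : ∀ m, D ≤ m → SS ψ m = 0)
    (Z : Finset F[X]) (hZ : ∀ P : F[X], P.Monic → Irreducible P → ψ P = 0 → P ∈ Z) :
    Tendsto (fun j => NN ψ j / (Fintype.card F : ℝ) ^ j) atTop (𝓝 0) := by
  set q : ℝ := (Fintype.card F : ℝ) with hq
  have hq1 : 1 < q := one_lt_card_real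
  have hpowval : ∀ P m, ψ P ^ m = 0 ∨ ψ P ^ m = 1 ∨ ψ P ^ m = -1 := by
    intro P m
    rcases hval P with h | h | h
    · rcases Nat.eq_zero_or_pos m with rfl | hm
      · right; left; simp
      · left; rw [h, zero_pow hm.ne']
    · right; left; rw [h, one_pow]
    · right
      rw [h]
      exact neg_one_pow_eq_or ℝ m
  have hone : ∀ j, 0 < j → NG (F := F) (fun _ _ => 1) j = q ^ j := by
    intro j hj
    rw [← NN_one (F := F) j hj, NN_eq_NG]
    simp only [one_pow]
  refine ps_main q hq1 (SS ψ) (NN ψ) D ?_ hSD (NN_zero ψ) (log_deriv ψ hψ hψ1) ?_ ?_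
    (∑ P ∈ Z, (P.natDegree : ℝ)) (fun j => NG (fun P m => 1 - (ψ P ^ m) ^ 2) j) ?_ ?_
  · have h1 : monics F 0 = {1} := by
      ext f
      rw [mem_monics, Finset.mem_singleton]
      constructor
      · rintro ⟨h2, h3⟩
        exact h2.natDegree_eq_zero.1 h3
      · rintro rfl
        exact ⟨monic_one, natDegree_one⟩
    rw [SS, h1, Finset.sum_singleton, hψ1]
  · intro j
    rcases Nat.eq_zero_or_pos j with rfl | hj
    · rw [NN_zero]
      simp
    · rw [← hone j hj, abs_le]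
      constructor
      · have h1 : 0 ≤ NG (fun P m => ψ P ^ m + 1 * 1) j := NG_nonneg (fun P m => by
          rcases hpowval P m with h | h | h <;> rw [h] <;> norm_num) j
        rw [NG_add] at h1
        simp only [mul_one] at h1
        rw [NN_eq_NG]
        linarith
      · have h1 : 0 ≤ NG (fun P m => (-1) * ψ P ^ m + 1) j := NG_nonneg (fun P m => by
          rcases hpowval P m with h | h | h <;> rw [h] <;> norm_num) j
        rw [NG_add (fun P m => (-1) * ψ P ^ m) (fun _ _ => 1), NG_mul] at h1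
        rw [NN_eq_NG]
        linarith
  · intro j hj hj0
    have h1 : ψ X ^ j + 1 ≤ NG (fun P m => ψ P ^ m + 1) j := NG_single (φ := fun P m => ψ P ^ m + 1)
      (fun P m => by
        rcases hpowval P m with h | h | h <;> simp only [h] <;> norm_num) hj0
    rw [NG_add (fun P m => ψ P ^ m) (fun _ _ => 1), hone j hj0] at h1
    rw [NN_eq_NG]
    have h2 : 0 ≤ ψ X ^ j := hj.pow_nonneg _
    linarith
  · intro j
    refine ⟨NG_nonneg (fun P m => ?_) j, NG_zero_le ψ hval Z hZ j⟩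
    rcases hpowval P m with h | h | h <;> rw [h] <;> norm_num
  · intro j r hr
    rcases Nat.eq_zero_or_pos j with rfl | hj
    · rw [NN_zero]
      simp only [NG, pow_zero, mul_zero, add_zero, mul_one]
      simp only [Finset.Icc_eq_empty_of_lt zero_lt_one, Finset.sum_empty]
      nlinarith [sq_nonneg r]
    · have h1 : 0 ≤ NG (fun P m => (3 * 1 + 4 * r * ψ P ^ m) +
          ((2 * r ^ 2 - 1) * 1 + (-(2 * r ^ 2 - 1)) * (1 - (ψ P ^ m) ^ 2))) j := by
        refine NG_nonneg (fun P m => ?_) j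
        rcases hpowval P m with h | h | h <;> rw [h]
        · nlinarith
        · nlinarith [sq_nonneg (r + 1)]
        · nlinarith [sq_nonneg (r - 1)]
      rw [NG_add (fun P m => 3 * 1 + 4 * r * ψ P ^ m) (fun P m => (2 * r ^ 2 - 1) * 1 +
        (-(2 * r ^ 2 - 1)) * (1 - (ψ P ^ m) ^ 2)), NG_add (fun _ _ => 3 * 1)
        (fun P m => 4 * r * ψ P ^ m), NG_add (fun _ _ => (2 * r ^ 2 - 1) * 1)
        (fun P m => (-(2 * r ^ 2 - 1)) * (1 - (ψ P ^ m) ^ 2)), NG_mul, NG_mul, NG_mul, NG_mul,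
        hone j hj] at h1
      rw [NN_eq_NG]
      linarith

/-- The sum of `ψ` over primes of degree `j` compared with the sum over prime powers. -/
lemma NN_sub_le (ψ : F[X] → ℝ) (hval : ∀ f, ψ f = 0 ∨ ψ f = 1 ∨ ψ f = -1) (j : ℕ) (hj : 0 < j) :
    |NN ψ j - (j : ℝ) * ∑ P ∈ primes F j, ψ P| ≤ j * (Real.sqrt (Fintype.card F)) ^ j := by
  set q : ℝ := (Fintype.card F : ℝ) with hq
  have hq1 : 1 < q := one_lt_card_real
  have habs : ∀ P m, |ψ P ^ m| ≤ 1 := by
    intro P m
    rw [abs_pow]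
    refine pow_le_one₀ (abs_nonneg _) ?_
    rcases hval P with h | h | h <;> rw [h] <;> norm_num
  have hcardp : ∀ d : ℕ, 1 ≤ d → (d : ℝ) * (primes F d).card ≤ q ^ d := by
    intro d hd
    rw [← NN_one (F := F) d hd, NN]
    have h1 : d ∈ Finset.Icc 1 d := Finset.mem_Icc.2 ⟨hd, le_rfl⟩
    have h2 : (1 : ℕ) ∈ Finset.Icc 1 d := Finset.mem_Icc.2 ⟨le_rfl, hd⟩
    have hterm : ∀ d' m, 0 ≤ (if d' * m = d then (d' : ℝ) * ∑ P ∈ primes F d', (1 : ℝ) ^ m
        else 0) := by
      intro d' m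
      split_ifs
      · exact mul_nonneg (Nat.cast_nonneg _) (Finset.sum_nonneg fun P _ => by positivity)
      · exact le_rfl
    calc (d : ℝ) * (primes F d).card =
          (if d * 1 = d then (d : ℝ) * ∑ P ∈ primes F d, (1 : ℝ) ^ 1 else 0) := by
          rw [if_pos (mul_one d)]
          simp
      _ ≤ ∑ m ∈ Finset.Icc 1 d,
            (if d * m = d then (d : ℝ) * ∑ P ∈ primes F d, (1 : ℝ) ^ m else 0) :=
          Finset.single_le_sum (f := fun m =>
            (if d * m = d then (d : ℝ) * ∑ P ∈ primes F d, (1 : ℝ) ^ m else 0))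
            (fun m _ => hterm d m) h2
      _ ≤ _ := Finset.single_le_sum (f := fun d' => ∑ m ∈ Finset.Icc 1 d,
            (if d' * m = d then (d' : ℝ) * ∑ P ∈ primes F d', (1 : ℝ) ^ m else 0))
            (fun d' _ => Finset.sum_nonneg fun m _ => hterm d' m) h1
  have hjmem : j ∈ Finset.Icc 1 j := Finset.mem_Icc.2 ⟨hj, le_rfl⟩
  have hmain : ∑ m ∈ Finset.Icc 1 j, (if j * m = j then (j : ℝ) * ∑ P ∈ primes F j, ψ P ^ m
      else 0) = (j : ℝ) * ∑ P ∈ primes F j, ψ P := by
    rw [Finset.sum_eq_single 1]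
    · rw [if_pos (mul_one j)]
      simp
    · intro m _ hm
      rw [if_neg]
      intro h
      exact hm (Nat.eq_of_mul_eq_mul_left hj (by rw [h, mul_one]))
    · intro h
      exact absurd (Finset.mem_Icc.2 ⟨le_rfl, hj⟩) h
  rw [NN, ← Finset.add_sum_erase _ _ hjmem, hmain, add_sub_cancel_left]
  -- each remaining term
  have hterm : ∀ d ∈ (Finset.Icc 1 j).erase j, |∑ m ∈ Finset.Icc 1 j,
      (if d * m = j then (d : ℝ) * ∑ P ∈ primes F d, ψ P ^ m else 0)| ≤ (Real.sqrt q) ^ j := by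
    intro d hd
    obtain ⟨hdj, hd'⟩ := Finset.mem_erase.1 hd
    obtain ⟨hd1, hdle⟩ := Finset.mem_Icc.1 hd'
    by_cases hex : ∃ m ∈ Finset.Icc 1 j, d * m = j
    · obtain ⟨m0, hm0, hdm⟩ := hex
      rw [Finset.sum_eq_single m0]
      · rw [if_pos hdm, abs_mul, Nat.abs_cast]
        have h3 : |∑ P ∈ primes F d, ψ P ^ m0| ≤ (primes F d).card := by
          refine (Finset.abs_sum_le_sum_abs _ _).trans ?_
          refine (Finset.sum_le_sum fun P _ => habs P m0).trans ?_
          simp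
        have h4 : (d : ℝ) * |∑ P ∈ primes F d, ψ P ^ m0| ≤ q ^ d :=
          (mul_le_mul_of_nonneg_left h3 (Nat.cast_nonneg d)).trans (hcardp d hd1)
        refine h4.trans ?_
        have h5 : 2 ≤ m0 := by
          have h6 := (Finset.mem_Icc.1 hm0).1
          rcases Nat.lt_or_ge m0 2 with h7 | h7
          · have : m0 = 1 := by omega
            rw [this, mul_one] at hdm
            exact absurd hdm hdj
          · exact h7
        have h8 : 2 * d ≤ j := by nlinarith
        have h9 : q ^ d = (Real.sqrt q) ^ (2 * d) := by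
          rw [pow_mul, Real.sq_sqrt (by positivity)]
        rw [h9]
        exact pow_le_pow_right₀ (by
          rw [Real.one_le_sqrt]
          exact hq1.le) h8
      · intro m _ hne
        rw [if_neg]
        intro hdm'
        exact hne (Nat.eq_of_mul_eq_mul_left (by omega) (hdm'.trans hdm.symm))
      · intro h'
        exact absurd hm0 h'
    · rw [Finset.sum_eq_zero]
      · rw [abs_zero]
        positivity
      · intro m hm
        exact if_neg fun hdm => hex ⟨m, hm, hdm⟩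
  refine (Finset.abs_sum_le_sum_abs _ _).trans ((Finset.sum_le_sum hterm).trans ?_)
  rw [Finset.sum_const, nsmul_eq_mul]
  refine mul_le_mul_of_nonneg_right ?_ (by positivity)
  have : ((Finset.Icc 1 j).erase j).card ≤ j := by
    refine (Finset.card_erase_le).trans ?_
    rw [Nat.card_Icc]
    omega
  exact_mod_cast this

lemma error_tendsto : Tendsto (fun j : ℕ => (j : ℝ) * (Real.sqrt (Fintype.card F)) ^ j /
    (Fintype.card F : ℝ) ^ j) atTop (𝓝 0) := by
  set q : ℝ := (Fintype.card F : ℝ) with hq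
  have hq1 : 1 < q := one_lt_card_real
  have hs1 : 1 < Real.sqrt q := by
    rw [Real.lt_sqrt zero_le_one]
    simpa using hq1
  have hs0 : 0 < Real.sqrt q := one_pos.trans hs1
  have h1 := tendsto_self_mul_const_pow_of_lt_one (r := (Real.sqrt q)⁻¹) (by positivity)
    (inv_lt_one_of_one_lt₀ hs1)
  refine h1.congr fun j => ?_
  have h2 : q ^ j = (Real.sqrt q) ^ j * (Real.sqrt q) ^ j := by
    rw [← mul_pow, Real.mul_self_sqrt (by positivity)]
  rw [h2, inv_pow]
  field_simp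

/-- Sums of a nontrivial character over primes are negligible. -/
theorem prime_sum_tendsto (ψ : F[X] → ℝ) (hψ : ∀ f g, ψ (f * g) = ψ f * ψ g) (hψ1 : ψ 1 = 1)
    (hval : ∀ f, ψ f = 0 ∨ ψ f = 1 ∨ ψ f = -1) (D : ℕ) (hSD : ∀ m, D ≤ m → SS ψ m = 0)
    (Z : Finset F[X]) (hZ : ∀ P : F[X], P.Monic → Irreducible P → ψ P = 0 → P ∈ Z) :
    Tendsto (fun j : ℕ => (j : ℝ) * (∑ P ∈ primes F j, ψ P) / (Fintype.card F : ℝ) ^ j)
      atTop (𝓝 0) := by
  have h1 := NN_tendsto ψ hψ hψ1 hval D hSD Z hZ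
  have h2 : Tendsto (fun j : ℕ => (NN ψ j - (j : ℝ) * ∑ P ∈ primes F j, ψ P) /
      (Fintype.card F : ℝ) ^ j) atTop (𝓝 0) := by
    refine squeeze_zero_norm' ?_ (error_tendsto (F := F))
    filter_upwards [eventually_gt_atTop 0] with j hj
    have hqj : 0 < (Fintype.card F : ℝ) ^ j := pow_pos (one_pos.trans one_lt_card_real) j
    rw [Real.norm_eq_abs, abs_div, abs_of_pos hqj]
    exact div_le_div_of_nonneg_right (NN_sub_le ψ hval j hj) hqj.le
  have h3 := h1.sub h2
  rw [sub_zero] at h3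
  refine h3.congr fun j => ?_
  rw [← sub_div]
  congr 1
  ring

/-- The prime number theorem. -/
theorem card_primes_tendsto :
    Tendsto (fun j : ℕ => (j : ℝ) * ((primes F j).card : ℝ) / (Fintype.card F : ℝ) ^ j)
      atTop (𝓝 1) := by
  have h2 : Tendsto (fun j : ℕ => (NN (F := F) (fun _ => 1) j - (j : ℝ) * ∑ P ∈ primes F j, 1) /
      (Fintype.card F : ℝ) ^ j) atTop (𝓝 0) := by
    refine squeeze_zero_norm' ?_ (error_tendsto (F := F))
    filter_upwards [eventually_gt_atTop 0] with j hj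
    have hqj : 0 < (Fintype.card F : ℝ) ^ j := pow_pos (one_pos.trans one_lt_card_real) j
    rw [Real.norm_eq_abs, abs_div, abs_of_pos hqj]
    exact div_le_div_of_nonneg_right (NN_sub_le (fun _ => 1) (fun _ => Or.inr (Or.inl rfl)) j hj)
      hqj.le
  have h3 := (tendsto_const_nhds (x := (1 : ℝ))).sub h2
  rw [sub_zero] at h3
  refine h3.congr' ?_
  filter_upwards [eventually_gt_atTop 0] with j hj
  have hqj : (Fintype.card F : ℝ) ^ j ≠ 0 := (pow_pos (one_pos.trans one_lt_card_real) j).ne'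
  rw [NN_one j hj]
  simp only [Finset.sum_const, nsmul_eq_mul, mul_one]
  field_simp
  ring

end Pool.Agent.Helper8.PT
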