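import Pool.Agent.Helper8.PT.Cond

/-!
# Quadratic classes modulo primes and of leading coefficients
-/

set_option autoImplicit false

namespace Pool.Agent.Helper8.PT

open Module Polynomial Classical

variable {F : Type} [Field F]

/-- The quadratic class of a polynomial modulo `π`. -/
noncomputable def lg (π f : F[X]) : ZMod 2 := ql (Ideal.Quotient.mk (Ideal.span {π}) f)

lemma lg_eq_zero {π f : F[X]} : lg π f = 0 ↔ IsSquare (Ideal.Quotient.mk (Ideal.span {π}) f) :=
  ql_eq_zero

lemma ringChar_ne (p : ℕ) [CharP F p] (hp2 : p ≠ 2) : ringChar F ≠ 2 := by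
  rw [ringChar.eq F p]
  exact hp2

section

variable {ι : Type} [Fintype ι]

/-- The leading coefficient classes of the torsion classes. -/
noncomputable def tl (e : ι → F[X]) (j i : ι) : ZMod 2 := ql (tc e j i).leadingCoeff

lemma tc_mul_left (P : F[X]) (e : ι → F[X]) (j i : ι) :
    tc (fun i => P * e i) j i =
      (if i = j then P ^ (Fintype.card ι - 1) else P) * tc e j i := by
  by_cases h : i = j
  · subst h
    rw [if_pos rfl, tc_self, tc_self]
    have h1 : (Finset.univ.erase i).card = Fintype.card ι - 1 := by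
      rw [Finset.card_erase_of_mem (Finset.mem_univ i), Finset.card_univ]
    rw [← h1, ← Finset.prod_const, ← Finset.prod_mul_distrib]
    exact Finset.prod_congr rfl fun l _ => by ring
  · rw [if_neg h, tc_ne _ h, tc_ne _ h]
    ring

lemma ql_lead_tc {P : F[X]} (hP : P.Monic) (e : ι → F[X]) (j i : ι) :
    ql (tc (fun i => P * e i) j i).leadingCoeff = tl e j i := by
  rw [tc_mul_left, leadingCoeff_mul, tl]
  have h1 : (if i = j then P ^ (Fintype.card ι - 1) else P).leadingCoeff = 1 := by
    split_ifs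
    · rw [leadingCoeff_pow, hP.leadingCoeff, one_pow]
    · exact hP
  rw [h1, one_mul]

/-- The permutation of the branch points which describes the degrees of the torsion classes. -/
noncomputable def sw (e : ι → F[X]) (n : ℕ) (a b : ι) : Equiv.Perm ι :=
  if Even (n + (e a - e b).natDegree) then Equiv.refl ι else Equiv.swap a b

lemma natDegree_tc {P : F[X]} (hP : P ≠ 0) {e : ι → F[X]} {n : ℕ} {a b : ι}
    (hdeg : EqualDegrees e n a b) (hodd : Odd (Fintype.card ι))
    (hpar : Odd (P.natDegree + n)) (j i : ι) :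
    ((tc (fun i => P * e i) j i).natDegree : ZMod 2) = 1 + if i = sw e n a b j then 1 else 0 := by
  have hne := hdeg.ne
  have hab := hdeg.1
  set mm : ZMod 2 := ((n + (e a - e b).natDegree : ℕ) : ZMod 2) with hmm
  have hpar' : ((P.natDegree + n : ℕ) : ZMod 2) = 1 := ZMod.natCast_eq_one_iff_odd.2 hpar
  have hdab : ((P.natDegree + (e a - e b).natDegree : ℕ) : ZMod 2) = 1 + mm := by
    rw [hmm, ← hpar']
    push_cast
    have : (n : ZMod 2) + n = 0 := CharTwo.add_self_eq_zero _
    linear_combination -this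
  have hd : ∀ i j, i ≠ j → ((P * e i - P * e j).natDegree : ZMod 2) =
      1 + if (i = a ∧ j = b) ∨ (i = b ∧ j = a) then mm else 0 := by
    intro i j hij
    rw [← mul_sub, natDegree_mul hP (hne i j hij)]
    by_cases hs : (i = a ∧ j = b) ∨ (i = b ∧ j = a)
    · rw [if_pos hs, ← hdab]
      rcases hs with ⟨rfl, rfl⟩ | ⟨rfl, rfl⟩
      · rfl
      · rw [← neg_sub, natDegree_neg]
    · rw [if_neg hs, add_zero, natDegree_eq_of_degree_eq_some (hdeg.2.2.2 i j hij (by
        rw [Ne, Sym2.eq_iff]
        exact hs))]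
      exact hpar'
  have h0 : ∀ i j, i ≠ j → P * e i - P * e j ≠ 0 := by
    intro i j hij
    rw [← mul_sub]
    exact mul_ne_zero hP (hne i j hij)
  have hself : ∀ j, ((tc (fun i => P * e i) j j).natDegree : ZMod 2) =
      if j = a ∨ j = b then mm else 0 := by
    intro j
    rw [tc_self, natDegree_prod _ _ fun l hl => h0 j l (Finset.ne_of_mem_erase hl).symm,
      Nat.cast_sum, Finset.sum_congr rfl fun l hl => hd j l (Finset.ne_of_mem_erase hl).symm,
      Finset.sum_add_distrib, Finset.sum_const, Finset.card_erase_of_mem (Finset.mem_univ j),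
      Finset.card_univ, nsmul_eq_mul, mul_one]
    have hc : ((Fintype.card ι - 1 : ℕ) : ZMod 2) = 0 := by
      obtain ⟨m, hm⟩ := hodd
      rw [hm, Nat.add_sub_cancel]
      exact ZMod.natCast_eq_zero_iff_even.2 (even_two_mul m)
    rw [hc, zero_add]
    by_cases hja : j = a
    · subst hja
      rw [if_pos (Or.inl rfl), Finset.sum_eq_single b]
      · simp
      · intro l _ hl
        rw [if_neg]
        rintro (h | h)
        · exact hl h.2
        · exact hab h.1
      · intro h
        exact absurd (Finset.mem_erase.2 ⟨hab.symm, Finset.mem_univ b⟩) h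
    · by_cases hjb : j = b
      · subst hjb
        rw [if_pos (Or.inr rfl), Finset.sum_eq_single a]
        · simp
        · intro l _ hl
          rw [if_neg]
          rintro (h | h)
          · exact hja h.1
          · exact hl h.2
        · intro h
          exact absurd (Finset.mem_erase.2 ⟨hab, Finset.mem_univ a⟩) h
      · rw [if_neg (by tauto)]
        refine Finset.sum_eq_zero fun l _ => ?_
        rw [if_neg]
        rintro (h | h)
        · exact hja h.1
        · exact hjb h.1
  by_cases hev : Even (n + (e a - e b).natDegree)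
  · have hmm0 : mm = 0 := ZMod.natCast_eq_zero_iff_even.2 hev
    have hsw : sw e n a b j = j := by rw [sw, if_pos hev]; rfl
    rw [hsw]
    by_cases h : i = j
    · rw [h, hself, hmm0, if_pos rfl]
      simp only [ite_self]
      decide
    · rw [tc_ne _ h, hd j i (Ne.symm h), hmm0, if_neg h]
      simp
  · have hmm1 : mm = 1 := ZMod.natCast_eq_one_iff_odd.2 (Nat.not_even_iff_odd.1 hev)
    have hsw : sw e n a b j = Equiv.swap a b j := by rw [sw, if_neg hev]
    rw [hsw, Equiv.swap_apply_def]
    by_cases h : i = j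
    · rw [h, hself, hmm1]
      by_cases hja : j = a
      · simp [hja, hab]
      · by_cases hjb : j = b
        · simp [hjb, hab.symm]
        · simp only [hja, hjb, if_false, or_self, if_true]
          decide
    · rw [tc_ne _ h, hd j i (Ne.symm h), hmm1]
      by_cases hja : j = a
      · by_cases hib : i = b
        · simp [hja, hib]
        · simp [hja, hib, hab]
      · by_cases hjb : j = b
        · by_cases hia : i = a
          · simp [hjb, hia, hab.symm]
          · simp [hjb, hia, hab.symm]
        · simp [hja, hjb, h]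

variable [Finite F]

/-- The product of all torsion classes is a square. -/
lemma sum_tl (h2 : ringChar F ≠ 2) {e : ι → F[X]} (hne : ∀ i j, i ≠ j → e i - e j ≠ 0)
    (hodd : Odd (Fintype.card ι)) (i : ι) : ∑ j, tl e j i = 0 := by
  have hl : ∀ i j, i ≠ j → (e i - e j).leadingCoeff ≠ 0 := fun i j h =>
    leadingCoeff_ne_zero.2 (hne i j h)
  have h1 : tl e i i = ∑ l ∈ Finset.univ.erase i, ql (e i - e l).leadingCoeff := by
    rw [tl, tc_self, leadingCoeff_prod, ql_prod h2]
    exact fun l hl' => hl i l (Finset.ne_of_mem_erase hl').symm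
  have h3 : ∀ j ∈ Finset.univ.erase i, tl e j i = ql (-1 : F) + ql (e i - e j).leadingCoeff := by
    intro j hj
    have hji : j ≠ i := Finset.ne_of_mem_erase hj
    rw [tl, tc_ne e hji.symm, ← ql_mul h2 (neg_ne_zero.2 one_ne_zero) (hl i j hji.symm)]
    congr 1
    rw [neg_one_mul, ← leadingCoeff_neg, neg_sub]
  rw [← Finset.add_sum_erase Finset.univ (fun j => tl e j i) (Finset.mem_univ i), h1,
    Finset.sum_congr rfl h3, Finset.sum_add_distrib, Finset.sum_const,
    Finset.card_erase_of_mem (Finset.mem_univ i), Finset.card_univ, nsmul_eq_mul]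
  obtain ⟨m, hm⟩ := hodd
  have h4 : ((Fintype.card ι - 1 : ℕ) : ZMod 2) = 0 := by
    rw [hm, Nat.add_sub_cancel]
    exact ZMod.natCast_eq_zero_iff_even.2 (even_two_mul m)
  rw [h4, zero_mul, zero_add]
  exact CharTwo.add_self_eq_zero _

end

section

variable [Finite F] {π : F[X]} (hπ : Irreducible π)

include hπ in
lemma mk_ne_zero {f : F[X]} (hf : ¬ π ∣ f) : Ideal.Quotient.mk (Ideal.span {π}) f ≠ 0 := by
  rw [Ne, Ideal.Quotient.eq_zero_iff_mem, Ideal.mem_span_singleton]
  exact hf

include hπ in
lemma finite_quot : Finite (F[X] ⧸ Ideal.span {π}) := by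
  have h1 : Module.Finite F (AdjoinRoot π) := (AdjoinRoot.powerBasis hπ.ne_zero).finite
  have h2 : Finite (AdjoinRoot π) := Module.finite_of_finite F
  exact h2

include hπ in
lemma ringChar_quot (h2 : ringChar F ≠ 2) : ringChar (F[X] ⧸ Ideal.span {π}) ≠ 2 := by
  have hmax : (Ideal.span {π}).IsMaximal := PrincipalIdealRing.isMaximal_of_irreducible hπ
  let hf := Ideal.Quotient.field (Ideal.span {π})
  have h1 : CharP (F[X] ⧸ Ideal.span {π}) (ringChar F) :=
    charP_of_injective_algebraMap (algebraMap F (F[X] ⧸ Ideal.span {π})).injective _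
  rw [ringChar.eq (F[X] ⧸ Ideal.span {π}) (ringChar F)]
  exact h2

include hπ in
lemma lg_mul (h2 : ringChar F ≠ 2) {f g : F[X]} (hf : ¬ π ∣ f) (hg : ¬ π ∣ g) :
    lg π (f * g) = lg π f + lg π g := by
  have hmax : (Ideal.span {π}).IsMaximal := PrincipalIdealRing.isMaximal_of_irreducible hπ
  letI hfd := Ideal.Quotient.field (Ideal.span {π})
  have := finite_quot hπ
  rw [lg, map_mul]
  exact ql_mul (ringChar_quot hπ h2) (mk_ne_zero hπ hf) (mk_ne_zero hπ hg)

include hπ in
lemma lg_prod (h2 : ringChar F ≠ 2) {α : Type} (s : Finset α) (f : α → F[X])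
    (h : ∀ i ∈ s, ¬ π ∣ f i) : lg π (∏ i ∈ s, f i) = ∑ i ∈ s, lg π (f i) := by
  have hmax : (Ideal.span {π}).IsMaximal := PrincipalIdealRing.isMaximal_of_irreducible hπ
  letI hfd := Ideal.Quotient.field (Ideal.span {π})
  have := finite_quot hπ
  rw [lg, map_prod]
  exact ql_prod (ringChar_quot hπ h2) s _ fun i hi => mk_ne_zero hπ (h i hi)

include hπ in
lemma lg_pow (h2 : ringChar F ≠ 2) {f : F[X]} (hf : ¬ π ∣ f) (n : ℕ) :
    lg π (f ^ n) = n * lg π f := by
  have hmax : (Ideal.span {π}).IsMaximal := PrincipalIdealRing.isMaximal_of_irreducible hπ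
  letI hfd := Ideal.Quotient.field (Ideal.span {π})
  have := finite_quot hπ
  rw [lg, map_pow]
  exact ql_pow (ringChar_quot hπ h2) (mk_ne_zero hπ hf) n

lemma lg_C (h2 : ringChar F ≠ 2) {u c : F} (hu : ¬ IsSquare u) (hc : c ≠ 0) :
    lg π (C c) = ql c * lg π (C u) :=
  ql_map h2 ((Ideal.Quotient.mk (Ideal.span {π})).comp C) hu hc

include hπ in
lemma not_dvd_C {c : F} (hc : c ≠ 0) : ¬ π ∣ C c := fun hd =>
  hπ.not_isUnit (isUnit_of_dvd_unit hd (isUnit_C.2 (isUnit_iff_ne_zero.2 hc)))

include hπ in
lemma not_dvd_prod {α : Type} (s : Finset α) (f : α → F[X]) (h : ∀ i ∈ s, ¬ π ∣ f i) :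
    ¬ π ∣ ∏ i ∈ s, f i := by
  rw [hπ.prime.dvd_finsetProd_iff]
  rintro ⟨i, hi, hd⟩
  exact h i hi hd

end

end Pool.Agent.Helper8.PT
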