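import Pool.Agent.Helper8.PT.CharSum
import Pool.Agent.Helper8.PT.Leg

/-!
# Quadratic characters modulo products of primes
-/

set_option autoImplicit false

namespace Pool.Agent.Helper8.PT

open Polynomial Classical Filter Topology

variable {F : Type} [Field F]

section SS

variable [Fintype F]

/-- Sums of a character over all monic polynomials of large degree vanish. -/
lemma SS_eq_zero (ψ : F[X] → ℝ) (hψ : ∀ f g, ψ (f * g) = ψ f * ψ g) {M : F[X]} (hM : M.Monic)
    (hmod : ∀ f g, M ∣ f - g → ψ f = ψ g) {c c' : F[X]} (hc : ψ c = -1) (hcc : M ∣ c' * c - 1)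
    {m : ℕ} (hm : M.natDegree ≤ m) : SS ψ m = 0 := by
  let T : F[X] → F[X] := fun f => (c * f) %ₘ M + M * (f /ₘ M)
  have hTM : ∀ f, T f /ₘ M = f /ₘ M ∧ T f %ₘ M = (c * f) %ₘ M := fun f =>
    div_modByMonic_unique _ _ hM ⟨rfl, degree_modByMonic_lt _ hM⟩
  have hTmem : ∀ f ∈ monics F m, T f ∈ monics F m := by
    intro f hf
    obtain ⟨hfm, hfd⟩ := mem_monics.1 hf
    have h1 : T f = f + ((c * f) %ₘ M - f %ₘ M) := by
      have := modByMonic_add_div f M
      simp only [T]
      linear_combination this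
    have h2 : ((c * f) %ₘ M - f %ₘ M).degree < f.degree := by
      refine (degree_sub_le _ _).trans_lt ?_
      have h3 : M.degree ≤ f.degree := by
        rw [degree_eq_natDegree hM.ne_zero, degree_eq_natDegree hfm.ne_zero, hfd]
        exact_mod_cast hm
      exact max_lt ((degree_modByMonic_lt _ hM).trans_le h3)
        ((degree_modByMonic_lt _ hM).trans_le h3)
    rw [mem_monics, h1]
    refine ⟨hfm.add_of_left h2, ?_⟩
    rw [natDegree_add_eq_left_of_degree_lt h2, hfd]
  have hinj : Set.InjOn T (monics F m : Set F[X]) := by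
    intro f _ g _ hfg
    have h1 : f /ₘ M = g /ₘ M := by rw [← (hTM f).1, ← (hTM g).1, hfg]
    have h2 : (c * f) %ₘ M = (c * g) %ₘ M := by rw [← (hTM f).2, ← (hTM g).2, hfg]
    have h3 : M ∣ c * f - c * g := by
      rw [← modByMonic_eq_zero_iff_dvd hM, sub_modByMonic, h2, sub_self]
    have h4 : M ∣ f - g := by
      have h5 : f - g = c' * (c * f - c * g) - (c' * c - 1) * (f - g) := by ring
      rw [h5]
      exact dvd_sub (h3.mul_left c') (hcc.mul_right _)
    have h6 : f %ₘ M = g %ₘ M := by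
      rw [← sub_eq_zero, ← sub_modByMonic, modByMonic_eq_zero_iff_dvd hM]
      exact h4
    rw [← modByMonic_add_div f M, ← modByMonic_add_div g M, h1, h6]
  have himg : (monics F m).image T = monics F m := by
    refine Finset.eq_of_subset_of_card_le (Finset.image_subset_iff.2 hTmem) ?_
    rw [Finset.card_image_of_injOn hinj]
  have hsum : SS ψ m = -SS ψ m := by
    have h7 : SS ψ m = ∑ f ∈ monics F m, ψ (T f) := by
      conv_lhs => rw [SS, ← himg]
      rw [Finset.sum_image hinj]
    have h8 : ∀ f, ψ (T f) = -ψ f := by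
      intro f
      rw [hmod (T f) (c * f), hψ, hc, neg_one_mul]
      have := modByMonic_add_div (c * f) M
      refine ⟨f /ₘ M - (c * f) /ₘ M, ?_⟩
      simp only [T]
      linear_combination this
    have h9 : ∑ f ∈ monics F m, ψ (T f) = -SS ψ m := by
      rw [Finset.sum_congr rfl fun f _ => h8 f, Finset.sum_neg_distrib]
      rfl
    exact h7.trans h9
  linarith

end SS

section Chi

/-- The Legendre symbol. -/
noncomputable def chi (π f : F[X]) : ℝ := if π ∣ f then 0 else if lg π f = 0 then 1 else -1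

lemma chi_val (π f : F[X]) : chi π f = 0 ∨ chi π f = 1 ∨ chi π f = -1 := by
  unfold chi
  split_ifs <;> simp

lemma chi_eq_zero {π f : F[X]} : chi π f = 0 ↔ π ∣ f := by
  unfold chi
  split_ifs <;> simp_all

variable [Finite F]

lemma chi_mul (h2 : ringChar F ≠ 2) {π : F[X]} (hπ : Irreducible π) (f g : F[X]) :
    chi π (f * g) = chi π f * chi π g := by
  unfold chi
  by_cases hf : π ∣ f
  · rw [if_pos (hf.mul_right g), if_pos hf, zero_mul]
  by_cases hg : π ∣ g
  · rw [if_pos (hg.mul_left f), if_pos hg, mul_zero]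
  have hfg : ¬ π ∣ f * g := fun h => (hπ.prime.dvd_or_dvd h).elim hf hg
  rw [if_neg hfg, if_neg hf, if_neg hg, lg_mul hπ h2 hf hg]
  rcases zmod2_cases (lg π f) with h | h <;> rcases zmod2_cases (lg π g) with h' | h' <;>
    rw [h, h']
  · simp
  · simp
  · simp
  · have : (1 : ZMod 2) + 1 = 0 := by decide
    rw [this]
    simp

omit [Finite F] in
lemma chi_one {π : F[X]} (hπ : Irreducible π) : chi π 1 = 1 := by
  unfold chi
  rw [if_neg (fun h => hπ.not_isUnit (isUnit_of_dvd_one h)), if_pos]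
  rw [lg, map_one]
  exact ql_one

omit [Finite F] in
lemma chi_congr {π f g : F[X]} (h : π ∣ f - g) : chi π f = chi π g := by
  have h1 : Ideal.Quotient.mk (Ideal.span {π}) f = Ideal.Quotient.mk (Ideal.span {π}) g := by
    rw [Ideal.Quotient.eq, Ideal.mem_span_singleton]
    exact h
  have h2 : π ∣ f ↔ π ∣ g := by
    constructor
    · intro h3
      have := dvd_sub h3 h
      rwa [sub_sub_cancel] at this
    · intro h3
      have := dvd_add h3 h
      rwa [add_sub_cancel] at this
  unfold chi lg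
  rw [h1]
  simp only [h2]

/-- The product of the Legendre symbols of a set of primes. -/
noncomputable def chiK (K : Finset F[X]) (f : F[X]) : ℝ := ∏ π ∈ K, chi π f

omit [Finite F] in
lemma chiK_val (K : Finset F[X]) (f : F[X]) : chiK K f = 0 ∨ chiK K f = 1 ∨ chiK K f = -1 := by
  induction K using Finset.induction_on with
  | empty => simp [chiK]
  | insert π K hπ ih =>
    have h1 : chiK (insert π K) f = chi π f * chiK K f := by rw [chiK, Finset.prod_insert hπ]; rfl
    rw [h1]
    rcases chi_val π f with h | h | h <;> rcases ih with h' | h' | h' <;> simp [h, h']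

lemma chiK_mul (h2 : ringChar F ≠ 2) {K : Finset F[X]} (hK : ∀ π ∈ K, Irreducible π) (f g : F[X]) :
    chiK K (f * g) = chiK K f * chiK K g := by
  rw [chiK, chiK, chiK, ← Finset.prod_mul_distrib]
  exact Finset.prod_congr rfl fun π hπ => chi_mul h2 (hK π hπ) f g

omit [Finite F] in
lemma chiK_one {K : Finset F[X]} (hK : ∀ π ∈ K, Irreducible π) : chiK K 1 = 1 :=
  Finset.prod_eq_one fun π hπ => chi_one (hK π hπ)

/-- There is a polynomial at which the character takes the value `-1`. -/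
lemma exists_chiK_neg (h2 : ringChar F ≠ 2) {K : Finset F[X]}
    (hK : ∀ π ∈ K, π.Monic ∧ Irreducible π) (hne : K.Nonempty) :
    ∃ c c' : F[X], chiK K c = -1 ∧ (∏ π ∈ K, π) ∣ c' * c - 1 := by
  obtain ⟨π0, hπ0⟩ := hne
  obtain ⟨hm0, hi0⟩ := hK π0 hπ0
  have hmax : (Ideal.span {π0}).IsMaximal := PrincipalIdealRing.isMaximal_of_irreducible hi0
  have hfin := finite_quot hi0
  have hns : ∃ n0 : F[X], ¬ IsSquare (Ideal.Quotient.mk (Ideal.span {π0}) n0) := by
    letI := Ideal.Quotient.field (Ideal.span {π0})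
    obtain ⟨a, ha⟩ := FiniteField.exists_nonsquare (ringChar_quot hi0 h2)
    obtain ⟨n0, rfl⟩ := Ideal.Quotient.mk_surjective a
    exact ⟨n0, ha⟩
  obtain ⟨n0, hn0⟩ := hns
  set M' := ∏ π ∈ K.erase π0, π with hM'
  have hcopr : IsCoprime π0 M' := by
    refine IsCoprime.prod_right fun π hπ => ?_
    obtain ⟨hne', hπK⟩ := Finset.mem_erase.1 hπ
    obtain ⟨hm, hi⟩ := hK π hπK
    rw [hi0.coprime_iff_not_dvd]
    intro hd
    exact hne' (eq_of_monic_of_associated hm hm0 (hi0.associated_of_dvd hi hd).symm)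
  obtain ⟨a, b, hab⟩ := hcopr
  set c := n0 * (b * M') + a * π0 with hc
  have hc0 : π0 ∣ c - n0 := by
    refine ⟨a - n0 * a, ?_⟩
    rw [hc]
    linear_combination n0 * hab
  have hc1 : M' ∣ c - 1 := by
    refine ⟨n0 * b - b, ?_⟩
    rw [hc]
    linear_combination hab
  have hval0 : chi π0 c = -1 := by
    rw [chi_congr hc0, chi, if_neg, if_neg]
    · rw [lg_eq_zero]
      exact hn0
    · intro hd
      apply hn0
      have : Ideal.Quotient.mk (Ideal.span {π0}) n0 = 0 := by
        rw [Ideal.Quotient.eq_zero_iff_mem, Ideal.mem_span_singleton]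
        exact hd
      rw [this]
      exact IsSquare.zero
  have hval1 : ∀ π ∈ K.erase π0, chi π c = 1 := by
    intro π hπ
    have hd : π ∣ c - 1 := (Finset.dvd_prod_of_mem (fun π => π) hπ).trans hc1
    rw [chi_congr hd, chi_one (hK π (Finset.mem_of_mem_erase hπ)).2]
  have hcK : chiK K c = -1 := by
    rw [chiK, ← Finset.mul_prod_erase K _ hπ0, hval0, Finset.prod_eq_one hval1, mul_one]
  have hcM : IsCoprime c (∏ π ∈ K, π) := by
    refine IsCoprime.prod_right fun π hπ => ?_
    refine IsCoprime.symm ?_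
    rw [(hK π hπ).2.coprime_iff_not_dvd]
    intro hd
    have h0 : chiK K c = 0 := Finset.prod_eq_zero hπ (chi_eq_zero.2 hd)
    rw [h0] at hcK
    norm_num at hcK
  obtain ⟨a', b', hab'⟩ := hcM
  exact ⟨c, a', hcK, -b', by linear_combination hab'⟩

end Chi

section Count

variable [Fintype F]

/-- Sums of the characters over primes. -/
lemma chiK_tendsto (h2 : ringChar F ≠ 2) {K : Finset F[X]}
    (hK : ∀ π ∈ K, π.Monic ∧ Irreducible π) (hne : K.Nonempty) :
    Tendsto (fun j : ℕ => (j : ℝ) * (∑ P ∈ primes F j, chiK K P) / (Fintype.card F : ℝ) ^ j)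
      atTop (𝓝 0) := by
  obtain ⟨c, c', hc, hcc⟩ := exists_chiK_neg h2 hK hne
  have hmon : (∏ π ∈ K, π).Monic := monic_prod_of_monic _ _ fun π hπ => (hK π hπ).1
  refine prime_sum_tendsto (chiK K) (chiK_mul h2 fun π hπ => (hK π hπ).2)
    (chiK_one fun π hπ => (hK π hπ).2) (chiK_val K) (∏ π ∈ K, π).natDegree (fun m hm => ?_) K
    (fun P hPm hP h0 => ?_)
  · refine SS_eq_zero (chiK K) (chiK_mul h2 fun π hπ => (hK π hπ).2) hmon (fun f g hfg => ?_) hc hcc
      hm
    exact Finset.prod_congr rfl fun π hπ =>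
      chi_congr ((Finset.dvd_prod_of_mem (fun π => π) hπ).trans hfg)
  · obtain ⟨π, hπ, h1⟩ := Finset.prod_eq_zero_iff.1 h0
    rw [chi_eq_zero] at h1
    have h3 := eq_of_monic_of_associated (hK π hπ).1 hPm ((hK π hπ).2.associated_of_dvd hP h1)
    rw [← h3]
    exact hπ

/-- The density of the primes with prescribed quadratic symbols. -/
theorem pattern_density (h2 : ringChar F ≠ 2) {B : Finset F[X]}
    (hB : ∀ π ∈ B, π.Monic ∧ Irreducible π) (s : F[X] → ZMod 2) :
    Tendsto (fun j : ℕ => (j : ℝ) *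
      (((primes F j).filter fun P => ∀ π ∈ B, lg π P = s π).card : ℝ) / (Fintype.card F : ℝ) ^ j)
      atTop (𝓝 ((2 : ℝ)⁻¹ ^ B.card)) := by
  set q : ℝ := (Fintype.card F : ℝ) with hq
  let σ : F[X] → ℝ := fun π => if s π = 0 then 1 else -1
  -- the indicator function
  have hind : ∀ P : F[X], (∀ π ∈ B, ¬ π ∣ P) →
      (if ∀ π ∈ B, lg π P = s π then (1 : ℝ) else 0) =
        (2 : ℝ)⁻¹ ^ B.card * ∑ K ∈ B.powerset, (∏ π ∈ K, σ π) * chiK K P := by
    intro P hP
    have h1 : ∀ K ∈ B.powerset, (∏ π ∈ K, σ π) * chiK K P = ∏ π ∈ K, (σ π * chi π P) := by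
      intro K _
      rw [chiK, Finset.prod_mul_distrib]
    rw [Finset.sum_congr rfl h1, ← Finset.prod_one_add, ← Finset.prod_const,
      ← Finset.prod_mul_distrib]
    have h3 : ∀ π ∈ B, (2 : ℝ)⁻¹ * (1 + σ π * chi π P) = if lg π P = s π then 1 else 0 := by
      intro π hπ
      simp only [σ, chi, if_neg (hP π hπ)]
      rcases zmod2_cases (lg π P) with h | h <;> rcases zmod2_cases (s π) with h' | h' <;>
        rw [h, h'] <;> norm_num
    rw [Finset.prod_congr rfl h3, Finset.prod_ite_zero]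
    simp
  -- large degree
  obtain ⟨D, hD⟩ : ∃ D : ℕ, ∀ π ∈ B, π.natDegree < D :=
    ⟨B.sup natDegree + 1, fun π hπ => Nat.lt_succ_of_le (Finset.le_sup hπ)⟩
  have hcount : ∀ j, D ≤ j →
      (((primes F j).filter fun P => ∀ π ∈ B, lg π P = s π).card : ℝ) =
      (2 : ℝ)⁻¹ ^ B.card * ∑ K ∈ B.powerset, (∏ π ∈ K, σ π) * ∑ P ∈ primes F j, chiK K P := by
    intro j hj
    have h4 : ∀ P ∈ primes F j, ∀ π ∈ B, ¬ π ∣ P := by
      intro P hP π hπ hd
      obtain ⟨hPm, hPi, hPd⟩ := mem_primes.1 hP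
      have h5 := eq_of_monic_of_associated (hB π hπ).1 hPm
        ((hB π hπ).2.associated_of_dvd hPi hd)
      have h6 := hD π hπ
      rw [h5, hPd] at h6
      omega
    rw [Finset.card_filter]
    push_cast
    rw [Finset.sum_congr rfl fun P hP => hind P (h4 P hP), ← Finset.mul_sum, Finset.sum_comm]
    congr 1
    exact Finset.sum_congr rfl fun K _ => (Finset.mul_sum _ _ _).symm
  -- limit
  have hlim : Tendsto (fun j : ℕ => (2 : ℝ)⁻¹ ^ B.card * ∑ K ∈ B.powerset, (∏ π ∈ K, σ π) *
      ((j : ℝ) * (∑ P ∈ primes F j, chiK K P) / q ^ j)) atTop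
      (𝓝 ((2 : ℝ)⁻¹ ^ B.card * ∑ K ∈ B.powerset, (∏ π ∈ K, σ π) *
        (if K = ∅ then 1 else 0))) := by
    refine (tendsto_finsetSum _ fun K hK => ?_).const_mul _
    refine Tendsto.const_mul _ ?_
    by_cases h : K = ∅
    · subst h
      rw [if_pos rfl]
      refine (card_primes_tendsto (F := F)).congr fun j => ?_
      simp [chiK, hq]
    · rw [if_neg h]
      exact chiK_tendsto h2 (fun π hπ => hB π (Finset.mem_powerset.1 hK hπ))
        (Finset.nonempty_iff_ne_empty.2 h)
  have hval : (2 : ℝ)⁻¹ ^ B.card * ∑ K ∈ B.powerset, (∏ π ∈ K, σ π) *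
      (if K = ∅ then (1 : ℝ) else 0) = (2 : ℝ)⁻¹ ^ B.card := by
    rw [Finset.sum_eq_single ∅]
    · simp
    · intro K _ hK
      simp [hK]
    · intro h
      exact absurd (Finset.empty_mem_powerset B) h
  rw [hval] at hlim
  refine hlim.congr' ?_
  filter_upwards [eventually_ge_atTop D] with j hj
  have h10 : ∑ K ∈ B.powerset, (∏ π ∈ K, σ π) * ((j : ℝ) * (∑ P ∈ primes F j, chiK K P) / q ^ j) =
      (j : ℝ) / q ^ j * ∑ K ∈ B.powerset, (∏ π ∈ K, σ π) * ∑ P ∈ primes F j, chiK K P := by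
    rw [Finset.mul_sum]
    refine Finset.sum_congr rfl fun K _ => ?_
    ring
  rw [hcount j hj, h10]
  ring

end Count

end Pool.Agent.Helper8.PT
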