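import Mathlib

/-!
# Linear algebra over the field with two elements and quadratic classes
-/

set_option autoImplicit false

namespace Pool.Agent.Helper8.PT

open Classical

lemma zmod2_cases (x : ZMod 2) : x = 0 ∨ x = 1 := by
  revert x
  decide

/-- Any matrix over the field with two elements becomes injective after adding a suitable diagonal
matrix. -/
theorem exists_diag {κ : Type} (N : κ → κ → ZMod 2) (S : Finset κ) :
    ∃ s : κ → ZMod 2, ∀ v : κ → ZMod 2, (∀ k, k ∉ S → v k = 0) →
      (∀ k ∈ S, ∑ l ∈ S, N k l * v l + s k * v k = 0) → ∀ k, v k = 0 := by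
  induction S using Finset.induction_on with
  | empty => exact ⟨0, fun v hv _ k => hv k (by simp)⟩
  | insert a S ha ih =>
    obtain ⟨s, hs⟩ := ih
    by_cases hex : ∃ v0 : κ → ZMod 2, (∀ k, k ∉ insert a S → v0 k = 0) ∧ v0 a = 1 ∧
        ∀ k ∈ S, ∑ l ∈ insert a S, N k l * v0 l + s k * v0 k = 0
    · obtain ⟨v0, hv0, hv0a, hv0S⟩ := hex
      refine ⟨Function.update s a (1 + ∑ l ∈ insert a S, N a l * v0 l), fun v hv hrow => ?_⟩
      have hS : ∀ k ∈ S, ∑ l ∈ insert a S, N k l * v l + s k * v k = 0 := by
        intro k hk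
        have h1 := hrow k (Finset.mem_insert_of_mem hk)
        rwa [Function.update_of_ne (fun h : k = a => ha (h ▸ hk))] at h1
      rcases zmod2_cases (v a) with h0 | h1
      · refine hs v (fun k hk => ?_) fun k hk => ?_
        · by_cases hka : k = a
          · rw [hka, h0]
          · exact hv k (by simp [hka, hk])
        · have h2 := hS k hk
          rwa [Finset.sum_insert ha, h0, mul_zero, zero_add] at h2
      · have hw : ∀ k, (v + v0) k = 0 := by
          refine hs (v + v0) (fun k hk => ?_) fun k hk => ?_
          · by_cases hka : k = a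
            · rw [hka, Pi.add_apply, h1, hv0a]
              decide
            · rw [Pi.add_apply, hv k (by simp [hka, hk]), hv0 k (by simp [hka, hk]), add_zero]
          · have h2 := hS k hk
            have h3 := hv0S k hk
            rw [Finset.sum_insert ha, h1] at h2
            rw [Finset.sum_insert ha, hv0a] at h3
            simp only [Pi.add_apply, mul_add, Finset.sum_add_distrib]
            have h4 : (N k a * 1 + ∑ l ∈ S, N k l * v l + s k * v k) +
                (N k a * 1 + ∑ l ∈ S, N k l * v0 l + s k * v0 k) = 0 := by rw [h2, h3, add_zero]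
            have h5 : N k a * 1 + N k a * 1 = 0 := CharTwo.add_self_eq_zero _
            linear_combination h4 - h5
        have hv' : ∀ k, v k = v0 k := fun k => by
          have := hw k
          rw [Pi.add_apply] at this
          exact CharTwo.add_eq_zero.1 this
        exfalso
        have h2 := hrow a (Finset.mem_insert_self a S)
        rw [Function.update_self, h1, mul_one, Finset.sum_congr rfl fun l _ => by rw [hv' l]] at h2
        have h6 : (∑ l ∈ insert a S, N a l * v0 l) + ∑ l ∈ insert a S, N a l * v0 l = 0 :=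
          CharTwo.add_self_eq_zero _
        have h7 : (1 : ZMod 2) = 0 := by linear_combination h2 - h6
        exact absurd h7 (by decide)
    · refine ⟨s, fun v hv hrow => ?_⟩
      have h0 : v a = 0 := by
        rcases zmod2_cases (v a) with h | h
        · exact h
        · exact absurd ⟨v, hv, h, fun k hk => hrow k (Finset.mem_insert_of_mem hk)⟩ hex
      refine hs v (fun k hk => ?_) fun k hk => ?_
      · by_cases hka : k = a
        · rw [hka, h0]
        · exact hv k (by simp [hka, hk])
      · have h2 := hrow k (Finset.mem_insert_of_mem hk)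
        rwa [Finset.sum_insert ha, h0, mul_zero, zero_add] at h2

/-- The quadratic class of an element. -/
noncomputable def ql {R : Type} [CommRing R] (a : R) : ZMod 2 := if IsSquare a then 0 else 1

lemma ql_eq_zero {R : Type} [CommRing R] {a : R} : ql a = 0 ↔ IsSquare a := by
  rw [ql]
  split_ifs with h
  · simp [h]
  · simp [h]

lemma ql_one {R : Type} [CommRing R] : ql (1 : R) = 0 := ql_eq_zero.2 IsSquare.one

section

variable {κ : Type} [Field κ] [Finite κ]

lemma ql_mul (h2 : ringChar κ ≠ 2) {a b : κ} (ha : a ≠ 0) (hb : b ≠ 0) :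
    ql (a * b) = ql a + ql b := by
  have := Fintype.ofFinite κ
  have hsq : ∀ x : κ, x ≠ 0 → (IsSquare x ↔ quadraticChar κ x = 1) := fun x hx =>
    (quadraticChar_one_iff_isSquare hx).symm
  have hd : ∀ x : κ, x ≠ 0 → quadraticChar κ x = 1 ∨ quadraticChar κ x = -1 := fun x hx =>
    quadraticChar_dichotomy hx
  have hab := mul_ne_zero ha hb
  have hm : quadraticChar κ (a * b) = quadraticChar κ a * quadraticChar κ b := map_mul _ _ _
  unfold ql
  rw [hsq a ha, hsq b hb, hsq _ hab, hm]
  rcases hd a ha with h | h <;> rcases hd b hb with h' | h' <;> simp [h, h']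
  decide

lemma ql_prod (h2 : ringChar κ ≠ 2) {α : Type} (s : Finset α) (f : α → κ)
    (h : ∀ i ∈ s, f i ≠ 0) : ql (∏ i ∈ s, f i) = ∑ i ∈ s, ql (f i) := by
  induction s using Finset.induction_on with
  | empty => simp [ql_one]
  | insert a s ha ih =>
    rw [Finset.prod_insert ha, Finset.sum_insert ha, ql_mul h2 (h a (Finset.mem_insert_self a s))
      (Finset.prod_ne_zero_iff.2 fun i hi => h i (Finset.mem_insert_of_mem hi)),
      ih fun i hi => h i (Finset.mem_insert_of_mem hi)]

lemma ql_pow (h2 : ringChar κ ≠ 2) {a : κ} (ha : a ≠ 0) (n : ℕ) : ql (a ^ n) = n * ql a := by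
  induction n with
  | zero => simp [ql_one]
  | succ n ih =>
    rw [pow_succ, ql_mul h2 (pow_ne_zero n ha) ha, ih]
    push_cast
    ring

/-- Quadratic classes of the elements of a subfield. -/
lemma ql_map (h2 : ringChar κ ≠ 2) {R : Type} [CommRing R] (φ : κ →+* R) {u c : κ}
    (hu : ¬ IsSquare u) (hc : c ≠ 0) : ql (φ c) = ql c * ql (φ u) := by
  have hu0 : u ≠ 0 := fun h => hu (h ▸ IsSquare.zero)
  by_cases hcs : IsSquare c
  · rw [ql_eq_zero.2 hcs, zero_mul, ql_eq_zero]
    exact hcs.map φ
  · have hc1 : ql c = 1 := by rw [ql, if_neg hcs]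
    have hu1 : ql u = 1 := by rw [ql, if_neg hu]
    have h3 : IsSquare (c * u) := by
      rw [← ql_eq_zero, ql_mul h2 hc hu0, hc1, hu1]
      decide
    obtain ⟨s, hs⟩ := h3
    rw [hc1, one_mul]
    have h4 : IsSquare (φ c) ↔ IsSquare (φ u) := by
      constructor
      · rintro ⟨t, ht⟩
        refine ⟨φ (c⁻¹ * s) * t, ?_⟩
        have e1 : u = (c⁻¹ * s) * (c⁻¹ * s) * c := by
          field_simp
          linear_combination hs
        have e2 : φ u = φ (c⁻¹ * s) * φ (c⁻¹ * s) * φ c := by
          rw [← map_mul, ← map_mul, ← e1]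
        rw [e2, ht]
        ring
      · rintro ⟨t, ht⟩
        refine ⟨φ (u⁻¹ * s) * t, ?_⟩
        have e1 : c = (u⁻¹ * s) * (u⁻¹ * s) * u := by
          field_simp
          linear_combination hs
        have e2 : φ c = φ (u⁻¹ * s) * φ (u⁻¹ * s) * φ u := by
          rw [← map_mul, ← map_mul, ← e1]
        rw [e2, ht]
        ring
    unfold ql
    simp only [h4]

end

end Pool.Agent.Helper8.PT
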