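import Pool.Agent.Helper8.PT.PlaceInf
import Pool.Agent.Helper8.PT.Diag

/-!
# Square classes of rational functions
-/

set_option autoImplicit false

namespace Pool.Agent.Helper8.PT

open Polynomial Classical

variable {F : Type} [Field F]

lemma poly_repr (f : F[X]) (hf : f ≠ 0) : ∃ c : F, c ≠ 0 ∧ ∃ S : Finset F[X],
    (∀ Q ∈ S, Q.Monic ∧ Irreducible Q) ∧ ∃ g : F[X], g ≠ 0 ∧ f = C c * (∏ Q ∈ S, Q) * g ^ 2 := by
  induction f using UniqueFactorizationMonoid.induction_on_prime with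
  | h₁ => exact absurd rfl hf
  | h₂ x hx =>
    obtain ⟨c, hc, rfl⟩ := Polynomial.isUnit_iff.1 hx
    exact ⟨c, hc.ne_zero, ∅, by simp, 1, one_ne_zero, by simp⟩
  | h₃ b q hb hq ih =>
    obtain ⟨c, hc, S, hS, g, hg, hbg⟩ := ih hb
    have hl : q.leadingCoeff ≠ 0 := leadingCoeff_ne_zero.2 hq.ne_zero
    set q' := q * C q.leadingCoeff⁻¹ with hq'
    have hm : q'.Monic := monic_mul_leadingCoeff_inv hq.ne_zero
    have hirr : Irreducible q' := (irreducible_mul_leadingCoeff_inv).2 hq.irreducible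
    have hqq' : q = C q.leadingCoeff * q' := by
      rw [hq', mul_comm q, ← mul_assoc, ← C_mul, mul_inv_cancel₀ hl, C_1, one_mul]
    by_cases h : q' ∈ S
    · refine ⟨q.leadingCoeff * c, mul_ne_zero hl hc, S.erase q', fun Q hQ =>
        hS Q (Finset.mem_of_mem_erase hQ), g * q', mul_ne_zero hg hm.ne_zero, ?_⟩
      rw [hbg, ← Finset.mul_prod_erase S (fun Q => Q) h, C_mul]
      nth_rewrite 1 [hqq']
      ring
    · refine ⟨q.leadingCoeff * c, mul_ne_zero hl hc, insert q' S, fun Q hQ => ?_, g, hg, ?_⟩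
      · rcases Finset.mem_insert.1 hQ with rfl | hQ
        · exact ⟨hm, hirr⟩
        · exact hS Q hQ
      · rw [hbg, Finset.prod_insert h, C_mul]
        nth_rewrite 1 [hqq']
        ring

lemma ratFunc_repr (z : RatFunc F) (hz : z ≠ 0) : ∃ c : F, c ≠ 0 ∧ ∃ S : Finset F[X],
    (∀ Q ∈ S, Q.Monic ∧ Irreducible Q) ∧ ∃ x : RatFunc F, x ≠ 0 ∧
      z = algebraMap F[X] (RatFunc F) (C c * ∏ Q ∈ S, Q) * x ^ 2 := by
  have ha0 : z.num ≠ 0 := RatFunc.num_ne_zero hz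
  have hb0 : z.denom ≠ 0 := z.denom_ne_zero
  obtain ⟨c, hc, S, hS, g, hg, h⟩ := poly_repr (z.num * z.denom) (mul_ne_zero ha0 hb0)
  refine ⟨c, hc, S, hS, algebraMap F[X] (RatFunc F) g / algebraMap F[X] (RatFunc F) z.denom,
    div_ne_zero (coe_ne_zero hg) (coe_ne_zero hb0), ?_⟩
  have hb' := coe_ne_zero hb0
  have h1 := congrArg (algebraMap F[X] (RatFunc F)) h
  rw [map_mul, map_mul _ (C c * ∏ Q ∈ S, Q), map_pow] at h1
  nth_rewrite 1 [← RatFunc.num_div_denom z]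
  field_simp
  linear_combination h1

lemma par_coe_of_ne {Q R : F[X]} (hQ : Irreducible Q) (hQm : Q.Monic) (hR : Irreducible R)
    (hRm : R.Monic) (h : R ≠ Q) : par Q hQ (algebraMap F[X] (RatFunc F) R) = 0 :=
  par_of_not_dvd hQ fun hd => h
    (eq_of_monic_of_associated hRm hQm (hQ.associated_of_dvd hR hd).symm)

lemma par_repr {c : F} (hc : c ≠ 0) {S : Finset F[X]} (hS : ∀ Q ∈ S, Q.Monic ∧ Irreducible Q)
    {x : RatFunc F} (hx : x ≠ 0) {Q : F[X]} (hQ : Irreducible Q) (hQm : Q.Monic) :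
    par Q hQ (algebraMap F[X] (RatFunc F) (C c * ∏ R ∈ S, R) * x ^ 2) = if Q ∈ S then 1 else 0 := by
  have hC : (C c : F[X]) ≠ 0 := C_ne_zero.2 hc
  have hP : (∏ R ∈ S, R) ≠ 0 := Finset.prod_ne_zero_iff.2 fun R hR => (hS R hR).2.ne_zero
  rw [par_mul hQ (coe_ne_zero (mul_ne_zero hC hP)) (pow_ne_zero 2 hx), par_sq hQ hx, add_zero,
    map_mul, par_mul hQ (coe_ne_zero hC) (coe_ne_zero hP), map_prod,
    par_prod hQ _ _ fun R hR => coe_ne_zero (hS R hR).2.ne_zero]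
  have h1 : par Q hQ (algebraMap F[X] (RatFunc F) (C c)) = 0 := by
    refine par_of_not_dvd hQ fun hd => hQ.not_isUnit ?_
    exact isUnit_of_dvd_unit hd (isUnit_C.2 (isUnit_iff_ne_zero.2 hc))
  rw [h1, zero_add]
  by_cases h : Q ∈ S
  · rw [if_pos h, Finset.sum_eq_single Q]
    · exact par_self hQ
    · intro R hR hRQ
      exact par_coe_of_ne hQ hQm (hS R hR).2 (hS R hR).1 hRQ
    · intro h'
      exact absurd h h'
  · rw [if_neg h]
    refine Finset.sum_eq_zero fun R hR => ?_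
    exact par_coe_of_ne hQ hQm (hS R hR).2 (hS R hR).1 fun h' => h (h' ▸ hR)

end Pool.Agent.Helper8.PT
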