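import Pool.Agent.Helper8.PT.Node
import Pool.Agent.Helper8.PT.Repr

/-!
# Local conditions for the Selmer group of a twist
-/

set_option autoImplicit false

namespace Pool.Agent.Helper8.PT

open Module Pool.Agent.Helper47.BSD Polynomial Classical

section TcNode

universe u

variable {k : Type u} [NontriviallyNormedField k] [IsUltrametricDist k] [CompleteSpace k]
  {ι : Type} [Fintype ι]

/-- The torsion class as a tuple of units. -/
noncomputable def tcU {R : Type u} [Field R] (E : ι → R) (hE : ∀ i l, i ≠ l → E i ≠ E l) (a : ι) :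
    ι → Rˣ := fun i => Units.mk0 (tc E a i) (tc_ne_zero hE a i)

/-- Torsion classes satisfy the condition at a place where exactly two branch points collide. -/
lemma nodeCond_tc (h2 : ‖(2 : k)‖ = 1) {E : ι → k} {j j' : ι} (hj : j ≠ j')
    (h1 : ∀ i l, i ≠ l → ¬ (i = j ∧ l = j') → ¬ (i = j' ∧ l = j) → ‖E i - E l‖ = 1)
    (hδ : ‖E j - E j'‖ < 1) (a : ι) {d : ι → kˣ}
    (hd : ∀ i, (d i : k) = tc E a i) : NodeCond (kap E j j') (E j - E j') j j' d := by
  have hκ1 : ‖kap E j j'‖ = 1 := norm_kap hj h1
  have hnear : ∀ i, i ≠ j → i ≠ j' → ∃ z : k, z ≠ 0 ∧ E i - E j' = (E i - E j) * z ^ 2 := by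
    intro i hi hi'
    refine exists_sq_mul_base h2 ?_
    have e1 : E i - E j' - (E i - E j) = E j - E j' := by ring
    rw [e1, h1 i j hi (fun h => hi h.1) (fun h => hi' h.1)]
    exact hδ
  refine ⟨fun i hi hi' => ⟨1, one_ne_zero, ?_⟩, ?_⟩
  · rw [norm_one, one_pow, hd i]
    by_cases hia : i = a
    · rw [hia, tc_self, norm_prod]
      refine Finset.prod_eq_one fun l hl => ?_
      have hla : l ≠ a := Finset.ne_of_mem_erase hl
      exact h1 a l hla.symm (fun h => hi (hia.trans h.1)) (fun h => hi' (hia.trans h.1))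
    · rw [tc_ne E hia]
      exact h1 a i (Ne.symm hia) (fun h => hi' h.2) (fun h => hi h.2)
  · by_cases haj : a = j
    · subst haj
      have e1 : tc E a a = (E a - E j') * kap E a j' := by
        rw [tc_self, kap, others]
        exact (Finset.mul_prod_erase (Finset.univ.erase a) (fun l => E a - E l)
          (by simp [hj.symm])).symm
      refine ⟨1, ⟨(E a - E j') * kap E a j', ?_⟩, fun _ => ⟨1, one_ne_zero, ?_⟩⟩
      · rw [hd, hd, e1, tc_ne E hj.symm]
        ring
      · rw [hd, e1, norm_mul, hκ1]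
        simp
    · by_cases haj' : a = j'
      · subst haj'
        have e1 : tc E a a = (E a - E j) * ∏ l ∈ others j a, (E a - E l) := by
          rw [tc_self, others, Finset.erase_right_comm]
          exact (Finset.mul_prod_erase (Finset.univ.erase a) (fun l => E a - E l)
            (by simp [hj])).symm
        have hsq : ∃ z : k, ∏ l ∈ others j a, (E a - E l) = kap E j a * z ^ 2 := by
          have h3 : ∀ l ∈ others j a, ∃ z : k, E a - E l = (E j - E l) * z ^ 2 := by
            intro l hl
            rw [mem_others] at hl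
            obtain ⟨z, hz0, hz⟩ := hnear l hl.2 hl.1
            exact ⟨z, by linear_combination -hz⟩
          choose! z hz using h3
          refine ⟨∏ l ∈ others j a, z l, ?_⟩
          rw [kap, ← Finset.prod_pow, ← Finset.prod_mul_distrib]
          exact Finset.prod_congr rfl hz
        obtain ⟨z, hz⟩ := hsq
        refine ⟨1, ⟨(E a - E j) * kap E j a * z, ?_⟩, fun _ => ⟨1, one_ne_zero, ?_⟩⟩
        · rw [hd, hd, e1, tc_ne E hj, hz]
          ring
        · rw [hd, tc_ne E hj, norm_sub_rev]
          simp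
      · obtain ⟨z, hz0, hz⟩ := hnear a haj haj'
        refine ⟨0, ⟨(E a - E j) * z, ?_⟩, fun _ => ⟨1, one_ne_zero, ?_⟩⟩
        · rw [hd, hd, tc_ne E (Ne.symm haj), tc_ne E (Ne.symm haj'), hz]
          ring
        · rw [hd, tc_ne E (Ne.symm haj), h1 a j haj (fun h => haj h.1) (fun h => haj' h.1)]
          simp

end TcNode

variable {F : Type} [Field F] {ι : Type} [Fintype ι]

/-- The branch points of the twist by `P` as rational functions. -/
noncomputable def br (P : F[X]) (e : ι → F[X]) (i : ι) : RatFunc F :=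
  algebraMap F[X] (RatFunc F) (P * e i)

/-- The branch points in a completion. -/
noncomputable def brc (P : F[X]) (e : ι → F[X]) (v : AbsoluteValue (RatFunc F) ℝ) (i : ι) :
    v.Completion := algebraMap (RatFunc F) v.Completion (br P e i)

omit [Fintype ι] in
lemma br_sub (P : F[X]) (e : ι → F[X]) (i l : ι) :
    br P e i - br P e l = algebraMap F[X] (RatFunc F) (P * (e i - e l)) := by
  rw [br, br, ← map_sub, mul_sub]

omit [Fintype ι] in
lemma norm_brc_sub (P : F[X]) (e : ι → F[X]) (v : AbsoluteValue (RatFunc F) ℝ) (i l : ι) :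
    ‖brc P e v i - brc P e v l‖ = v (algebraMap F[X] (RatFunc F) (P * (e i - e l))) := by
  rw [brc, brc, ← map_sub, Helper47.BSD.norm_algebraMap, br_sub]

omit [Fintype ι] in
lemma br_ne {P : F[X]} (hP : P ≠ 0) {e : ι → F[X]} (hne : ∀ i j, i ≠ j → e i - e j ≠ 0) :
    ∀ i l, i ≠ l → br P e i ≠ br P e l := by
  intro i l hil h
  have h1 := br_sub P e i l
  rw [h, sub_self] at h1
  exact coe_ne_zero (mul_ne_zero hP (hne i l hil)) h1.symm

/-- The local conditions satisfied by the elements of the Selmer group of the twist by `P`. -/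
structure Good (P : F[X]) (e : ι → F[X]) (d : ι → (RatFunc F)ˣ) : Prop where
  good : ∀ (Q : F[X]) (hQ : Irreducible Q), ¬ Q ∣ P → (∀ i j, i ≠ j → ¬ Q ∣ e i - e j) →
    ∀ i, par Q hQ (d i : RatFunc F) = 0
  node : ∀ (π : F[X]) (hπ : Irreducible π), ¬ π ∣ P → ∀ j j', j ≠ j' → π ∣ e j - e j' →
    NodeCond (kap (brc P e (pabs π hπ)) j j')
      (brc P e (pabs π hπ) j - brc P e (pabs π hπ) j') j j'
      (mapUnits (algebraMap (RatFunc F) (pabs π hπ).Completion) d)
  inf : InfCond (brc P e (iabs F)) (mapUnits (algebraMap (RatFunc F) (iabs F).Completion) d)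

lemma Good.mul {P : F[X]} {e : ι → F[X]} {d d' : ι → (RatFunc F)ˣ} (h : Good P e d)
    (h' : Good P e d') : Good P e (d * d') where
  good Q hQ hQP hQe i := by
    rw [Pi.mul_apply, Units.val_mul, par_mul hQ (d i).ne_zero (d' i).ne_zero,
      h.good Q hQ hQP hQe i, h'.good Q hQ hQP hQe i, add_zero]
  node π hπ hπP j j' hj hd := by
    rw [mapUnits_mul]
    exact (h.node π hπ hπP j j' hj hd).mul (h'.node π hπ hπP j j' hj hd)
  inf := by
    rw [mapUnits_mul]
    exact h.inf.mul h'.inf

lemma good_sq (P : F[X]) (e : ι → F[X]) (c : ι → (RatFunc F)ˣ) : Good P e (c ^ 2) where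
  good Q hQ _ _ i := by
    rw [Pi.pow_apply, Units.val_pow_eq_pow_val]
    exact par_sq hQ (c i).ne_zero
  node π hπ hπP j j' hj hd := by
    rw [mapUnits_pow]
    exact NodeCond.sq _ _ _ _ _
  inf := by
    rw [mapUnits_pow]
    exact InfCond.sq _ _

lemma good_one (P : F[X]) (e : ι → F[X]) : Good P e 1 := by
  have := good_sq P e 1
  rwa [one_pow] at this

lemma good_prod {P : F[X]} {e : ι → F[X]} {α : Type} (s : Finset α) (f : α → ι → (RatFunc F)ˣ)
    (h : ∀ a, Good P e (f a)) : Good P e (∏ a ∈ s, f a) := by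
  induction s using Finset.induction_on with
  | empty => exact good_one P e
  | insert a s ha ih =>
    rw [Finset.prod_insert ha]
    exact (h a).mul ih

/-- The hypothesis that all differences of branch points have the same degree `n`, except possibly
for one difference `e a - e b`, of degree at most `n`. -/
def EqualDegrees (e : ι → F[X]) (n : ℕ) (a b : ι) : Prop :=
  a ≠ b ∧ e a ≠ e b ∧ (e a - e b).degree ≤ n ∧
    ∀ i j, i ≠ j → s(i, j) ≠ s(a, b) → (e i - e j).degree = n

omit [Fintype ι] in
lemma EqualDegrees.ne {e : ι → F[X]} {n : ℕ} {a b : ι} (h : EqualDegrees e n a b) :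
    ∀ i j, i ≠ j → e i - e j ≠ 0 := by
  intro i j hij h0
  by_cases hs : s(i, j) = s(a, b)
  · rw [Sym2.eq_iff] at hs
    rcases hs with ⟨rfl, rfl⟩ | ⟨rfl, rfl⟩
    · exact h.2.1 (sub_eq_zero.1 h0)
    · exact h.2.1 (sub_eq_zero.1 h0).symm
  · have := h.2.2.2 i j hij hs
    rw [h0, degree_zero] at this
    exact absurd this (by simp)

/-- The hypothesis that the differences are pairwise coprime. -/
def PairCoprime (e : ι → F[X]) : Prop :=
  ∀ i j k l, i ≠ j → k ≠ l → s(i, j) ≠ s(k, l) → IsCoprime (e i - e j) (e k - e l)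

omit [Fintype ι] in
lemma PairCoprime.not_dvd {e : ι → F[X]} (h : PairCoprime e) {π : F[X]} (hπ : Irreducible π)
    {j j' : ι} (hj : j ≠ j') (hd : π ∣ e j - e j') {i l : ι} (hil : i ≠ l)
    (h1 : ¬ (i = j ∧ l = j')) (h2 : ¬ (i = j' ∧ l = j)) : ¬ π ∣ e i - e l := by
  intro hd'
  have h3 : s(j, j') ≠ s(i, l) := by
    intro h4
    rw [Sym2.eq_iff] at h4
    rcases h4 with ⟨h5, h6⟩ | ⟨h5, h6⟩
    · exact h1 ⟨h5.symm, h6.symm⟩
    · exact h2 ⟨h6.symm, h5.symm⟩
  exact hπ.not_isUnit ((h j j' i l hj hil h3).isUnit_of_dvd' hd hd')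

section

variable (p : ℕ) [CharP F p]

lemma two_norm (hp : p.Prime) (hp2 : p ≠ 2) {v : AbsoluteValue (RatFunc F) ℝ} [Finite F] :
    ‖(2 : v.Completion)‖ = 1 := by
  haveI : CharP (RatFunc F) p :=
    charP_of_injective_algebraMap (algebraMap F (RatFunc F)).injective p
  have h2 : (2 : F) ≠ 0 := by
    intro h
    have h3 : ((2 : ℕ) : F) = 0 := by exact_mod_cast h
    rw [CharP.cast_eq_zero_iff F p] at h3
    exact hp2 ((Nat.prime_dvd_prime_iff_eq hp Nat.prime_two).1 h3)
  have := Fintype.ofFinite F
  have h1 : (2 : F) ^ (Fintype.card F - 1) = 1 := FiniteField.pow_card_sub_one_eq_one 2 h2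
  have h4 : ‖(2 : v.Completion)‖ ^ (Fintype.card F - 1) = 1 := by
    have h5 : (2 : v.Completion) = (algebraMap (RatFunc F) v.Completion).comp
        (algebraMap F (RatFunc F)) 2 := by rw [map_ofNat]
    rw [← norm_pow, h5, ← map_pow, h1, map_one, norm_one]
  exact (pow_eq_one_iff_of_nonneg (norm_nonneg _) (by
    have := Fintype.one_lt_card (α := F)
    omega)).1 h4

variable [Finite F]

theorem good_selmer (hp : p.Prime) (hp2 : p ≠ 2) (hodd : Odd (Fintype.card ι)) {P : F[X]}
    (hP : P ≠ 0) {e : ι → F[X]} {n : ℕ} {a b : ι} (hdeg : EqualDegrees e n a b)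
    (hcop : PairCoprime e) (hpar : Odd (P.natDegree + n)) {d : ι → (RatFunc F)ˣ}
    (hd : d ∈ selmerSet 2 (fun _ => 1) (br P e)) : Good P e d := by
  have : CharP (RatFunc F) p :=
    charP_of_injective_algebraMap (algebraMap F (RatFunc F)).injective p
  have hne := hdeg.ne
  refine ⟨fun Q hQ hQP hQe i => ?_, fun π hπ hπP j j' hj hd' => ?_, ?_⟩
  · -- good places
    have hg : IsGood 2 (br P e) (pabs Q hQ) := by
      refine ⟨1, 0, one_ne_zero, fun i => ?_, fun i j hij => ?_⟩
      · rw [one_pow, one_mul, sub_zero, br]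
        exact pabs_coe_le hQ _
      · rw [one_pow, one_mul, br_sub, pabs_coe_eq_one_iff]
        exact fun h => (hQ.prime.dvd_or_dvd h).elim hQP (hQe i j hij)
    obtain ⟨x, hx0, hx⟩ := exists_root_of_good (K := RatFunc F) (K' := RatFunc F) (ℓ := 2)
      (a := fun _ => 1) Nat.prime_two (fun _ => by norm_num) (by
        simp only [Finset.sum_const, Finset.card_univ, smul_eq_mul, mul_one]
        exact hodd.not_two_dvd_nat) p hp (e := br P e) (pabs Q hQ) (pabs_isNontrivial hQ) hg hd i
      (pabs Q hQ) (fun _ => rfl)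
    exact par_eq_zero_of_abs hQ (d i).ne_zero hx0 hx
  · -- nodes
    have := ultra_completion (pabs π hπ) p hp
    letI := nontrivNormed (pabs π hπ) (pabs_isNontrivial hπ)
    have hδ0 : brc P e (pabs π hπ) j ≠ brc P e (pabs π hπ) j' := by
      intro h
      exact br_ne hP hne j j' hj ((algebraMap (RatFunc F) (pabs π hπ).Completion).injective h)
    exact node_cond (k := (pabs π hπ).Completion) (two_norm p hp hp2) hodd
      (E := brc P e (pabs π hπ)) hj
      (fun i l hil h1 h2 => by
        refine (norm_brc_sub P e _ i l).trans ?_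
        rw [pabs_coe_eq_one_iff]
        exact fun h => (hπ.prime.dvd_or_dvd h).elim hπP (hcop.not_dvd hπ hj hd' hil h1 h2))
      (by
        refine (norm_brc_sub P e _ j j').trans_lt ?_
        rw [pabs_coe_lt_one_iff]
        exact hd'.mul_left P)
      hδ0 (hd _ (pabs_isNontrivial hπ))
  · -- infinity
    have := ultra_completion (iabs F) p hp
    have : CharP (iabs F).Completion p :=
      charP_of_injective_algebraMap (algebraMap (RatFunc F) (iabs F).Completion).injective p
    letI := nontrivNormed (iabs F) iabs_isNontrivial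
    have hTn : ‖algebraMap (RatFunc F) (iabs F).Completion
        (algebraMap F[X] (RatFunc F) X)‖ = 2 := by
      rw [Helper47.BSD.norm_algebraMap, iabs_X]
    exact inf_cond (k := (iabs F).Completion) p hp (two_norm p hp hp2)
      ((algebraMap (RatFunc F) (iabs F).Completion).comp (algebraMap F (RatFunc F)))
      (iabs_residue p hp) (algebraMap (RatFunc F) (iabs F).Completion
        (algebraMap F[X] (RatFunc F) X)) (by
          exact hTn.symm ▸ one_lt_two) (iabs_values p hp) hodd
      (E := brc P e (iabs F)) (o := (P.natDegree + n : ℕ)) (by exact_mod_cast hpar) (j := a)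
      (j' := b) hdeg.1
      (fun i l hil h1 h2 => by
        refine (norm_brc_sub P e _ i l).trans ?_
        have h0 := hne i l hil
        have hs : s(i, l) ≠ s(a, b) := by
          rw [Ne, Sym2.eq_iff]
          tauto
        rw [iabs_coe (mul_ne_zero hP h0), natDegree_mul hP h0,
          natDegree_eq_of_degree_eq_some (hdeg.2.2.2 i l hil hs)]
        exact congrArg (fun t : ℝ => t ^ ((P.natDegree + n : ℕ) : ℤ)) hTn.symm)
      (by
        refine (norm_brc_sub P e _ a b).trans_le ?_
        have h0 := hne a b hdeg.1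
        rw [iabs_coe (mul_ne_zero hP h0), natDegree_mul hP h0]
        refine le_of_le_of_eq ?_ (congrArg (fun t : ℝ => t ^ ((P.natDegree + n : ℕ) : ℤ)) hTn.symm)
        refine two_zpow_le ?_
        have h3 := natDegree_le_of_degree_le hdeg.2.2.1
        push_cast
        omega)
      (fun h => br_ne hP hne a b hdeg.1
        ((algebraMap (RatFunc F) (iabs F).Completion).injective h))
      (hd _ iabs_isNontrivial)

/-- Torsion classes satisfy the local conditions. -/
theorem good_tc (hp : p.Prime) (hp2 : p ≠ 2) {P : F[X]}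
    (hP : P ≠ 0) {e : ι → F[X]} (hne : ∀ i j, i ≠ j → e i - e j ≠ 0)
    (hcop : PairCoprime e) (a : ι) : Good P e (tcU (br P e) (br_ne hP hne) a) := by
  have : CharP (RatFunc F) p :=
    charP_of_injective_algebraMap (algebraMap F (RatFunc F)).injective p
  refine ⟨fun Q hQ hQP hQe i => ?_, fun π hπ hπP j j' hj hd' => ?_, ?_⟩
  · change par Q hQ (tc (br P e) a i) = 0
    have hunit : ∀ i l, i ≠ l → par Q hQ (br P e i - br P e l) = 0 := by
      intro i l hil
      rw [br_sub]
      exact par_of_not_dvd hQ fun h => (hQ.prime.dvd_or_dvd h).elim hQP (hQe i l hil)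
    by_cases hia : i = a
    · rw [hia, tc_self, par_prod]
      · exact Finset.sum_eq_zero fun l hl => hunit a l (Finset.ne_of_mem_erase hl).symm
      · exact fun l hl => sub_ne_zero.2 (br_ne hP hne a l (Finset.ne_of_mem_erase hl).symm)
    · rw [tc_ne _ hia]
      exact hunit a i (Ne.symm hia)
  · have := ultra_completion (pabs π hπ) p hp
    letI := nontrivNormed (pabs π hπ) (pabs_isNontrivial hπ)
    exact nodeCond_tc (k := (pabs π hπ).Completion) (two_norm p hp hp2)
      (E := brc P e (pabs π hπ)) hj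
      (fun i l hil h1 h2 => by
        refine (norm_brc_sub P e _ i l).trans ?_
        rw [pabs_coe_eq_one_iff]
        exact fun h => (hπ.prime.dvd_or_dvd h).elim hπP (hcop.not_dvd hπ hj hd' hil h1 h2))
      (by
        refine (norm_brc_sub P e _ j j').trans_lt ?_
        rw [pabs_coe_lt_one_iff]
        exact hd'.mul_left P) a
      (fun i => tc_map (algebraMap (RatFunc F) (pabs π hπ).Completion) (br P e) a i)
  · refine ⟨fun l => if l = a then 1 else 0, fun i => ?_⟩
    have e1 : ∏ j, tc (brc P e (iabs F)) j i ^ (if j = a then 1 else 0) =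
        tc (brc P e (iabs F)) a i := by
      rw [Finset.prod_eq_single a]
      · simp
      · intro l _ hl
        simp [hl]
      · intro h
        exact absurd (Finset.mem_univ a) h
    rw [e1]
    refine ⟨tc (brc P e (iabs F)) a i, ?_⟩
    congr 1
    exact tc_map (algebraMap (RatFunc F) (iabs F).Completion) (br P e) a i

omit [Finite F] in
/-- The product of the components of an element of the Selmer group has even order everywhere. -/
theorem par_prod_selmer (hp : p.Prime) {P : F[X]} {e : ι → F[X]} {d : ι → (RatFunc F)ˣ}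
    (hd : d ∈ selmerSet 2 (fun _ => 1) (br P e)) (Q : F[X]) (hQ : Irreducible Q) :
    ∑ i, par Q hQ (d i : RatFunc F) = 0 := by
  have : CharP (RatFunc F) p :=
    charP_of_injective_algebraMap (algebraMap F (RatFunc F)).injective p
  rw [← par_prod hQ _ _ fun i _ => (d i).ne_zero]
  letI := nontrivNormed (pabs Q hQ) (pabs_isNontrivial hQ)
  obtain ⟨s, hs⟩ := prod_isSquare (k := (pabs Q hQ).Completion) (hd _ (pabs_isNontrivial hQ))
  have h1 : ∏ i, ((mapUnits (algebraMap (RatFunc F) (pabs Q hQ).Completion) d i :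
      ((pabs Q hQ).Completion)ˣ) : (pabs Q hQ).Completion) =
      algebraMap (RatFunc F) (pabs Q hQ).Completion (∏ i, (d i : RatFunc F)) := by
    rw [map_prod]
    rfl
  have h0 : ∏ i, (d i : RatFunc F) ≠ 0 := Finset.prod_ne_zero_iff.2 fun i _ => (d i).ne_zero
  have hs' : algebraMap (RatFunc F) (pabs Q hQ).Completion (∏ i, (d i : RatFunc F)) = s * s := by
    rw [← h1]
    exact hs
  have hs0 : s ≠ 0 := by
    rintro rfl
    rw [mul_zero] at hs'
    exact h0 ((map_eq_zero (algebraMap (RatFunc F) (pabs Q hQ).Completion)).1 hs')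
  obtain ⟨y, hy0, hy⟩ := exists_abs_eq (pabs Q hQ) p hp s hs0
  refine par_eq_zero_of_abs hQ h0 hy0 ?_
  rw [hy, ← Helper47.BSD.norm_algebraMap (pabs Q hQ), hs', norm_mul, pow_two]

end

end Pool.Agent.Helper8.PT
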