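import Pool.Agent.Helper8.PT.Leg

/-!
# From local conditions to quadratic symbols
-/

set_option autoImplicit false

namespace Pool.Agent.Helper8.PT

open Module Pool.Agent.Helper47.BSD Polynomial Classical

variable {F : Type} [Field F]

lemma isSquare_pow_parity {R : Type} [Field R] {x κ : R} (hκ : κ ≠ 0) {m m' : ℕ}
    (h : (m : ZMod 2) = m') (hs : IsSquare (x * κ ^ m)) : IsSquare (x * κ ^ m') := by
  obtain ⟨s, hs⟩ := hs
  rw [ZMod.natCast_eq_natCast_iff'] at h
  obtain ⟨a, ha⟩ : ∃ a, m + m' = 2 * a := ⟨(m + m') / 2, by omega⟩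
  refine ⟨s * κ ^ a / κ ^ m, ?_⟩
  have h1 : κ ^ m * κ ^ m' = κ ^ a * κ ^ a := by rw [← pow_add, ← pow_add, ha]; ring
  have h2 : κ ^ m ≠ 0 := pow_ne_zero _ hκ
  field_simp
  linear_combination (x * κ ^ m) * h1 + κ ^ (2 * a) * hs

section Node

variable {ι : Type} (p : ℕ) [CharP F p]

/-- Parities and square classes from the condition at a node. -/
lemma node_par (hp : p.Prime) {π : F[X]} (hπ : Irreducible π) {d : ι → (RatFunc F)ˣ} {j j' : ι}
    {κ δ : RatFunc F} (hκ : pabs π hπ κ = 1) (hδ : δ ≠ 0)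
    (h : NodeCond (algebraMap (RatFunc F) (pabs π hπ).Completion κ)
      (algebraMap (RatFunc F) (pabs π hπ).Completion δ) j j'
      (mapUnits (algebraMap (RatFunc F) (pabs π hπ).Completion) d)) :
    (∀ i, i ≠ j → i ≠ j' → par π hπ (d i : RatFunc F) = 0) ∧
    par π hπ (d j : RatFunc F) = par π hπ (d j' : RatFunc F) ∧
    (par π hπ δ = 1 → ∀ v : ℕ, (v : ZMod 2) = par π hπ (d j : RatFunc F) →
      IsSquare (algebraMap (RatFunc F) (pabs π hπ).Completion
        ((d j : RatFunc F) * d j' * κ ^ v))) ∧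
    (par π hπ δ = 0 → ¬ IsSquare (algebraMap (RatFunc F) (pabs π hπ).Completion κ) →
      par π hπ (d j : RatFunc F) = 0) := by
  haveI : CharP (RatFunc F) p :=
    charP_of_injective_algebraMap (algebraMap F (RatFunc F)).injective p
  set ψ := algebraMap (RatFunc F) (pabs π hπ).Completion with hψ
  have hnorm : ∀ z, ‖ψ z‖ = pabs π hπ z := Helper47.BSD.norm_algebraMap (pabs π hπ)
  have hκ0 : κ ≠ 0 := fun h0 => by
    rw [h0, map_zero] at hκ
    exact zero_ne_one hκ
  obtain ⟨h1, m, hm, h3⟩ := h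
  have hval : ∀ r : (pabs π hπ).Completion, r ≠ 0 → ∃ y : RatFunc F, y ≠ 0 ∧
      pabs π hπ y = ‖r‖ := fun r hr => exists_abs_eq (pabs π hπ) p hp r hr
  have hm' : IsSquare (ψ ((d j : RatFunc F) * d j' * κ ^ m)) := by
    rw [map_mul, map_mul, map_pow]
    exact hm
  have h3' : ¬ IsSquare (ψ κ) → par π hπ (d j : RatFunc F) = m * par π hπ δ := by
    intro hns
    obtain ⟨r, hr0, hr⟩ := h3 hns
    obtain ⟨y, hy0, hy⟩ := hval r hr0
    refine par_eq_of_abs hπ (d j).ne_zero hy0 hδ ?_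
    rw [hy, ← hnorm, ← hnorm]
    exact hr
  refine ⟨fun i hi hi' => ?_, ?_, ?_, ?_⟩
  · obtain ⟨r, hr0, hr⟩ := h1 i hi hi'
    obtain ⟨y, hy0, hy⟩ := hval r hr0
    refine par_eq_zero_of_abs hπ (d i).ne_zero hy0 ?_
    rw [hy, ← hnorm]
    exact hr
  · obtain ⟨s, hs⟩ := hm'
    have hz : (d j : RatFunc F) * d j' * κ ^ m ≠ 0 :=
      mul_ne_zero (mul_ne_zero (d j).ne_zero (d j').ne_zero) (pow_ne_zero _ hκ0)
    have hs0 : s ≠ 0 := by
      rintro rfl
      rw [mul_zero] at hs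
      exact hz ((map_eq_zero ψ).1 hs)
    obtain ⟨y, hy0, hy⟩ := hval s hs0
    have h4 : par π hπ ((d j : RatFunc F) * d j') = 0 := by
      refine par_eq_zero_of_abs hπ (mul_ne_zero (d j).ne_zero (d j').ne_zero) hy0 ?_
      have h5 := congrArg norm hs
      rw [hnorm, norm_mul, map_mul, map_pow, hκ, one_pow, mul_one] at h5
      rw [hy, h5, pow_two]
    rw [par_mul hπ (d j).ne_zero (d j').ne_zero] at h4
    exact CharTwo.add_eq_zero.1 h4
  · intro hδ1 v hv
    by_cases hsq : IsSquare (ψ κ)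
    · obtain ⟨s, hs⟩ := hm'
      obtain ⟨t, ht⟩ := hsq
      have ht0 : t ≠ 0 := by
        rintro rfl
        rw [mul_zero] at ht
        exact hκ0 ((map_eq_zero ψ).1 ht)
      refine ⟨s / t ^ m * t ^ v, ?_⟩
      rw [map_mul, map_pow, ht] at hs ⊢
      have h6 : t ^ m ≠ 0 := pow_ne_zero _ ht0
      field_simp
      rw [mul_pow] at hs
      linear_combination (t ^ v * t ^ v) * hs
    · have h4 := h3' hsq
      rw [hδ1, mul_one] at h4
      rw [map_mul, map_pow]
      rw [map_mul, map_pow] at hm'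
      exact isSquare_pow_parity (fun h0 => hκ0 ((map_eq_zero ψ).1 h0)) (by rw [← h4, hv]) hm'
  · intro hδ0 hns
    rw [h3' hns, hδ0, mul_zero]

variable [Finite F]

/-- The relation between quadratic symbols at a place where two branch points collide. -/
lemma node_symbol (hp : p.Prime) (hp2 : p ≠ 2) {π : F[X]} (hπ : Irreducible π)
    {c c' : F} (hc : c ≠ 0) (hc' : c' ≠ 0) {S S' : Finset F[X]}
    (hS : ∀ Q ∈ S, Q.Monic ∧ Irreducible Q) (hS' : ∀ Q ∈ S', Q.Monic ∧ Irreducible Q)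
    (hπm : π.Monic) (hSS : π ∈ S ↔ π ∈ S') {x x' z z' : RatFunc F} (hx : x ≠ 0) (hx' : x' ≠ 0)
    (hz : z = algebraMap F[X] (RatFunc F) (C c * ∏ Q ∈ S, Q) * x ^ 2)
    (hz' : z' = algebraMap F[X] (RatFunc F) (C c' * ∏ Q ∈ S', Q) * x' ^ 2)
    {κ : F[X]} (hκ : ¬ π ∣ κ) (v : ℕ)
    (h : IsSquare (algebraMap (RatFunc F) (pabs π hπ).Completion
        (z * z' * algebraMap F[X] (RatFunc F) κ ^ v))) :
    (lg π (C c) + lg π (C c')) + (∑ Q ∈ S.erase π, lg π Q + ∑ Q ∈ S'.erase π, lg π Q) +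
      v * lg π κ = 0 := by
  have h2 := ringChar_ne (F := F) p hp2
  have hnd : ∀ T : Finset F[X], (∀ Q ∈ T, Q.Monic ∧ Irreducible Q) → ∀ Q ∈ T.erase π, ¬ π ∣ Q := by
    intro T hT Q hQ hd
    have hQT := hT Q (Finset.mem_of_mem_erase hQ)
    exact Finset.ne_of_mem_erase hQ
      (eq_of_monic_of_associated hQT.1 hπm (hπ.associated_of_dvd hQT.2 hd).symm)
  set A := ∏ Q ∈ S.erase π, Q with hA
  set A' := ∏ Q ∈ S'.erase π, Q with hA'
  have hdA : ¬ π ∣ A := not_dvd_prod hπ _ _ (hnd S hS)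
  have hdA' : ¬ π ∣ A' := not_dvd_prod hπ _ _ (hnd S' hS')
  have hdC := not_dvd_C hπ hc
  have hdC' := not_dvd_C hπ hc'
  have hmul : ∀ {f g : F[X]}, ¬ π ∣ f → ¬ π ∣ g → ¬ π ∣ f * g := fun hf hg hd =>
    (hπ.prime.dvd_or_dvd hd).elim hf hg
  have hκv : ¬ π ∣ κ ^ v := fun hd => hκ (hπ.prime.dvd_of_dvd_pow hd)
  have hf : ¬ π ∣ (C c * A) * (C c' * A') * κ ^ v := hmul (hmul (hmul hdC hdA) (hmul hdC' hdA')) hκv
  have key : IsSquare (algebraMap (RatFunc F) (pabs π hπ).Completion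
      (algebraMap F[X] (RatFunc F) ((C c * A) * (C c' * A') * κ ^ v))) := by
    have hex : ∃ w : RatFunc F, w ≠ 0 ∧ z * z' * algebraMap F[X] (RatFunc F) κ ^ v =
        algebraMap F[X] (RatFunc F) ((C c * A) * (C c' * A') * κ ^ v) * w ^ 2 := by
      by_cases hπS : π ∈ S
      · have hπS' := hSS.1 hπS
        refine ⟨algebraMap F[X] (RatFunc F) π * x * x',
          mul_ne_zero (mul_ne_zero (coe_ne_zero hπ.ne_zero) hx) hx', ?_⟩
        rw [hz, hz', ← Finset.mul_prod_erase S (fun Q => Q) hπS,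
          ← Finset.mul_prod_erase S' (fun Q => Q) hπS', ← hA, ← hA']
        simp only [map_mul, map_pow]
        ring
      · have hπS' : π ∉ S' := fun h => hπS (hSS.2 h)
        refine ⟨x * x', mul_ne_zero hx hx', ?_⟩
        rw [hz, hz', hA, hA', Finset.erase_eq_of_notMem hπS, Finset.erase_eq_of_notMem hπS']
        simp only [map_mul, map_pow]
        ring
    obtain ⟨w, hw0, hw⟩ := hex
    obtain ⟨s, hs⟩ := h
    rw [hw, map_mul, map_pow] at hs
    have hw1 : algebraMap (RatFunc F) (pabs π hπ).Completion w ≠ 0 := fun h0 =>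
      hw0 ((map_eq_zero _).1 h0)
    refine ⟨s / algebraMap (RatFunc F) (pabs π hπ).Completion w, ?_⟩
    field_simp
    linear_combination hs
  have h3 : lg π ((C c * A) * (C c' * A') * κ ^ v) = 0 :=
    lg_eq_zero.2 (isSquare_mod hπ p hp hf key)
  rw [lg_mul hπ h2 (hmul (hmul hdC hdA) (hmul hdC' hdA')) hκv,
    lg_mul hπ h2 (hmul hdC hdA) (hmul hdC' hdA'), lg_mul hπ h2 hdC hdA, lg_mul hπ h2 hdC' hdA',
    lg_pow hπ h2 hκ, lg_prod hπ h2 _ _ (hnd S hS), lg_prod hπ h2 _ _ (hnd S' hS')] at h3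
  linear_combination h3

end Node

section Infinity

variable {ι : Type} [Fintype ι] [Finite F] (p : ℕ) [CharP F p]

/-- The classes of the leading coefficients are determined by the parities of the degrees. -/
lemma inf_lead (hp : p.Prime) (hp2 : p ≠ 2) (hodd : Odd (Fintype.card ι)) {P : F[X]}
    (hPm : P.Monic) {e : ι → F[X]} {n : ℕ} {a b : ι} (hdeg : EqualDegrees e n a b)
    (hpar : Odd (P.natDegree + n)) {d : ι → (RatFunc F)ˣ}
    (h : InfCond (brc P e (iabs F)) (mapUnits (algebraMap (RatFunc F) (iabs F).Completion) d))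
    {c : ι → F} (hc : ∀ i, c i ≠ 0) {S : ι → Finset F[X]}
    (hS : ∀ i, ∀ Q ∈ S i, Q.Monic ∧ Irreducible Q) {x : ι → RatFunc F} (hx : ∀ i, x i ≠ 0)
    (hd : ∀ i, (d i : RatFunc F) =
      algebraMap F[X] (RatFunc F) (C (c i) * ∏ Q ∈ S i, Q) * x i ^ 2) (i : ι) :
    ql (c i) = ∑ j, (∑ Q ∈ S j, (Q.natDegree : ZMod 2)) * tl e (sw e n a b j) i := by
  have h2 := ringChar_ne (F := F) p hp2
  have hP : P ≠ 0 := hPm.ne_zero
  have hne := hdeg.ne
  set E : ι → F[X] := fun i => P * e i with hE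
  have hEne : ∀ i j, i ≠ j → E i ≠ E j := by
    intro i j hij h
    apply mul_ne_zero hP (hne i j hij)
    rw [mul_sub]
    exact sub_eq_zero.2 h
  have htc0 : ∀ j i, tc E j i ≠ 0 := tc_ne_zero hEne
  obtain ⟨α, ha⟩ := h
  have hinv : ∀ j, sw e n a b (sw e n a b j) = j := by
    intro j
    rw [sw]
    split_ifs
    · rfl
    · exact Equiv.swap_apply_self _ _ _
  have hmonic : ∀ i, (∏ Q ∈ S i, Q).Monic := fun i => monic_prod_of_monic _ _ fun Q hQ =>
    (hS i Q hQ).1
  have hf0 : ∀ i, C (c i) * ∏ Q ∈ S i, Q ≠ 0 := fun i =>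
    mul_ne_zero (C_ne_zero.2 (hc i)) (hmonic i).ne_zero
  have hprod0 : ∀ i, ∏ j, tc E j i ^ α j ≠ 0 := fun i =>
    Finset.prod_ne_zero_iff.2 fun j _ => pow_ne_zero _ (htc0 j i)
  have key : ∀ i, Even ((C (c i) * ∏ Q ∈ S i, Q) * ∏ j, tc E j i ^ α j).natDegree ∧
      IsSquare ((C (c i) * ∏ Q ∈ S i, Q) * ∏ j, tc E j i ^ α j).leadingCoeff := by
    intro i
    refine isSquare_inf p hp (mul_ne_zero (hf0 i) (hprod0 i)) ?_
    obtain ⟨s, hs⟩ := ha i
    have hw1 : algebraMap (RatFunc F) (iabs F).Completion (x i) ≠ 0 := fun h0 =>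
      hx i ((map_eq_zero _).1 h0)
    refine ⟨s / algebraMap (RatFunc F) (iabs F).Completion (x i), ?_⟩
    have e1 : ∏ j, tc (brc P e (iabs F)) j i ^ α j =
        algebraMap (RatFunc F) (iabs F).Completion
          (algebraMap F[X] (RatFunc F) (∏ j, tc E j i ^ α j)) := by
      rw [map_prod, map_prod]
      refine Finset.prod_congr rfl fun j _ => ?_
      rw [map_pow, map_pow]
      congr 1
      exact (tc_map ((algebraMap (RatFunc F) (iabs F).Completion).comp
        (algebraMap F[X] (RatFunc F))) E j i).symm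
    have e2 : ((mapUnits (algebraMap (RatFunc F) (iabs F).Completion) d i :
        ((iabs F).Completion)ˣ) : (iabs F).Completion) =
        algebraMap (RatFunc F) (iabs F).Completion
          (algebraMap F[X] (RatFunc F) (C (c i) * ∏ Q ∈ S i, Q) * x i ^ 2) := by
      rw [← hd i]
      rfl
    rw [e1, e2, map_mul _ _ (x i ^ 2), map_pow] at hs
    rw [map_mul _ (C (c i) * ∏ Q ∈ S i, Q), map_mul]
    field_simp
    linear_combination hs
  -- degrees
  have hD : ∀ i, ∑ Q ∈ S i, (Q.natDegree : ZMod 2) =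
      (∑ j, (α j : ZMod 2)) + α (sw e n a b i) := by
    intro i
    have h3 := (key i).1
    rw [natDegree_mul (hf0 i) (hprod0 i), natDegree_C_mul (hc i),
      natDegree_prod_of_monic _ _ fun Q hQ => (hS i Q hQ).1,
      natDegree_prod _ _ fun j _ => pow_ne_zero _ (htc0 j i), ← ZMod.natCast_eq_zero_iff_even,
      Nat.cast_add, Nat.cast_sum, Nat.cast_sum] at h3
    have h4 : ∀ j, (((tc E j i ^ α j).natDegree : ℕ) : ZMod 2) =
        (α j : ZMod 2) + (if sw e n a b i = j then (α j : ZMod 2) else 0) := by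
      intro j
      rw [natDegree_pow, Nat.cast_mul, natDegree_tc hP hdeg hodd hpar]
      have hiff : i = sw e n a b j ↔ sw e n a b i = j := by
        constructor
        · rintro rfl
          exact hinv j
        · rintro rfl
          exact (hinv i).symm
      by_cases hij : sw e n a b i = j
      · rw [if_pos (hiff.2 hij), if_pos hij]
        ring
      · rw [if_neg (fun h => hij (hiff.1 h)), if_neg hij]
        ring
    rw [Finset.sum_congr rfl fun j _ => h4 j, Finset.sum_add_distrib, Finset.sum_ite_eq,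
      if_pos (Finset.mem_univ _)] at h3
    exact CharTwo.add_eq_zero.1 h3
  -- leading coefficients
  have hL : ql (c i) = ∑ j, (α j : ZMod 2) * tl e j i := by
    have h3 := (key i).2
    rw [← ql_eq_zero, leadingCoeff_mul, leadingCoeff_mul, leadingCoeff_C,
      (hmonic i).leadingCoeff, mul_one, leadingCoeff_prod,
      ql_mul h2 (hc i) (Finset.prod_ne_zero_iff.2 fun j _ => leadingCoeff_ne_zero.2
        (pow_ne_zero _ (htc0 j i))),
      ql_prod h2 _ _ fun j _ => leadingCoeff_ne_zero.2 (pow_ne_zero _ (htc0 j i))] at h3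
    have h4 : ∀ j, ql (tc E j i ^ α j).leadingCoeff = (α j : ZMod 2) * tl e j i := by
      intro j
      rw [leadingCoeff_pow, ql_pow h2 (leadingCoeff_ne_zero.2 (htc0 j i)), ql_lead_tc hPm]
    rw [Finset.sum_congr rfl fun j _ => h4 j] at h3
    exact CharTwo.add_eq_zero.1 h3
  have h5 : ∑ j, (∑ Q ∈ S j, (Q.natDegree : ZMod 2)) * tl e (sw e n a b j) i =
      ∑ j, ((∑ l, (α l : ZMod 2)) * tl e (sw e n a b j) i +
        α (sw e n a b j) * tl e (sw e n a b j) i) :=
    Finset.sum_congr rfl fun j _ => by rw [hD j, add_mul]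
  rw [h5, Finset.sum_add_distrib, ← Finset.mul_sum,
    Equiv.sum_comp (sw e n a b) (fun j => tl e j i),
    Equiv.sum_comp (sw e n a b) (fun j => (α j : ZMod 2) * tl e j i),
    sum_tl h2 hne hodd, mul_zero, zero_add, hL]

end Infinity

end Pool.Agent.Helper8.PT
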