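import Pool.Agent.Helper8.PT.Torsion
import Pool.Agent.Helper8.PT.Chars

/-!
# Hyperelliptic Jacobians whose 2-Selmer group consists of torsion classes
-/

set_option autoImplicit false

namespace Pool.Agent.Helper8.PT

open Module Pool.Agent.Helper47.BSD Polynomial Classical Filter Topology

/-- Let `C` be the curve `y ^ 2 = ∏ i, (x - E i)` over the field `K`, with an odd number of roots
`E i`.  The elements of the 2-Selmer group of the Jacobian of `C` are, modulo squares, products of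
the images of the 2-torsion classes `(E a, 0) - ∞` under the `x - T` map. -/
def SelmerIsTorsion {K : Type} [Field K] {ι : Type} [Fintype ι] (E : ι → K) : Prop :=
  ∀ d ∈ selmerSet 2 (fun _ => 1) E, ∃ A : Finset ι, ∀ i,
    IsSquare ((d i : K) * ∏ a ∈ A,
      if i = a then ∏ l ∈ Finset.univ.erase a, (E a - E l) else E a - E i)

theorem main (F : Type) [Field F] [Fintype F] (h2 : ringChar F ≠ 2) (ι : Type) [Fintype ι]
    (hι : Odd (Fintype.card ι)) (e : ι → F[X]) (n : ℕ) (a b : ι) (hab : a ≠ b)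
    (heab : e a ≠ e b) (hle : (e a - e b).degree ≤ n)
    (hdeg : ∀ i j, i ≠ j → s(i, j) ≠ s(a, b) → (e i - e j).degree = n)
    (hcop : ∀ i j k l, i ≠ j → k ≠ l → s(i, j) ≠ s(k, l) → IsCoprime (e i - e j) (e k - e l))
    (c : ℝ) (hc : c < (2 : ℝ)⁻¹ ^
      {π : F[X] | π.Monic ∧ Irreducible π ∧ ∃ i j, i ≠ j ∧ π ∣ e i - e j}.ncard) :
    ∀ᶠ k : ℕ in atTop, Odd (k + n) → c * ((Fintype.card F : ℝ) ^ k / k) ≤
      {P : F[X] | P.Monic ∧ Irreducible P ∧ P.natDegree = k ∧
        SelmerIsTorsion fun i => algebraMap F[X] (RatFunc F) (P * e i)}.ncard := by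
  have hp : (ringChar F).Prime := CharP.char_is_prime F _
  have hED : EqualDegrees e n a b := ⟨hab, heab, hle, hdeg⟩
  have hPC : PairCoprime e := hcop
  have hne := hED.ne
  obtain ⟨s, hs⟩ := selmer_torsion (ringChar F) hp h2 hι hED hPC
  have hset : {π : F[X] | π.Monic ∧ Irreducible π ∧ ∃ i j, i ≠ j ∧ π ∣ e i - e j} =
      (bad e : Set F[X]) := by
    ext π
    rw [Finset.mem_coe, mem_bad hne]
    rfl
  rw [hset, Set.ncard_coe_finset] at hc
  have hB : ∀ π ∈ bad e, π.Monic ∧ Irreducible π := fun π hπ =>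
    ⟨((mem_bad hne).1 hπ).1, ((mem_bad hne).1 hπ).2.1⟩
  have hdens := pattern_density h2 hB s
  obtain ⟨D, hD⟩ : ∃ D : ℕ, ∀ π ∈ bad e, π.natDegree < D :=
    ⟨(bad e).sup natDegree + 1, fun π hπ => Nat.lt_succ_of_le (Finset.le_sup hπ)⟩
  filter_upwards [hdens.eventually (lt_mem_nhds hc), eventually_ge_atTop D,
    eventually_gt_atTop 0] with k hk hkD hk0 hodd
  have hqk : 0 < (Fintype.card F : ℝ) ^ k := pow_pos (one_pos.trans one_lt_card_real) k
  have hk' : (0 : ℝ) < k := by exact_mod_cast hk0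
  have h1 : c * ((Fintype.card F : ℝ) ^ k / k) ≤
      (((primes F k).filter fun P => ∀ π ∈ bad e, lg π P = s π).card : ℝ) := by
    rw [lt_div_iff₀ hqk] at hk
    rw [← mul_div_assoc, div_le_iff₀ hk']
    linarith
  refine h1.trans ?_
  have hfin : {P : F[X] | P.Monic ∧ Irreducible P ∧ P.natDegree = k ∧
      SelmerIsTorsion fun i => algebraMap F[X] (RatFunc F) (P * e i)}.Finite :=
    (finite_monic F k).subset fun P hP => ⟨hP.1, hP.2.2.1⟩
  have hsub : (((primes F k).filter fun P => ∀ π ∈ bad e, lg π P = s π : Finset F[X]) :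
      Set F[X]) ⊆ {P : F[X] | P.Monic ∧ Irreducible P ∧ P.natDegree = k ∧
        SelmerIsTorsion fun i => algebraMap F[X] (RatFunc F) (P * e i)} := by
    intro P hP
    obtain ⟨hP1, hP2⟩ := Finset.mem_filter.1 (Finset.mem_coe.1 hP)
    obtain ⟨hPm, hPi, hPd⟩ := mem_primes.1 hP1
    refine ⟨hPm, hPi, hPd, ?_⟩
    have hPe : ∀ i j, i ≠ j → ¬ P ∣ e i - e j := by
      intro i j hij hd
      have h3 := hD P ((mem_bad hne).2 ⟨hPm, hPi, i, j, hij, hd⟩)
      omega
    exact hs P hPm hPi hPe (by rw [hPd]; exact hodd) hP2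
  have h4 := Set.ncard_le_ncard hsub hfin
  rw [Set.ncard_coe_finset] at h4
  exact_mod_cast h4

end Pool.Agent.Helper8.PT
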