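import Pool.Agent.Helper8.PT.Quad

/-!
# The local image at a place where exactly two branch points collide
-/

set_option autoImplicit false

namespace Pool.Agent.Helper8.PT

universe u

open Module Pool.Agent.Helper47.BSD

variable {k : Type u} [NontriviallyNormedField k] [IsUltrametricDist k] [CompleteSpace k]
  {ι : Type} [Fintype ι] [DecidableEq ι]

/-- The indices different from `j` and `j'`. -/
def others (j j' : ι) : Finset ι := (Finset.univ.erase j).erase j'

lemma mem_others {j j' i : ι} : i ∈ others j j' ↔ i ≠ j' ∧ i ≠ j := by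
  simp [others]

lemma prod_eq_others {M : Type u} [CommMonoid M] (f : ι → M) {j j' : ι} (h : j ≠ j') :
    ∏ i, f i = f j * f j' * ∏ i ∈ others j j', f i := by
  have h1 : j' ∈ Finset.univ.erase j := by simp [h.symm]
  rw [← Finset.mul_prod_erase Finset.univ f (Finset.mem_univ j), ← Finset.mul_prod_erase _ f h1,
    mul_assoc]
  rfl

/-- The product of the differences `E j - E i`, `i` different from `j`, `j'`. -/
def kap {R : Type u} [CommRing R] (E : ι → R) (j j' : ι) : R := ∏ i ∈ others j j', (E j - E i)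

variable {L : Type u} [Field L] [Algebra k L] [FiniteDimensional k L]

theorem node_point (h2 : ‖(2 : k)‖ = 1) (hodd : Odd (Fintype.card ι)) {E : ι → k} {j j' : ι}
    (hj : j ≠ j')
    (h1 : ∀ i l, i ≠ l → ¬ (i = j ∧ l = j') → ¬ (i = j' ∧ l = j) → ‖E i - E l‖ = 1)
    (hδ : ‖E j - E j'‖ < 1) (hδ0 : E j ≠ E j') (x y : L) (hy : y ≠ 0)
    (hxy : y ^ 2 = ∏ i, (x - algebraMap k L (E i))) :
    (∀ i, i ≠ j → i ≠ j' → ∃ r : L, r ≠ 0 ∧
      specAbs k L (x - algebraMap k L (E i)) = specAbs k L r ^ 2) ∧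
    ((∃ z : L, z ≠ 0 ∧ (x - algebraMap k L (E j)) * (x - algebraMap k L (E j')) = z ^ 2 ∧
        ∃ r : L, r ≠ 0 ∧ specAbs k L (x - algebraMap k L (E j)) = specAbs k L r ^ 2) ∨
      (∃ z : L, z ≠ 0 ∧ (x - algebraMap k L (E j)) * (x - algebraMap k L (E j')) =
          algebraMap k L (kap E j j') * z ^ 2 ∧
        ((∃ s : L, s ^ 2 = algebraMap k L (kap E j j')) ∨
          ∃ r : L, r ≠ 0 ∧ specAbs k L (x - algebraMap k L (E j)) =
            ‖E j - E j'‖ * specAbs k L r ^ 2))) := by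
  set N := specAbs k L with hN
  set X : ι → L := fun i => x - algebraMap k L (E i) with hX
  have hXX : ∀ i l, X i - X l = algebraMap k L (E l - E i) := fun i l => by
    simp only [hX, map_sub]
    ring
  have hNE : ∀ c : k, N (algebraMap k L c) = ‖c‖ := fun c => specAbs_algebraMap c
  have hX0 : ∀ i, X i ≠ 0 := fun i h => pow_ne_zero 2 hy (by
    rw [hxy]
    exact Finset.prod_eq_zero (Finset.mem_univ i) h)
  have hEle : ∀ i l, ‖E i - E l‖ ≤ 1 := by
    intro i l
    by_cases hil : i = l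
    · rw [hil, sub_self, norm_zero]
      exact zero_le_one
    · by_cases ha : i = j ∧ l = j'
      · rw [ha.1, ha.2]
        exact hδ.le
      · by_cases hb : i = j' ∧ l = j
        · rw [hb.1, hb.2, norm_sub_rev]
          exact hδ.le
        · exact (h1 i l hil ha hb).le
  have hyN : N y ^ 2 = ∏ i, N (X i) := by
    rw [← map_pow, hxy, map_prod]
  change (∀ i, i ≠ j → i ≠ j' → ∃ r : L, r ≠ 0 ∧ N (X i) = N r ^ 2) ∧
    ((∃ z : L, z ≠ 0 ∧ X j * X j' = z ^ 2 ∧ ∃ r : L, r ≠ 0 ∧ N (X j) = N r ^ 2) ∨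
      (∃ z : L, z ≠ 0 ∧ X j * X j' = algebraMap k L (kap E j j') * z ^ 2 ∧
        ((∃ s : L, s ^ 2 = algebraMap k L (kap E j j')) ∨
          ∃ r : L, r ≠ 0 ∧ N (X j) = ‖E j - E j'‖ * N r ^ 2)))
  rcases lt_trichotomy (N (X j)) 1 with hc | hc | hc
  · -- the point reduces to the node
    have hsq : ∀ i ∈ others j j', ∃ z : L, z ≠ 0 ∧ X i = algebraMap k L (E j - E i) * z ^ 2 := by
      intro i hi
      rw [mem_others] at hi
      refine exists_sq_mul h2 ?_
      rw [← hXX i j, sub_sub_cancel, hXX, ← hN, hNE, h1 j i hi.2.symm (fun h => hi.1 h.2)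
        (fun h => hj h.1)]
      exact hc
    have hone : ∀ i ∈ others j j', N (X i) = 1 := by
      intro i hi
      rw [mem_others] at hi
      have h3 : X i = algebraMap k L (E j - E i) - -(X j) := by rw [← hXX]; ring
      rw [h3, abs_sub_eq specAbs_add_le (by
        rw [AbsoluteValue.map_neg, hNE, h1 j i hi.2.symm (fun h => hi.1 h.2) (fun h => hj h.1)]
        exact hc), hNE, h1 j i hi.2.symm (fun h => hi.1 h.2) (fun h => hj h.1)]
    refine ⟨fun i hij hij' => ⟨1, one_ne_zero, by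
      rw [hone i (mem_others.2 ⟨hij', hij⟩), map_one, one_pow]⟩, Or.inr ?_⟩
    choose! z hz0 hz using hsq
    have hZ0 : (∏ i ∈ others j j', z i) ≠ 0 := Finset.prod_ne_zero_iff.2 fun i hi => hz0 i hi
    have hκ : algebraMap k L (kap E j j') * (∏ i ∈ others j j', z i) ^ 2 =
        ∏ i ∈ others j j', X i := by
      rw [kap, map_prod, ← Finset.prod_pow, ← Finset.prod_mul_distrib]
      exact Finset.prod_congr rfl fun i hi => (hz i hi).symm
    have hκ0 : algebraMap k L (kap E j j') ≠ 0 := by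
      intro h
      rw [h, zero_mul] at hκ
      exact Finset.prod_ne_zero_iff.2 (fun i _ => hX0 i) hκ.symm
    have hy2 : y ^ 2 = X j * X j' *
        (algebraMap k L (kap E j j') * (∏ i ∈ others j j', z i) ^ 2) := by
      rw [hκ, hxy]
      exact prod_eq_others X hj
    set κ := algebraMap k L (kap E j j') with hκdef
    set Z := ∏ i ∈ others j j', z i with hZdef
    have hprod : X j * X j' = κ * (y / (κ * Z)) ^ 2 := by
      field_simp
      linear_combination -hy2
    refine ⟨y / (κ * Z), div_ne_zero hy (mul_ne_zero hκ0 hZ0), hprod, ?_⟩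
    have hw0 : y / (κ * Z) ≠ 0 := div_ne_zero hy (mul_ne_zero hκ0 hZ0)
    have hδL : N (algebraMap k L (E j - E j')) = ‖E j - E j'‖ := hNE _
    rcases lt_trichotomy (N (X j)) ‖E j - E j'‖ with hd | hd | hd
    · right
      refine ⟨y / (κ * Z) / algebraMap k L (E j - E j'), div_ne_zero hw0 (by
        rw [Ne, map_eq_zero, sub_eq_zero]; exact hδ0), ?_⟩
      have h4 : N (X j') = ‖E j - E j'‖ := by
        have h3 : X j' = algebraMap k L (E j - E j') - -(X j) := by rw [← hXX]; ring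
        rw [h3, abs_sub_eq specAbs_add_le (by
          rw [AbsoluteValue.map_neg, hNE]
          exact hd), hNE]
      have hκ1 : N κ = 1 := by
        rw [hκdef, hNE, kap, norm_prod]
        refine Finset.prod_eq_one fun i hi => ?_
        rw [mem_others] at hi
        exact h1 j i hi.2.symm (fun h => hi.1 h.2) (fun h => hj h.1)
      have h5 : N (X j) * ‖E j - E j'‖ = N (y / (κ * Z)) ^ 2 := by
        have := congrArg N hprod
        rw [map_mul, map_mul, map_pow, h4, hκ1, one_mul] at this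
        exact this
      have hpos : 0 < ‖E j - E j'‖ := norm_pos_iff.2 (sub_ne_zero.2 hδ0)
      rw [map_div₀, div_pow, hδL, ← h5]
      field_simp
    · right
      exact ⟨1, one_ne_zero, by rw [hd, map_one, one_pow, mul_one]⟩
    · left
      obtain ⟨s, hs0, hs⟩ := exists_sq_mul (L := L) h2 (x := X j') (y := X j) (by
        rw [hXX]
        change N _ < N _
        rw [hNE]
        exact hd)
      refine ⟨X j * s / (y / (κ * Z)), ?_⟩
      rw [hs] at hprod
      rw [div_pow, div_eq_iff (pow_ne_zero 2 hw0), ← hprod]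
      ring
  · -- unit case
    obtain ⟨s, hs0, hs⟩ := exists_sq_mul (L := L) h2 (x := X j') (y := X j) (by
      rw [hXX]
      change N _ < N _
      rw [hNE, hc]
      exact hδ)
    refine ⟨fun i hij hij' => ?_, Or.inl ⟨X j * s, mul_ne_zero (hX0 j) hs0, by rw [hs]; ring, 1,
      one_ne_zero, by rw [hc, map_one, one_pow]⟩⟩
    have hle : N (X i) ≤ 1 := by
      have h3 : X i = X j + algebraMap k L (E j - E i) := by rw [← hXX]; ring
      rw [h3]
      refine (specAbs_add_le _ _).trans (max_le hc.le ?_)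
      change N _ ≤ 1
      rw [hNE]
      exact hEle _ _
    rcases hle.lt_or_eq with hlt | heq
    · refine ⟨y, hy, ?_⟩
      rw [hyN, Finset.prod_eq_single i]
      · intro l _ hl
        have h5 : ‖E i - E l‖ = 1 := h1 i l hl.symm (fun h => hij h.1) (fun h => hij' h.1)
        have h3 : X l = algebraMap k L (E i - E l) - -(X i) := by rw [← hXX]; ring
        rw [h3, abs_sub_eq specAbs_add_le (by
          rw [AbsoluteValue.map_neg, hNE, h5]
          exact hlt), hNE, h5]
      · intro h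
        exact absurd (Finset.mem_univ i) h
    · exact ⟨1, one_ne_zero, by rw [heq, map_one, one_pow]⟩
  · -- the point reduces to infinity
    have hall : ∀ i, N (X i) = N (X j) := by
      intro i
      have h3 : X i = X j - algebraMap k L (E i - E j) := by rw [← hXX]; ring
      rw [h3, abs_sub_eq specAbs_add_le (by
        rw [hNE]
        exact (hEle _ _).trans_lt hc)]
    obtain ⟨s, hs0, hs⟩ := exists_sq_mul (L := L) h2 (x := X j') (y := X j) (by
      rw [hXX]
      change N _ < N _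
      rw [hNE]
      exact (hEle _ _).trans_lt hc)
    obtain ⟨m, hm⟩ := hodd
    have hr : N (X j) = N (y / X j ^ m) ^ 2 := by
      have h4 : N y ^ 2 = N (X j) ^ (2 * m + 1) := by
        rw [hyN, Finset.prod_congr rfl fun i _ => hall i, Finset.prod_const, Finset.card_univ, hm]
      have h5 : N (X j) ≠ 0 := N.ne_zero (hX0 j)
      rw [map_div₀, div_pow, h4, map_pow]
      field_simp
      ring
    refine ⟨fun i _ _ => ⟨y / X j ^ m, div_ne_zero hy (pow_ne_zero _ (hX0 j)), by
      rw [hall i]; exact hr⟩, Or.inl ⟨X j * s, mul_ne_zero (hX0 j) hs0, by rw [hs]; ring,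
        y / X j ^ m, div_ne_zero hy (pow_ne_zero _ (hX0 j)), hr⟩⟩

omit [CompleteSpace k] [IsUltrametricDist k] in
lemma norm_kap {E : ι → k} {j j' : ι} (hj : j ≠ j')
    (h1 : ∀ i l, i ≠ l → ¬ (i = j ∧ l = j') → ¬ (i = j' ∧ l = j) → ‖E i - E l‖ = 1) :
    ‖kap E j j'‖ = 1 := by
  rw [kap, norm_prod]
  refine Finset.prod_eq_one fun i hi => ?_
  rw [mem_others] at hi
  exact h1 j i hi.2.symm (fun h => hi.1 h.2) (fun h => hj h.1)

/-- The local condition at a place where exactly two branch points collide. -/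
def NodeCond {k : Type u} [NormedField k] {ι : Type} (κ δ : k) (j j' : ι) (d : ι → kˣ) : Prop :=
  (∀ i, i ≠ j → i ≠ j' → ∃ r : k, r ≠ 0 ∧ ‖(d i : k)‖ = ‖r‖ ^ 2) ∧
    ∃ m : ℕ, IsSquare ((d j : k) * d j' * κ ^ m) ∧
      (¬ IsSquare κ → ∃ r : k, r ≠ 0 ∧ ‖(d j : k)‖ = ‖δ‖ ^ m * ‖r‖ ^ 2)

lemma NodeCond.mul {k : Type u} [NormedField k] {ι : Type} {κ δ : k} {j j' : ι} {d d' : ι → kˣ} (h : NodeCond κ δ j j' d)
    (h' : NodeCond κ δ j j' d') : NodeCond κ δ j j' (d * d') := by
  obtain ⟨ha, m, hm, hr⟩ := h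
  obtain ⟨ha', m', hm', hr'⟩ := h'
  refine ⟨fun i hi hi' => ?_, m + m', ?_, fun hκ => ?_⟩
  · obtain ⟨r, h0, h1⟩ := ha i hi hi'
    obtain ⟨s, h0', h1'⟩ := ha' i hi hi'
    exact ⟨r * s, mul_ne_zero h0 h0', by
      rw [Pi.mul_apply, Units.val_mul, norm_mul, h1, h1', norm_mul, mul_pow]⟩
  · have h3 := hm.mul hm'
    have e1 : ((d * d') j : k) * ((d * d') j' : k) * κ ^ (m + m') =
        (d j : k) * d j' * κ ^ m * ((d' j : k) * d' j' * κ ^ m') := by
      rw [Pi.mul_apply, Pi.mul_apply, Units.val_mul, Units.val_mul, pow_add]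
      ring
    rw [e1]
    exact h3
  · obtain ⟨r, h0, h1⟩ := hr hκ
    obtain ⟨s, h0', h1'⟩ := hr' hκ
    exact ⟨r * s, mul_ne_zero h0 h0', by
      rw [Pi.mul_apply, Units.val_mul, norm_mul, h1, h1', norm_mul, mul_pow, pow_add]
      ring⟩

lemma NodeCond.inv {k : Type u} [NormedField k] {ι : Type} {κ δ : k} (hδ0 : δ ≠ 0) {j j' : ι} {d : ι → kˣ}
    (h : NodeCond κ δ j j' d) : NodeCond κ δ j j' d⁻¹ := by
  obtain ⟨ha, m, hm, hr⟩ := h
  refine ⟨fun i hi hi' => ?_, m, ?_, fun hκ => ?_⟩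
  · obtain ⟨r, h0, h1⟩ := ha i hi hi'
    exact ⟨r⁻¹, inv_ne_zero h0, by
      rw [Pi.inv_apply, Units.val_inv_eq_inv_val, norm_inv, h1, norm_inv, inv_pow]⟩
  · obtain ⟨s, hs⟩ := hm
    have h0 := (d j).ne_zero
    have h0' := (d j').ne_zero
    refine ⟨s / ((d j : k) * d j'), ?_⟩
    rw [Pi.inv_apply, Pi.inv_apply, Units.val_inv_eq_inv_val, Units.val_inv_eq_inv_val]
    field_simp
    linear_combination hs
  · obtain ⟨r, h0, h1⟩ := hr hκ
    refine ⟨(δ ^ m * r)⁻¹, inv_ne_zero (mul_ne_zero (pow_ne_zero _ hδ0) h0), ?_⟩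
    have h3 : ‖r‖ ≠ 0 := norm_ne_zero_iff.2 h0
    have h4 : ‖δ‖ ≠ 0 := norm_ne_zero_iff.2 hδ0
    rw [Pi.inv_apply, Units.val_inv_eq_inv_val, norm_inv, h1, norm_inv, norm_mul, norm_pow]
    field_simp

lemma NodeCond.sq {k : Type u} [NormedField k] {ι : Type} (κ δ : k) (j j' : ι) (c : ι → kˣ) : NodeCond κ δ j j' (c ^ 2) := by
  refine ⟨fun i _ _ => ⟨c i, (c i).ne_zero, by simp⟩, 0, ⟨c j * c j', by simp; ring⟩,
    fun _ => ⟨c j, (c j).ne_zero, by simp⟩⟩

/-- Elements of the local descent group satisfy the local condition. -/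
theorem node_cond (h2 : ‖(2 : k)‖ = 1) (hodd : Odd (Fintype.card ι)) {E : ι → k} {j j' : ι}
    (hj : j ≠ j')
    (h1 : ∀ i l, i ≠ l → ¬ (i = j ∧ l = j') → ¬ (i = j' ∧ l = j) → ‖E i - E l‖ = 1)
    (hδ : ‖E j - E j'‖ < 1) (hδ0 : E j ≠ E j') {d : ι → kˣ}
    (hd : d ∈ descentGroup 2 (fun _ => 1) E) : NodeCond (kap E j j') (E j - E j') j j' d := by
  have hκ1 : ‖kap E j j'‖ = 1 := norm_kap hj h1
  have hδ0' : E j - E j' ≠ 0 := sub_ne_zero.2 hδ0
  induction hd using Subgroup.closure_induction with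
  | mem d hd =>
    rcases hd with ⟨L, _, _, _, x, y, hy, hxy, hd⟩ | ⟨c, rfl⟩
    · have hxy' : y ^ 2 = ∏ i, (x - algebraMap k L (E i)) := by
        rw [hxy]
        exact Finset.prod_congr rfl fun i _ => pow_one _
      obtain ⟨hp1, hp2⟩ := node_point (L := L) h2 hodd hj h1 hδ hδ0 x y hy hxy'
      refine ⟨fun i hi hi' => ?_, ?_⟩
      · obtain ⟨r, hr0, hr⟩ := hp1 i hi hi'
        refine ⟨Algebra.norm k r, Algebra.norm_ne_zero_iff.2 hr0, ?_⟩
        rw [hd i, norm_norm_eq, norm_norm_eq, hr, ← pow_mul, ← pow_mul, mul_comm]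
      · rcases hp2 with ⟨z, hz0, hz, r, hr0, hr⟩ | ⟨z, hz0, hz, hz'⟩
        · refine ⟨0, ⟨Algebra.norm k z, ?_⟩, fun _ => ⟨Algebra.norm k r,
            Algebra.norm_ne_zero_iff.2 hr0, ?_⟩⟩
          · rw [pow_zero, mul_one, hd j, hd j', ← map_mul, hz, map_pow, pow_two]
          · rw [pow_zero, one_mul, hd j, norm_norm_eq, norm_norm_eq, hr, ← pow_mul, ← pow_mul,
              mul_comm]
        · refine ⟨finrank k L, ⟨kap E j j' ^ finrank k L * Algebra.norm k z, ?_⟩, fun hκ => ?_⟩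
          · rw [hd j, hd j', ← map_mul, hz, map_mul, map_pow, Algebra.norm_algebraMap]
            ring
          · rcases hz' with ⟨s, hs⟩ | ⟨r, hr0, hr⟩
            · obtain ⟨⟨m, hm⟩, hq⟩ := quad_norm h2 hκ1 hκ hs
              have hX0 : x - algebraMap k L (E j) ≠ 0 := fun h => pow_ne_zero 2 hy (by
                rw [hxy']
                exact Finset.prod_eq_zero (Finset.mem_univ j) h)
              obtain ⟨r, hr0, hr⟩ := hq _ hX0
              refine ⟨r / (E j - E j') ^ m, div_ne_zero hr0 (pow_ne_zero _ hδ0'), ?_⟩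
              have h4 : ‖E j - E j'‖ ≠ 0 := norm_ne_zero_iff.2 hδ0'
              rw [hd j, hr, hm, norm_div, norm_pow]
              field_simp
              ring
            · refine ⟨Algebra.norm k r, Algebra.norm_ne_zero_iff.2 hr0, ?_⟩
              rw [hd j, norm_norm_eq, norm_norm_eq, hr, mul_pow, ← pow_mul, ← pow_mul,
                mul_comm 2]
    · exact NodeCond.sq _ _ _ _ _
  | one =>
    have := NodeCond.sq (kap E j j') (E j - E j') j j' (1 : ι → kˣ)
    rwa [one_pow] at this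
  | mul x y _ _ hx hy => exact hx.mul hy
  | inv x _ hx => exact hx.inv hδ0'

end Pool.Agent.Helper8.PT
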