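import Pool.Agent.Helper8.PT.Teich
import Pool.Agent.Helper8.PT.Node

/-!
# The local image at a place where the curve is a ramified twist of one with good reduction
-/

set_option autoImplicit false

namespace Pool.Agent.Helper8.PT

universe u

open Module Pool.Agent.Helper47.BSD

/-- The value of the `x - T` map at the two-torsion class `(E j, 0) - ∞`. -/
def tc {R : Type u} [CommRing R] {ι : Type} [Fintype ι] [DecidableEq ι] (E : ι → R) (j i : ι) : R :=
  if i = j then ∏ l ∈ Finset.univ.erase j, (E j - E l) else E j - E i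

section

variable {R : Type u} [CommRing R] {ι : Type} [Fintype ι] [DecidableEq ι]

lemma tc_self (E : ι → R) (j : ι) : tc E j j = ∏ l ∈ Finset.univ.erase j, (E j - E l) := if_pos rfl

lemma tc_ne (E : ι → R) {j i : ι} (h : i ≠ j) : tc E j i = E j - E i := if_neg h

lemma tc_ne_zero [IsDomain R] {E : ι → R} (hE : ∀ i l, i ≠ l → E i ≠ E l) (j i : ι) :
    tc E j i ≠ 0 := by
  by_cases h : i = j
  · rw [h, tc_self]
    refine Finset.prod_ne_zero_iff.2 fun l hl => sub_ne_zero.2 (hE j l ?_)
    exact (Finset.ne_of_mem_erase hl).symm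
  · rw [tc_ne E h]
    exact sub_ne_zero.2 (hE j i (Ne.symm h))

lemma tc_map {R' : Type u} [CommRing R'] (f : R →+* R') (E : ι → R) (j i : ι) :
    f (tc E j i) = tc (fun i => f (E i)) j i := by
  by_cases h : i = j
  · rw [h, tc_self, tc_self, map_prod]
    exact Finset.prod_congr rfl fun l _ => map_sub _ _ _
  · rw [tc_ne E h, tc_ne _ h, map_sub]

end

variable {k : Type u} [NontriviallyNormedField k] [IsUltrametricDist k] [CompleteSpace k]
  {ι : Type} [Fintype ι] [DecidableEq ι]

/-- The local condition: membership in the subgroup generated by the two-torsion classes. -/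
def InfCond {k : Type u} [Field k] (E : ι → k) (d : ι → kˣ) : Prop :=
  ∃ a : ι → ℕ, ∀ i, IsSquare ((d i : k) * ∏ j, tc E j i ^ a j)

lemma InfCond.mul {k : Type u} [Field k] {E : ι → k} {d d' : ι → kˣ} (h : InfCond E d) (h' : InfCond E d') :
    InfCond E (d * d') := by
  obtain ⟨a, ha⟩ := h
  obtain ⟨b, hb⟩ := h'
  refine ⟨a + b, fun i => ?_⟩
  have h3 := (ha i).mul (hb i)
  have e1 : ((d * d') i : k) * ∏ j, tc E j i ^ (a + b) j =
      (d i : k) * (∏ j, tc E j i ^ a j) * ((d' i : k) * ∏ j, tc E j i ^ b j) := by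
    rw [Pi.mul_apply, Units.val_mul]
    have : ∏ j, tc E j i ^ (a + b) j = (∏ j, tc E j i ^ a j) * ∏ j, tc E j i ^ b j := by
      rw [← Finset.prod_mul_distrib]
      exact Finset.prod_congr rfl fun j _ => pow_add _ _ _
    rw [this]
    ring
  rw [e1]
  exact h3

lemma InfCond.inv {k : Type u} [Field k] {E : ι → k} {d : ι → kˣ} (h : InfCond E d) : InfCond E d⁻¹ := by
  obtain ⟨a, ha⟩ := h
  refine ⟨a, fun i => ?_⟩
  obtain ⟨s, hs⟩ := ha i
  have h0 := (d i).ne_zero
  refine ⟨s / d i, ?_⟩
  rw [Pi.inv_apply, Units.val_inv_eq_inv_val]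
  field_simp
  linear_combination hs

lemma InfCond.sq {k : Type u} [Field k] (E : ι → k) (c : ι → kˣ) : InfCond E (c ^ 2) :=
  ⟨0, fun i => ⟨c i, by simp [pow_two]⟩⟩

lemma infCond_of_single {k : Type u} [Field k] {E : ι → k} {d : ι → kˣ} (j : ι) (m : ℕ)
    (h : ∀ i, IsSquare ((d i : k) * tc E j i ^ m)) : InfCond E d := by
  refine ⟨fun l => if l = j then m else 0, fun i => ?_⟩
  rw [Finset.prod_eq_single j]
  · simpa using h i
  · intro l _ hl
    simp [hl]
  · intro h
    exact absurd (Finset.mem_univ j) h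

variable {L : Type u} [Field L] [Algebra k L] [FiniteDimensional k L]

/-- Norms from a field which contains the square root of an element of odd order. -/
theorem ram_norm (h2 : ‖(2 : k)‖ = 1) (T : k) (hT : 1 < ‖T‖)
    (hval : ∀ z : k, z ≠ 0 → ∃ m : ℤ, ‖z‖ = ‖T‖ ^ m) {κ : k} {o : ℤ} (ho : Odd o)
    (hκ : ‖κ‖ = ‖T‖ ^ o) {s : L} (hs : s ^ 2 = algebraMap k L κ) (w : L) (hw : w ≠ 0) :
    IsSquare (Algebra.norm k w) ∨ IsSquare (Algebra.norm k w * -κ) := by
  have hT0 : 0 < ‖T‖ := one_pos.trans hT
  have hκ0 : κ ≠ 0 := by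
    rintro rfl
    rw [norm_zero] at hκ
    exact (zpow_pos hT0 o).ne hκ
  have hnsq : ¬ IsSquare κ := by
    rintro ⟨c, hc⟩
    have hc0 : c ≠ 0 := by
      rintro rfl
      exact hκ0 (by rw [hc, mul_zero])
    obtain ⟨m, hm⟩ := hval c hc0
    rw [hc, norm_mul, hm, ← zpow_add₀ hT0.ne'] at hκ
    have h3 := zpow_right_injective₀ hT0 hT.ne' hκ
    obtain ⟨t, ht⟩ := ho
    omega
  have hfr := finrank_adjoin_sqrt hnsq hs
  let K' := IntermediateField.adjoin k {s}
  let w' : K' := Algebra.norm K' w
  have hw' : w' ≠ 0 := Algebra.norm_ne_zero_iff.2 hw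
  have h3 : Algebra.norm k w = Algebra.norm k w' := (Algebra.norm_norm).symm
  obtain ⟨a, b, hab⟩ := exists_add_mul hs w'
  let s' : K' := ⟨s, IntermediateField.mem_adjoin_simple_self k s⟩
  have hs' : s' ^ 2 = algebraMap k K' κ := Subtype.ext hs
  have hab' : w' = algebraMap k K' a + algebraMap k K' b * s' := Subtype.ext hab
  have hNs : Algebra.norm k s' = -κ := by
    have hint : IsIntegral k s := Algebra.IsIntegral.isIntegral s
    have h5 : s' = IntermediateField.AdjoinSimple.gen k s := rfl
    have h6 : minpoly k s = Polynomial.X ^ 2 - Polynomial.C κ := by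
      symm
      refine minpoly.eq_of_irreducible_of_monic ?_ (by simp [hs])
        (Polynomial.monic_X_pow_sub_C κ two_ne_zero)
      have hd : (minpoly k s).natDegree = 2 := by
        rw [← IntermediateField.adjoin.finrank hint, hfr]
      have hdvd : minpoly k s ∣ Polynomial.X ^ 2 - Polynomial.C κ := minpoly.dvd k s (by simp [hs])
      have heq : minpoly k s = Polynomial.X ^ 2 - Polynomial.C κ :=
        (Polynomial.eq_of_monic_of_dvd_of_natDegree_le (minpoly.monic hint)
          (Polynomial.monic_X_pow_sub_C κ two_ne_zero) hdvd (by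
            rw [hd, Polynomial.natDegree_X_pow_sub_C])).symm
      rw [← heq]
      exact minpoly.irreducible hint
    rw [h5, ← IntermediateField.adjoin.powerBasis_gen hint,
      Algebra.PowerBasis.norm_gen_eq_coeff_zero_minpoly, IntermediateField.adjoin.powerBasis_gen,
      IntermediateField.minpoly_gen, h6, IntermediateField.adjoin.powerBasis_dim, h6]
    simp
  have habs : specAbs k K' s' ^ 2 = ‖T‖ ^ o := by
    rw [← map_pow, hs', specAbs_algebraMap, hκ]
  have hsN0 : specAbs k K' s' ≠ 0 := by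
    intro h0
    rw [h0, zero_pow two_ne_zero] at habs
    exact (zpow_pos hT0 o).ne habs
  have haN : specAbs k K' (algebraMap k K' a) = ‖a‖ := specAbs_algebraMap a
  have hbN : specAbs k K' (algebraMap k K' b * s') = ‖b‖ * specAbs k K' s' := by
    rw [map_mul, specAbs_algebraMap]
  rw [h3]
  rcases lt_trichotomy ‖a‖ (‖b‖ * specAbs k K' s') with h | h | h
  · right
    obtain ⟨z, hz0, hz⟩ := exists_sq_mul (L := K') h2 (x := w') (y := algebraMap k K' b * s') (by
      rw [hab', add_sub_cancel_right, haN, hbN]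
      exact h)
    rw [hz, map_mul, map_mul, map_pow, Algebra.norm_algebraMap, hfr, hNs]
    exact ⟨b * κ * Algebra.norm k z, by ring⟩
  · exfalso
    have hb0 : b ≠ 0 := by
      rintro rfl
      rw [norm_zero, zero_mul, norm_eq_zero] at h
      rw [h, map_zero, zero_mul, add_zero] at hab'
      exact hw' hab'
    have ha0 : a ≠ 0 := by
      rintro rfl
      rw [norm_zero] at h
      exact (mul_pos (norm_pos_iff.2 hb0) (lt_of_le_of_ne ((specAbs k K').nonneg _)
        hsN0.symm)).ne h
    obtain ⟨m, hm⟩ := hval a ha0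
    obtain ⟨m', hm'⟩ := hval b hb0
    have h4 := congrArg (fun t => t ^ 2) h
    simp only [mul_pow, habs, hm, hm'] at h4
    rw [← zpow_natCast, ← zpow_natCast, ← zpow_mul, ← zpow_mul, ← zpow_add₀ hT0.ne'] at h4
    have h5 := zpow_right_injective₀ hT0 hT.ne' h4
    obtain ⟨t, ht⟩ := ho
    push_cast at h5
    omega
  · left
    obtain ⟨z, hz0, hz⟩ := exists_sq_mul (L := K') h2 (x := w') (y := algebraMap k K' a) (by
      rw [hab', add_sub_cancel_left, haN, hbN]
      exact h)
    rw [hz, map_mul, map_pow, Algebra.norm_algebraMap, hfr]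
    exact ⟨a * Algebra.norm k z, by ring⟩

variable {F : Type u} [Field F] [Finite F] (p : ℕ) [CharP k p]

/-- Norms of elements whose absolute value is that of an element of `k`, from a field in which `T`
has even order. -/
lemma norm_sq_of_even (hp : p.Prime) (h2 : ‖(2 : k)‖ = 1) (φ : F →+* k)
    (hres : ∀ x : k, ‖x‖ ≤ 1 → ∃ c : F, ‖x - φ c‖ < 1) (T : k) (hT : 1 < ‖T‖)
    (hval : ∀ z : k, z ≠ 0 → ∃ m : ℤ, ‖z‖ = ‖T‖ ^ m) {o : ℤ} (ho : Odd o) (y : L)
    (hy : specAbs k L y ^ 2 = ‖T‖ ^ o) :
    Even (finrank k L) ∧ ∀ (x : L) (c : k), c ≠ 0 → specAbs k L x = ‖c‖ →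
      IsSquare (Algebra.norm k x) := by
  have hT0 : 0 < ‖T‖ := one_pos.trans hT
  obtain ⟨h, hh⟩ := ho
  let s : L := y * algebraMap k L (T ^ (-h))
  have hs : specAbs k L s ^ 2 = ‖T‖ := by
    rw [map_mul, specAbs_algebraMap, norm_zpow, mul_pow, hy, hh, ← zpow_natCast (‖T‖ ^ (-h)),
      ← zpow_mul, ← zpow_add₀ hT0.ne']
    have : 2 * h + 1 + -h * ((2 : ℕ) : ℤ) = 1 := by push_cast; ring
    rw [this, zpow_one]
  have heven : Even (finrank k L) :=
    (unit_norm_sq (L := L) p hp h2 φ hres T hT hval s hs 1 (map_one _)).1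
  refine ⟨heven, fun x c hc hx => ?_⟩
  have hw : specAbs k L (x * algebraMap k L c⁻¹) = 1 := by
    rw [map_mul, specAbs_algebraMap, hx, norm_inv, mul_inv_cancel₀ (norm_ne_zero_iff.2 hc)]
  have h3 := (unit_norm_sq (L := L) p hp h2 φ hres T hT hval s hs _ hw).2
  have h4 : x = x * algebraMap k L c⁻¹ * algebraMap k L c := by
    rw [mul_assoc, ← map_mul, inv_mul_cancel₀ hc, map_one, mul_one]
  rw [h4, map_mul, Algebra.norm_algebraMap]
  exact h3.mul (heven.isSquare_pow _)

omit [Finite F] [Fintype ι] [DecidableEq ι] [CompleteSpace k] [IsUltrametricDist k]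
  [FiniteDimensional k L] in
lemma isSquare_norm_mul {x : L} {c : k} (h : ∃ z : L, x = algebraMap k L c * z ^ 2) :
    IsSquare (Algebra.norm k x * c ^ finrank k L) := by
  obtain ⟨z, rfl⟩ := h
  rw [map_mul, map_pow, Algebra.norm_algebraMap]
  exact ⟨c ^ finrank k L * Algebra.norm k z, by ring⟩

/-- The class of a point whose coordinates are congruent to those of a branch point. -/
lemma inf_branch (h2 : ‖(2 : k)‖ = 1) {E : ι → k} (hEne : ∀ i l, i ≠ l → E i ≠ E l)
    {X : ι → L} (hX0 : ∀ i, X i ≠ 0) {y : L} (hy : y ≠ 0) (hxy : y ^ 2 = ∏ i, X i) (j : ι)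
    (hsq : ∀ i, i ≠ j → ∃ z : L, z ≠ 0 ∧ X i = algebraMap k L (E j - E i) * z ^ 2) :
    ∃ m : ℕ, ∀ i, IsSquare (Algebra.norm k (X i) * tc E j i ^ m) := by
  choose! z hz0 hz using hsq
  refine ⟨finrank k L, fun i => isSquare_norm_mul ?_⟩
  by_cases hi : i = j
  · rw [hi, tc_self]
    have hZ0 : (∏ l ∈ Finset.univ.erase j, z l) ≠ 0 :=
      Finset.prod_ne_zero_iff.2 fun l hl => hz0 l (Finset.ne_of_mem_erase hl)
    set τ := ∏ l ∈ Finset.univ.erase j, (E j - E l) with hτ
    have hτ0 : algebraMap k L τ ≠ 0 := by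
      rw [Ne, map_eq_zero]
      exact Finset.prod_ne_zero_iff.2 fun l hl =>
        sub_ne_zero.2 (hEne j l (Finset.ne_of_mem_erase hl).symm)
    have h3 : ∏ l ∈ Finset.univ.erase j, X l =
        algebraMap k L τ * (∏ l ∈ Finset.univ.erase j, z l) ^ 2 := by
      rw [hτ, map_prod, ← Finset.prod_pow, ← Finset.prod_mul_distrib]
      exact Finset.prod_congr rfl fun l hl => hz l (Finset.ne_of_mem_erase hl)
    have h4 : y ^ 2 = X j * (algebraMap k L τ * (∏ l ∈ Finset.univ.erase j, z l) ^ 2) := by
      rw [← h3, hxy]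
      exact (Finset.mul_prod_erase Finset.univ X (Finset.mem_univ j)).symm
    refine ⟨y / (algebraMap k L τ * ∏ l ∈ Finset.univ.erase j, z l), ?_⟩
    field_simp
    linear_combination -h4
  · rw [tc_ne E hi]
    exact ⟨z i, hz i hi⟩

omit [CompleteSpace k] [IsUltrametricDist k] in
lemma infCond_zero {E : ι → k} {f : ι → k} (h : ∀ i, IsSquare (f i)) :
    ∃ a : ι → ℕ, ∀ i, IsSquare (f i * ∏ j, tc E j i ^ a j) :=
  ⟨0, fun i => by simpa using h i⟩

omit [CompleteSpace k] [IsUltrametricDist k] in
lemma infCond_single {E : ι → k} {f : ι → k} (j : ι) (m : ℕ)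
    (h : ∀ i, IsSquare (f i * tc E j i ^ m)) :
    ∃ a : ι → ℕ, ∀ i, IsSquare (f i * ∏ j, tc E j i ^ a j) := by
  refine ⟨fun l => if l = j then m else 0, fun i => ?_⟩
  rw [Finset.prod_eq_single j]
  · simpa using h i
  · intro l _ hl
    simp [hl]
  · intro h
    exact absurd (Finset.mem_univ j) h

omit [CompleteSpace k] [IsUltrametricDist k] in
lemma infCond_pair {E : ι → k} {f : ι → k} {j j' : ι} (hj : j ≠ j')
    (h : ∀ i, IsSquare (f i * (tc E j i * tc E j' i))) :
    ∃ a : ι → ℕ, ∀ i, IsSquare (f i * ∏ j, tc E j i ^ a j) := by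
  refine ⟨fun l => if l = j ∨ l = j' then 1 else 0, fun i => ?_⟩
  rw [prod_eq_others _ hj, Finset.prod_eq_one]
  · simpa [hj] using h i
  · intro l hl
    rw [mem_others] at hl
    simp [hl.1, hl.2]

theorem inf_point (hp : p.Prime) (h2 : ‖(2 : k)‖ = 1) (φ : F →+* k)
    (hres : ∀ x : k, ‖x‖ ≤ 1 → ∃ c : F, ‖x - φ c‖ < 1) (T : k) (hT : 1 < ‖T‖)
    (hval : ∀ z : k, z ≠ 0 → ∃ m : ℤ, ‖z‖ = ‖T‖ ^ m) (hodd : Odd (Fintype.card ι)) {E : ι → k}
    {o : ℤ} (ho : Odd o) {j j' : ι} (hj : j ≠ j')
    (hE : ∀ i l, i ≠ l → ¬ (i = j ∧ l = j') → ¬ (i = j' ∧ l = j) → ‖E i - E l‖ = ‖T‖ ^ o)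
    (hδ : ‖E j - E j'‖ ≤ ‖T‖ ^ o) (hδ0 : E j ≠ E j') (x y : L) (hy : y ≠ 0)
    (hxy : y ^ 2 = ∏ i, (x - algebraMap k L (E i))) :
    ∃ a : ι → ℕ, ∀ i, IsSquare (Algebra.norm k (x - algebraMap k L (E i)) *
      ∏ j, tc E j i ^ a j) := by
  set N := specAbs k L with hN
  set X : ι → L := fun i => x - algebraMap k L (E i) with hX
  have hXX : ∀ i l, X i - X l = algebraMap k L (E l - E i) := fun i l => by
    simp only [hX, map_sub]
    ring
  have hNE : ∀ c : k, N (algebraMap k L c) = ‖c‖ := fun c => specAbs_algebraMap c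
  have hX0 : ∀ i, X i ≠ 0 := fun i h => pow_ne_zero 2 hy (by
    rw [hxy]
    exact Finset.prod_eq_zero (Finset.mem_univ i) h)
  have hT0 : 0 < ‖T‖ := one_pos.trans hT
  have hTne : T ≠ 0 := norm_pos_iff.1 hT0
  set R := ‖T‖ ^ o with hR
  have hR0 : 0 < R := zpow_pos hT0 o
  have hRT : ‖T ^ o‖ = R := norm_zpow T o
  have hEne : ∀ i l, i ≠ l → E i ≠ E l := by
    intro i l hil h
    by_cases ha : i = j ∧ l = j'
    · rw [ha.1, ha.2] at h
      exact hδ0 h
    · by_cases hb : i = j' ∧ l = j
      · rw [hb.1, hb.2] at h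
        exact hδ0 h.symm
      · have h3 := hE i l hil ha hb
        rw [h, sub_self, norm_zero] at h3
        exact hR0.ne h3
  have hEle : ∀ i l, ‖E i - E l‖ ≤ R := by
    intro i l
    by_cases hil : i = l
    · rw [hil, sub_self, norm_zero]
      exact hR0.le
    · by_cases ha : i = j ∧ l = j'
      · rw [ha.1, ha.2]
        exact hδ
      · by_cases hb : i = j' ∧ l = j
        · rw [hb.1, hb.2, norm_sub_rev]
          exact hδ
        · exact (hE i l hil ha hb).le
  have hyN : N y ^ 2 = ∏ i, N (X i) := by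
    rw [← map_pow, hxy, map_prod]
  change ∃ a : ι → ℕ, ∀ i, IsSquare (Algebra.norm k (X i) * ∏ j, tc E j i ^ a j)
  by_cases hbig : ∃ j, R < N (X j)
  · -- the point reduces to infinity
    refine infCond_zero ?_
    obtain ⟨j, hj⟩ := hbig
    have hsq : ∀ i, ∃ z : L, z ≠ 0 ∧ X i = X j * z ^ 2 := fun i => exists_sq_mul h2 (by
      rw [hXX]
      change N _ < N _
      rw [hNE]
      exact (hEle _ _).trans_lt hj)
    choose z hz0 hz using hsq
    obtain ⟨m, hm⟩ := hodd
    have hy2 : y ^ 2 = X j ^ (2 * m + 1) * (∏ i, z i) ^ 2 := by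
      rw [hxy, ← Finset.prod_pow, ← hm]
      have h3 : ∏ i, (x - algebraMap k L (E i)) = ∏ i, X j * z i ^ 2 :=
        Finset.prod_congr rfl fun i _ => hz i
      rw [h3, Finset.prod_mul_distrib, Finset.prod_const, Finset.card_univ]
    have hZ0 : (∏ i, z i) ≠ 0 := Finset.prod_ne_zero_iff.2 fun i _ => hz0 i
    have hXj : X j = (y / (X j ^ m * ∏ i, z i)) ^ 2 := by
      have h4 := hX0 j
      rw [div_pow, eq_div_iff (pow_ne_zero 2 (mul_ne_zero (pow_ne_zero m h4) hZ0)), hy2]
      ring
    intro i
    rw [hz i, hXj, ← mul_pow, map_pow]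
    exact ⟨_, pow_two _⟩
  push Not at hbig
  by_cases hsmall : ∃ a, N (X a) < R ∧ ∀ l, l ≠ a → ‖E a - E l‖ = R
  · -- the point reduces to a simple branch point
    obtain ⟨a, ha, hal⟩ := hsmall
    obtain ⟨m, hm⟩ := inf_branch h2 hEne hX0 hy hxy a (fun i hi => exists_sq_mul h2 (by
      rw [← hXX i a, sub_sub_cancel, hXX]
      change N _ < N _
      rw [hNE, hal i hi]
      exact ha))
    exact infCond_single a m hm
  push Not at hsmall
  have hothers : ∀ i, i ≠ j → i ≠ j' → N (X i) = R := by
    intro i hi hi'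
    refine le_antisymm (hbig i) ?_
    by_contra hlt
    push Not at hlt
    obtain ⟨l, hl, hl'⟩ := hsmall i hlt
    exact hl' (hE i l hl.symm (fun h => hi h.1) (fun h => hi' h.1))
  by_cases hcol : N (X j) < R ∨ N (X j') < R
  · -- the point reduces to the double branch point
    have hδlt : ‖E j - E j'‖ < R := by
      refine lt_of_le_of_ne hδ fun hδeq => ?_
      have hall : ∀ a, (a = j ∨ a = j') → ∀ l, l ≠ a → ‖E a - E l‖ = R := by
        rintro a (rfl | rfl) l hl
        · by_cases hl' : l = j'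
          · rw [hl']
            exact hδeq
          · exact hE a l hl.symm (fun h => hl' h.2) (fun h => hj h.1)
        · by_cases hl' : l = j
          · rw [hl', norm_sub_rev]
            exact hδeq
          · exact hE a l hl.symm (fun h => hj h.1.symm) (fun h => hl' h.2)
      rcases hcol with h | h
      · obtain ⟨l, hl, hl'⟩ := hsmall j h
        exact hl' (hall j (Or.inl rfl) l hl)
      · obtain ⟨l, hl, hl'⟩ := hsmall j' h
        exact hl' (hall j' (Or.inr rfl) l hl)
    have hboth : N (X j) < R ∧ N (X j') < R := by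
      have h3 : X j' = X j + algebraMap k L (E j - E j') := by rw [← hXX]; ring
      have h4 : X j = X j' + -algebraMap k L (E j - E j') := by rw [← hXX]; ring
      rcases hcol with h | h
      · refine ⟨h, ?_⟩
        rw [h3]
        refine (specAbs_add_le _ _).trans_lt (max_lt h ?_)
        change N _ < R
        rw [hNE]
        exact hδlt
      · refine ⟨?_, h⟩
        rw [h4]
        refine (specAbs_add_le _ _).trans_lt (max_lt h ?_)
        change N _ < R
        rw [AbsoluteValue.map_neg, hNE]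
        exact hδlt
    have hEj : ∀ i ∈ others j j', ‖E j - E i‖ = R := fun i hi => by
      rw [mem_others] at hi
      exact hE j i hi.2.symm (fun h => hi.1 h.2) (fun h => hj h.1)
    have hEj' : ∀ i ∈ others j j', ‖E j' - E i‖ = R := fun i hi => by
      rw [mem_others] at hi
      exact hE j' i hi.1.symm (fun h => hj h.1.symm) (fun h => hi.2 h.2)
    have hsqj : ∀ i ∈ others j j', ∃ z : L, z ≠ 0 ∧ X i = algebraMap k L (E j - E i) * z ^ 2 :=
      fun i hi => exists_sq_mul h2 (by
        rw [← hXX i j, sub_sub_cancel, hXX]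
        change N _ < N _
        rw [hNE, hEj i hi]
        exact hboth.1)
    have hsqj' : ∀ i ∈ others j j', ∃ z : L, z ≠ 0 ∧ X i = algebraMap k L (E j' - E i) * z ^ 2 :=
      fun i hi => exists_sq_mul h2 (by
        rw [← hXX i j', sub_sub_cancel, hXX]
        change N _ < N _
        rw [hNE, hEj' i hi]
        exact hboth.2)
    -- the product of the two small coordinates
    have hprod : ∃ w : L, w ≠ 0 ∧ X j * X j' = algebraMap k L (kap E j j') * w ^ 2 := by
      choose! z hz0 hz using hsqj
      have hZ0 : (∏ i ∈ others j j', z i) ≠ 0 := Finset.prod_ne_zero_iff.2 fun i hi => hz0 i hi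
      have hκ : algebraMap k L (kap E j j') * (∏ i ∈ others j j', z i) ^ 2 =
          ∏ i ∈ others j j', X i := by
        rw [kap, map_prod, ← Finset.prod_pow, ← Finset.prod_mul_distrib]
        exact Finset.prod_congr rfl fun i hi => (hz i hi).symm
      have hκ0 : algebraMap k L (kap E j j') ≠ 0 := by
        intro h
        rw [h, zero_mul] at hκ
        exact Finset.prod_ne_zero_iff.2 (fun i _ => hX0 i) hκ.symm
      have hy2 : y ^ 2 = X j * X j' *
          (algebraMap k L (kap E j j') * (∏ i ∈ others j j', z i) ^ 2) := by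
        rw [hκ, hxy]
        exact prod_eq_others X hj
      refine ⟨y / (algebraMap k L (kap E j j') * ∏ i ∈ others j j', z i),
        div_ne_zero hy (mul_ne_zero hκ0 hZ0), ?_⟩
      field_simp
      linear_combination -hy2
    obtain ⟨w, hw0, hw⟩ := hprod
    have hκN : ‖kap E j j'‖ = ‖T‖ ^ (o * (others j j').card) := by
      rw [kap, norm_prod, Finset.prod_congr rfl hEj, Finset.prod_const, hR, ← zpow_natCast,
        ← zpow_mul]
    have hcard : Odd (((others j j').card : ℕ) : ℤ) := by
      have h5 : (others j j').card = Fintype.card ι - 1 - 1 := by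
        rw [others, Finset.card_erase_of_mem (by simp [hj.symm]),
          Finset.card_erase_of_mem (Finset.mem_univ _), Finset.card_univ]
      have h6 : 1 < Fintype.card ι := Fintype.one_lt_card_iff.2 ⟨_, _, hj⟩
      obtain ⟨m, hm⟩ := hodd
      rw [h5]
      exact_mod_cast (⟨m - 1, by omega⟩ : Odd (Fintype.card ι - 1 - 1))
    have hκodd : Odd (o * ((others j j').card : ℤ)) := ho.mul hcard
    have hδpos : 0 < ‖E j - E j'‖ := norm_pos_iff.2 (sub_ne_zero.2 hδ0)
    have hX' : X j' - X j = algebraMap k L (E j - E j') := hXX _ _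
    rcases lt_trichotomy (N (X j)) ‖E j - E j'‖ with hd | hd | hd
    · -- close to `E j`
      obtain ⟨m, hm⟩ := inf_branch h2 hEne hX0 hy hxy j (fun i hi => by
        by_cases hi' : i = j'
        · rw [hi']
          exact exists_sq_mul h2 (by
            rw [← hX', sub_sub_cancel, hX']
            change N _ < N _
            rw [hNE]
            exact hd)
        · exact hsqj i (mem_others.2 ⟨hi', hi⟩))
      exact infCond_single j m hm
    · have hle' : N (X j') ≤ ‖E j - E j'‖ := by
        have h3 : X j' = X j + algebraMap k L (E j - E j') := by rw [← hXX]; ring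
        rw [h3]
        refine (specAbs_add_le _ _).trans (max_le hd.le ?_)
        change N _ ≤ _
        rw [hNE]
      rcases hle'.lt_or_eq with hd' | hd'
      · -- close to `E j'`
        obtain ⟨m, hm⟩ := inf_branch h2 hEne hX0 hy hxy j' (fun i hi => by
          by_cases hi' : i = j
          · rw [hi']
            exact exists_sq_mul h2 (by
              rw [← hXX j j', sub_sub_cancel, hXX]
              change N _ < N _
              rw [hNE, norm_sub_rev]
              exact hd')
          · exact hsqj' i (mem_others.2 ⟨hi, hi'⟩))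
        exact infCond_single j' m hm
      · -- equal absolute values
        have hsN : N ((X j) / w) ^ 2 = ‖T‖ ^ (o * ((others j j').card : ℤ)) := by
          have h5 := congrArg N hw
          rw [map_mul, map_mul, map_pow, hNE, hκN, hd, hd'] at h5
          rw [map_div₀, div_pow, hd, div_eq_iff (pow_ne_zero 2 (N.ne_zero hw0)), ← h5, pow_two]
        obtain ⟨heven, hall⟩ := norm_sq_of_even (L := L) p hp h2 φ hres T hT hval hκodd _ hsN
        refine infCond_zero fun i => ?_
        by_cases hi : i = j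
        · rw [hi]
          exact hall _ _ (sub_ne_zero.2 hδ0) hd
        · by_cases hi' : i = j'
          · rw [hi']
            exact hall _ _ (sub_ne_zero.2 hδ0) hd'
          · exact hall _ _ (zpow_ne_zero o hTne) ((hothers i hi hi').trans hRT.symm)
    · -- far from both
      obtain ⟨s, hs0, hs⟩ := exists_sq_mul (L := L) h2 (x := X j') (y := X j) (by
        rw [hX']
        change N _ < N _
        rw [hNE]
        exact hd)
      have hsκ : (X j * s / w) ^ 2 = algebraMap k L (kap E j j') := by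
        rw [hs] at hw
        rw [div_pow, div_eq_iff (pow_ne_zero 2 hw0), ← hw]
        ring
      have hsN : N (X j * s / w) ^ 2 = ‖T‖ ^ (o * ((others j j').card : ℤ)) := by
        rw [← map_pow, hsκ, hNE, hκN]
      obtain ⟨heven, hall⟩ := norm_sq_of_even (L := L) p hp h2 φ hres T hT hval hκodd _ hsN
      have hoth : ∀ i, i ≠ j → i ≠ j' → IsSquare (Algebra.norm k (X i)) := fun i hi hi' =>
        hall _ _ (zpow_ne_zero o hTne) ((hothers i hi hi').trans hRT.symm)
      rcases ram_norm (L := L) h2 T hT hval hκodd hκN hsκ (X j) (hX0 j) with hsq | hsq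
      · refine infCond_zero fun i => ?_
        by_cases hi : i = j
        · rw [hi]
          exact hsq
        · by_cases hi' : i = j'
          · rw [hi', hs, map_mul, map_pow]
            exact hsq.mul ⟨Algebra.norm k s, pow_two _⟩
          · exact hoth i hi hi'
      · refine infCond_pair hj fun i => ?_
        have htj : tc E j j = (E j - E j') * kap E j j' := by
          rw [tc_self, kap, others]
          exact (Finset.mul_prod_erase (Finset.univ.erase j) (fun l => E j - E l)
            (by simp [hj.symm])).symm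
        have htj' : tc E j' j' = (E j' - E j) * ∏ l ∈ others j j', (E j' - E l) := by
          rw [tc_self, others, Finset.erase_right_comm]
          exact (Finset.mul_prod_erase (Finset.univ.erase j') (fun l => E j' - E l)
            (by simp [hj])).symm
        have hnear : ∀ l ∈ others j j', ∃ z : k, z ≠ 0 ∧ E j' - E l = (E j - E l) * z ^ 2 := by
          intro l hl
          refine exists_sq_mul_base h2 ?_
          have e1 : E j' - E l - (E j - E l) = -(E j - E j') := by ring
          rw [e1, norm_neg, hEj l hl]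
          exact hδlt
        choose! z hz0 hz using hnear
        have hκ' : ∏ l ∈ others j j', (E j' - E l) =
            kap E j j' * (∏ l ∈ others j j', z l) ^ 2 := by
          rw [kap, ← Finset.prod_pow, ← Finset.prod_mul_distrib]
          exact Finset.prod_congr rfl hz
        obtain ⟨r, hr⟩ := hsq
        by_cases hi : i = j
        · rw [hi, htj, tc_ne E hj]
          exact ⟨r * (E j - E j'), by linear_combination (E j - E j') ^ 2 * hr⟩
        · by_cases hi' : i = j'
          · rw [hi', htj', tc_ne E hj.symm, hs, map_mul, map_pow, hκ']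
            exact ⟨r * (E j - E j') * Algebra.norm k s * ∏ l ∈ others j j', z l, by
              linear_combination ((E j - E j') * Algebra.norm k s *
                ∏ l ∈ others j j', z l) ^ 2 * hr⟩
          · rw [tc_ne E hi, tc_ne E hi', hz i (mem_others.2 ⟨hi', hi⟩)]
            exact (hoth i hi hi').mul ⟨(E j - E i) * z i, by ring⟩
  · -- all values equal
    push Not at hcol
    have hall : ∀ i, N (X i) = R := by
      intro i
      by_cases hi : i = j
      · rw [hi]
        exact le_antisymm (hbig j) hcol.1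
      · by_cases hi' : i = j'
        · rw [hi']
          exact le_antisymm (hbig j') hcol.2
        · exact hothers i hi hi'
    have hoc : Odd (o * (Fintype.card ι : ℤ)) := ho.mul (by exact_mod_cast hodd)
    have hyR : N y ^ 2 = ‖T‖ ^ (o * (Fintype.card ι : ℤ)) := by
      rw [hyN, Finset.prod_congr rfl fun i _ => hall i, Finset.prod_const, Finset.card_univ, hR,
        ← zpow_natCast, ← zpow_mul]
    obtain ⟨-, hsq⟩ := norm_sq_of_even (L := L) p hp h2 φ hres T hT hval hoc _ hyR
    exact infCond_zero fun i => hsq _ _ (zpow_ne_zero o hTne) ((hall i).trans hRT.symm)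

/-- Elements of the local descent group satisfy the local condition. -/
theorem inf_cond (hp : p.Prime) (h2 : ‖(2 : k)‖ = 1) (φ : F →+* k)
    (hres : ∀ x : k, ‖x‖ ≤ 1 → ∃ c : F, ‖x - φ c‖ < 1) (T : k) (hT : 1 < ‖T‖)
    (hval : ∀ z : k, z ≠ 0 → ∃ m : ℤ, ‖z‖ = ‖T‖ ^ m) (hodd : Odd (Fintype.card ι)) {E : ι → k}
    {o : ℤ} (ho : Odd o) {j j' : ι} (hj : j ≠ j')
    (hE : ∀ i l, i ≠ l → ¬ (i = j ∧ l = j') → ¬ (i = j' ∧ l = j) → ‖E i - E l‖ = ‖T‖ ^ o)
    (hδ : ‖E j - E j'‖ ≤ ‖T‖ ^ o) (hδ0 : E j ≠ E j') {d : ι → kˣ}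
    (hd : d ∈ descentGroup 2 (fun _ => 1) E) : InfCond E d := by
  induction hd using Subgroup.closure_induction with
  | mem d hd =>
    rcases hd with ⟨L, _, _, _, x, y, hy, hxy, hd⟩ | ⟨c, rfl⟩
    · have hxy' : y ^ 2 = ∏ i, (x - algebraMap k L (E i)) := by
        rw [hxy]
        exact Finset.prod_congr rfl fun i _ => pow_one _
      obtain ⟨a, ha⟩ := inf_point (L := L) p hp h2 φ hres T hT hval hodd ho hj hE hδ hδ0 x y hy hxy'
      exact ⟨a, fun i => by
        rw [hd i]
        exact ha i⟩
    · exact InfCond.sq E c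
  | one =>
    have := InfCond.sq E (1 : ι → kˣ)
    rwa [one_pow] at this
  | mul x y _ _ hx hy => exact hx.mul hy
  | inv x _ hx => exact hx.inv

omit [DecidableEq ι] in
/-- The product of the components of an element of the descent group is a square. -/
theorem prod_isSquare {k : Type u} [Field k] {E : ι → k} {d : ι → kˣ} (hd : d ∈ descentGroup 2 (fun _ => 1) E) :
    IsSquare (∏ i, (d i : k)) := by
  induction hd using Subgroup.closure_induction with
  | mem d hd =>
    rcases hd with ⟨L, _, _, _, x, y, hy, hxy, hd⟩ | ⟨c, rfl⟩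
    · refine ⟨Algebra.norm k y, ?_⟩
      rw [Finset.prod_congr rfl fun i _ => hd i, ← map_prod, ← map_mul, ← pow_two, hxy]
      simp only [pow_one]
    · refine ⟨∏ i, (c i : k), ?_⟩
      rw [← Finset.prod_mul_distrib]
      exact Finset.prod_congr rfl fun i _ => by simp [pow_two]
  | one => exact ⟨1, by simp⟩
  | mul x y _ _ hx hy =>
    have := hx.mul hy
    rw [← Finset.prod_mul_distrib] at this
    simpa using this
  | inv x _ hx =>
    obtain ⟨s, hs⟩ := hx
    refine ⟨s⁻¹, ?_⟩
    rw [← mul_inv, ← hs, ← Finset.prod_inv_distrib]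
    exact Finset.prod_congr rfl fun i _ => by simp

end Pool.Agent.Helper8.PT
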