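import Pool.Agent.Helper83.PT.St7

set_option autoImplicit false

namespace Pool.Agent.Helper83.PT.Helper8

open Pool.Agent.Helper73.DC
open Finset
open scoped Classical

theorem stepT {α : Type} {M : MPDA α} {w : List α} {t : ℕ} {u : Bool} {q : M.Q} {p : Fin M.k → ℕ}
    {Z : M.Γ} {s : List M.Γ} {c : Bool × M.Q × (Fin M.k → ℕ) × List M.Γ} (q' : M.Q)
    (d : Fin M.k → Mv) (γ : List M.Γ)
    (h : M.tr q Z (fun j => symAt w (p j)) = some (q', d, γ)) (t' : ℕ) (u1 : Bool)
    (p1 : Fin M.k → ℕ) (s1 : List M.Γ) (ht : t' = tu γ u + t) (hu : u1 = fl γ u)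
    (hp : p1 = nps w d p) (hs : s1 = γ ++ s) (hr : TRun M w t (u1, q', p1, s1) c) :
    TRun M w t' (u, q, p, Z :: s) c := by
  subst ht hu hp hs
  exact TRun.step t u q q' p d Z s γ c h hr

theorem fl1 {Γ : Type} (Z : Γ) (u : Bool) : u = fl [Z] u := by simp [fl]

theorem tu1 {Γ : Type} (Z : Γ) (u : Bool) (t : ℕ) : t = tu [Z] u + t := by simp [tu]

theorem symAt_ch {α : Type} (w : List α) (i : ℕ) (a : α) (hi : 1 ≤ i) (h : w[i - 1]? = some a) :
    symAt w i = Sym.ch a := by
  unfold symAt
  rw [if_neg (by omega), h]

theorem symAt_rm {α : Type} (w : List α) (i : ℕ) (hi : i = w.length + 1) :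
    symAt w i = Sym.rm := by
  unfold symAt
  have h : w[i - 1]? = none := List.getElem?_eq_none (by omega)
  rw [if_neg (by omega), h]

theorem main {α : Type} [Fintype α] (M : DPDA α) (w : List α) (t : ℕ)
    (c c' : Bool × M.Q × List α × List M.Γ) (h : DRun M t c c') : c'.2.2.1 = [] →
    ∀ (e : Bool) (p : Fin 1 → ℕ), 1 ≤ p 0 → p 0 ≤ w.length + 1 → c.2.2.1 = w.drop (p 0 - 1) →
    (e = true ↔ p 0 = w.length + 1) →
    ∃ p', TRun (mpd M) w t (c.1, ((c.2.1, none), e), p, c.2.2.2)
      (c'.1, ((c'.2.1, none), true), p', c'.2.2.2) := by
  induction h with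
  | refl c =>
    intro hn e p h1 h2 hv he
    have hl : w.length ≤ p 0 - 1 := List.drop_eq_nil_iff.1 (hv.symm.trans hn)
    have hp : p 0 = w.length + 1 := by omega
    rw [he.2 hp]
    exact ⟨p, TRun.refl _⟩
  | rd t u q q' a v Z s γ c htr hrun ih =>
    intro hn e p h1 h2 hv he
    change a :: v = w.drop (p 0 - 1) at hv
    have hlt : p 0 - 1 < w.length := by
      by_contra hlt
      rw [List.drop_eq_nil_iff.2 (not_lt.1 hlt)] at hv
      exact List.cons_ne_nil _ _ hv
    rw [List.drop_eq_getElem_cons hlt] at hv
    have hv2 := List.cons.inj hv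
    have ha : w[p 0 - 1]? = some a := by
      rw [List.getElem?_eq_getElem hlt, hv2.1]
    have hep : M.ep q Z = none := by
      by_contra hne
      have := M.det q Z hne a
      rw [this] at htr
      exact absurd htr (by simp)
    have he1 : e = false := by
      cases e with
      | false => rfl
      | true => have := he.1 rfl; omega
    subst he1
    have hsym : symAt w (p 0) = Sym.ch a := symAt_ch w _ a h1 ha
    let p1 : Fin 1 → ℕ := fun _ => p 0 + 1
    obtain ⟨p', hp'⟩ := ih hn (decide (p 0 = w.length)) p1 (by simp [p1])
      (by simp only [p1]; omega)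
      (by
        change v = w.drop (p 0 + 1 - 1)
        rw [hv2.2]
        congr 1
        omega)
      (by simp only [p1, decide_eq_true_eq]; omega)
    refine ⟨p', ?_⟩
    refine stepT (M := mpd M) ((q, some a), false) (fun _ => Mv.R) [Z] ?_ _ u p1 (Z :: s)
      (tu1 Z u _) (fl1 Z u) ?_ rfl ?_
    · change (match symAt w (p 0) with
        | Sym.lm => some ((((q, none), false) : (M.Q × Option α) × Bool), (fun _ => Mv.R : Fin 1 → Mv), [Z])
        | Sym.rm =>
          if (false : Bool) = false then some (((q, none), true), fun _ => Mv.S, [Z])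
          else match M.ep q Z with
            | none => none
            | some (q', γ) => some (((q', none), true), fun _ => Mv.S, γ)
        | Sym.ch a =>
          match M.ep q Z with
          | some (q', γ) => some (((q', none), false), fun _ => Mv.S, γ)
          | none => match M.tr q Z a with
            | none => none
            | some _ => some (((q, some a), false), fun _ => Mv.R, [Z])) = _
      rw [hsym]
      simp only [hep, htr]
      rfl
    · funext j
      simp only [p1, nps, mvN]
      have : j = 0 := Subsingleton.elim _ _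
      subst this
      omega
    · refine stepT (M := mpd M) ((q', none), decide (p 0 = w.length)) (fun _ => Mv.S) γ ?_ _ (fl γ u)
        p1 (γ ++ s) rfl rfl ?_ rfl hp'
      · change (match M.tr q Z a with
          | none => none
          | some (q', γ) => match symAt w (p 0 + 1) with
            | Sym.rm => some ((((q', none), true) : (M.Q × Option α) × Bool), (fun _ => Mv.S : Fin 1 → Mv), γ)
            | _ => some (((q', none), false), fun _ => Mv.S, γ)) = _
        rw [htr]
        by_cases hpl : p 0 = w.length
        · rw [symAt_rm w (p 0 + 1) (by omega), decide_eq_true hpl]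
          rfl
        · have hlt2 : p 0 + 1 - 1 < w.length := by omega
          rw [symAt_ch w (p 0 + 1) _ (by omega) (List.getElem?_eq_getElem hlt2),
            decide_eq_false hpl]
          rfl
      · funext j
        simp only [p1, nps, mvN]
        omega
  | ep t u q q' v Z s γ c htr hrun ih =>
    intro hn e p h1 h2 hv he
    obtain ⟨p', hp'⟩ := ih hn e p h1 h2 hv he
    refine ⟨p', ?_⟩
    refine stepT (M := mpd M) ((q', none), e) (fun _ => Mv.S) γ ?_ _ (fl γ u) p (γ ++ s) rfl rfl
      ?_ rfl hp'
    · change (match symAt w (p 0) with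
        | Sym.lm => some ((((q, none), e) : (M.Q × Option α) × Bool), (fun _ => Mv.R : Fin 1 → Mv), [Z])
        | Sym.rm =>
          if e = false then some (((q, none), true), fun _ => Mv.S, [Z])
          else match M.ep q Z with
            | none => none
            | some (q', γ) => some (((q', none), true), fun _ => Mv.S, γ)
        | Sym.ch a =>
          match M.ep q Z with
          | some (q', γ) => some (((q', none), e), fun _ => Mv.S, γ)
          | none => match M.tr q Z a with
            | none => none
            | some _ => some (((q, some a), false), fun _ => Mv.R, [Z])) = _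
      by_cases hp : p 0 = w.length + 1
      · rw [symAt_rm w _ hp]
        have : e = true := he.2 hp
        subst this
        simp only [htr]
        rfl
      · have hlt : p 0 - 1 < w.length := by omega
        rw [symAt_ch w (p 0) _ h1 (List.getElem?_eq_getElem hlt)]
        simp only [htr]
        rfl
    · funext j
      simp only [nps, mvN]
      have : j = 0 := Subsingleton.elim _ _
      subst this
      omega

theorem mDP2 : StDP2 := by
  intro α _ M w t u q v s u' q' s' h e p h1 h2 hv he
  exact main M w t _ _ h rfl e p h1 h2 hv he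

end Pool.Agent.Helper83.PT.Helper8
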