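import Mathlib

/-!
# Sums over monic polynomials
-/

set_option autoImplicit false

namespace Pool.Agent.Helper8.PT

open Polynomial Classical UniqueFactorizationMonoid

variable (F : Type) [Field F] [Fintype F]

/-- Monic polynomials of degree `k` are given by their lower coefficients. -/
noncomputable def monicEquiv (k : ℕ) : {f : F[X] // f.Monic ∧ f.natDegree = k} ≃ (Fin k → F) :=
  (monicEquivDegreeLT k).trans (degreeLTEquiv F k).toEquiv

lemma finite_monic (k : ℕ) : {f : F[X] | f.Monic ∧ f.natDegree = k}.Finite :=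
  Set.finite_coe_iff.1 (Finite.of_equiv _ (monicEquiv F k).symm)

/-- The monic polynomials of degree `k`. -/
noncomputable def monics (k : ℕ) : Finset F[X] := (finite_monic F k).toFinset

/-- The monic irreducible polynomials of degree `d`. -/
noncomputable def primes (d : ℕ) : Finset F[X] := (monics F d).filter Irreducible

variable {F}

lemma mem_monics {k : ℕ} {f : F[X]} : f ∈ monics F k ↔ f.Monic ∧ f.natDegree = k := by
  simp [monics]

lemma mem_primes {d : ℕ} {f : F[X]} :
    f ∈ primes F d ↔ f.Monic ∧ Irreducible f ∧ f.natDegree = d := by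
  rw [primes, Finset.mem_filter, mem_monics]
  tauto

variable (F) in
lemma card_monics (k : ℕ) : (monics F k).card = Fintype.card F ^ k := by
  have h1 : Nat.card {f : F[X] // f.Monic ∧ f.natDegree = k} = Fintype.card F ^ k := by
    rw [Nat.card_congr (monicEquiv F k)]
    simp
  rw [← h1, monics, ← Set.ncard_eq_toFinset_card _ (finite_monic F k)]
  rfl

/-- The factorization of the degree. -/
lemma degree_eq_sum {k : ℕ} {f : F[X]} (hf : f ∈ monics F k) :
    (k : ℝ) = ∑ d ∈ Finset.Icc 1 k, ∑ m ∈ Finset.Icc 1 k,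
      ∑ P ∈ primes F d, if P ^ m ∣ f then (d : ℝ) else 0 := by
  obtain ⟨hfm, hfd⟩ := mem_monics.1 hf
  have hf0 : f ≠ 0 := hfm.ne_zero
  set nf := normalizedFactors f with hnf
  have hmon : ∀ g ∈ nf, g.Monic := by
    intro g hg
    have h2 := normalize_normalized_factor g hg
    rw [← h2]
    exact monic_normalize (irreducible_of_normalized_factor g hg).ne_zero
  have hprod : nf.prod = f := by
    have h1 : Associated nf.prod f := prod_normalizedFactors hf0
    refine eq_of_monic_of_associated ?_ hfm h1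
    have h2 := monic_multiset_prod_of_monic nf (fun g => g) hmon
    rwa [Multiset.map_id'] at h2
  have hirr : ∀ g ∈ nf, Irreducible g := fun g hg => irreducible_of_normalized_factor g hg
  -- counting
  have hcount : ∀ P : F[X], P.Monic → Irreducible P → 1 ≤ P.natDegree →
      ((nf.count P : ℕ) : ℝ) = ∑ m ∈ Finset.Icc 1 k, if P ^ m ∣ f then (1 : ℝ) else 0 := by
    intro P hPm hP hPd
    have h3 : ∀ m, P ^ m ∣ f ↔ m ≤ nf.count P := by
      intro m
      rw [pow_dvd_iff_le_emultiplicity, emultiplicity_eq_count_normalizedFactors hP hf0,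
        hPm.normalize_eq_self]
      exact Nat.cast_le
    have hle : nf.count P ≤ k := by
      have h4 : P ^ (nf.count P) ∣ f := (h3 _).2 le_rfl
      have h5 := natDegree_le_of_dvd h4 hf0
      rw [natDegree_pow, hfd] at h5
      nlinarith
    rw [Finset.sum_congr rfl fun m _ => by rw [if_congr (h3 m) rfl rfl], Finset.sum_ite,
      Finset.sum_const_zero, add_zero, Finset.sum_const, nsmul_eq_mul, mul_one]
    congr 1
    have h6 : (Finset.Icc 1 k).filter (fun m => m ≤ nf.count P) = Finset.Icc 1 (nf.count P) := by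
      ext m
      simp only [Finset.mem_filter, Finset.mem_Icc]
      omega
    rw [h6, Nat.card_Icc]
    omega
  have hdeg : (k : ℝ) = ∑ P ∈ nf.toFinset, (nf.count P : ℝ) * P.natDegree := by
    rw [← hfd, ← hprod, natDegree_multiset_prod_of_monic _ hmon,
      Finset.sum_multiset_map_count]
    push_cast
    simp [nsmul_eq_mul]
  rw [hdeg]
  -- rearrangement
  have h7 : ∀ d, ∑ m ∈ Finset.Icc 1 k, ∑ P ∈ primes F d, (if P ^ m ∣ f then (d : ℝ) else 0) =
      ∑ P ∈ primes F d, ∑ m ∈ Finset.Icc 1 k, (if P ^ m ∣ f then (P.natDegree : ℝ) else 0) := by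
    intro d
    rw [Finset.sum_comm]
    refine Finset.sum_congr rfl fun P hP => Finset.sum_congr rfl fun m _ => ?_
    rw [(mem_primes.1 hP).2.2]
  rw [Finset.sum_congr rfl fun d _ => h7 d]
  have h8 : ∑ d ∈ Finset.Icc 1 k, ∑ P ∈ primes F d, ∑ m ∈ Finset.Icc 1 k,
      (if P ^ m ∣ f then (P.natDegree : ℝ) else 0) =
      ∑ P ∈ (Finset.Icc 1 k).biUnion (primes F), ∑ m ∈ Finset.Icc 1 k,
        (if P ^ m ∣ f then (P.natDegree : ℝ) else 0) := by
    rw [Finset.sum_biUnion]
    intro d _ d' _ hdd
    rw [Function.onFun, Finset.disjoint_left]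
    intro P hP hP'
    exact hdd ((mem_primes.1 hP).2.2.symm.trans (mem_primes.1 hP').2.2)
  rw [h8]
  have hsub : nf.toFinset ⊆ (Finset.Icc 1 k).biUnion (primes F) := by
    intro P hP
    have hP' := Multiset.mem_toFinset.1 hP
    have hPi := hirr P hP'
    have hdvd : P ∣ f := dvd_of_mem_normalizedFactors hP'
    rw [Finset.mem_biUnion]
    refine ⟨P.natDegree, Finset.mem_Icc.2 ⟨hPi.natDegree_pos, ?_⟩,
      mem_primes.2 ⟨hmon P hP', hPi, rfl⟩⟩
    rw [← hfd]
    exact natDegree_le_of_dvd hdvd hf0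
  rw [← Finset.sum_subset hsub (f := fun P => ∑ m ∈ Finset.Icc 1 k,
    (if P ^ m ∣ f then (P.natDegree : ℝ) else 0))]
  · refine Finset.sum_congr rfl fun P hP => ?_
    have hP' := Multiset.mem_toFinset.1 hP
    rw [hcount P (hmon P hP') (hirr P hP') (hirr P hP').natDegree_pos, Finset.sum_mul]
    refine Finset.sum_congr rfl fun m _ => ?_
    split_ifs <;> simp
  · intro P hP hPn
    obtain ⟨d, -, hPd⟩ := Finset.mem_biUnion.1 hP
    obtain ⟨hPm, hPi, -⟩ := mem_primes.1 hPd
    refine Finset.sum_eq_zero fun m hm => if_neg fun hdv => hPn ?_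
    rw [Multiset.mem_toFinset, mem_normalizedFactors_iff' hf0]
    exact ⟨hPi, hPm.normalize_eq_self,
      (dvd_pow_self P (by have := (Finset.mem_Icc.1 hm).1; omega)).trans hdv⟩

/-- The sum of `ψ` over the monic polynomials of degree `m`. -/
noncomputable def SS (ψ : F[X] → ℝ) (m : ℕ) : ℝ := ∑ f ∈ monics F m, ψ f

/-- The weighted sum of `ψ` over the prime powers of degree `j`. -/
noncomputable def NN (ψ : F[X] → ℝ) (j : ℕ) : ℝ :=
  ∑ d ∈ Finset.Icc 1 j, ∑ m ∈ Finset.Icc 1 j,
    if d * m = j then (d : ℝ) * ∑ P ∈ primes F d, ψ P ^ m else 0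

lemma NN_zero (ψ : F[X] → ℝ) : NN ψ 0 = 0 := by simp [NN]

lemma NN_eq (ψ : F[X] → ℝ) {j K : ℕ} (h : j ≤ K) :
    NN ψ j = ∑ d ∈ Finset.Icc 1 K, ∑ m ∈ Finset.Icc 1 K,
      if d * m = j then (d : ℝ) * ∑ P ∈ primes F d, ψ P ^ m else 0 := by
  have hsub : Finset.Icc 1 j ⊆ Finset.Icc 1 K := Finset.Icc_subset_Icc le_rfl h
  rw [NN, Finset.sum_subset hsub]
  · refine Finset.sum_congr rfl fun d hd => ?_
    refine Finset.sum_subset hsub fun m hm hm' => if_neg fun hdm => hm' ?_
    have h1 := (Finset.mem_Icc.1 hd).1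
    have h2 := (Finset.mem_Icc.1 hm).1
    refine Finset.mem_Icc.2 ⟨h2, ?_⟩
    nlinarith
  · intro d hd hd'
    refine Finset.sum_eq_zero fun m hm => if_neg fun hdm => hd' ?_
    have h1 := (Finset.mem_Icc.1 hd).1
    have h2 := (Finset.mem_Icc.1 hm).1
    refine Finset.mem_Icc.2 ⟨h1, ?_⟩
    nlinarith

/-- The sum of a completely multiplicative function over multiples. -/
lemma sum_multiples (ψ : F[X] → ℝ) (hψ : ∀ f g, ψ (f * g) = ψ f * ψ g) (k m : ℕ) {d : ℕ}
    {P : F[X]} (hP : P ∈ primes F d) :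
    ∑ f ∈ monics F k, (if P ^ m ∣ f then ψ f else 0) =
      if d * m ≤ k then ψ (P ^ m) * SS ψ (k - d * m) else 0 := by
  obtain ⟨hPm, hPi, hPd⟩ := mem_primes.1 hP
  have hPmm : (P ^ m).Monic := hPm.pow m
  have hdeg : (P ^ m).natDegree = d * m := by rw [natDegree_pow, hPd, mul_comm]
  split_ifs with h
  · rw [SS, Finset.mul_sum, Finset.sum_ite, Finset.sum_const_zero, add_zero]
    symm
    refine Finset.sum_bij (fun g _ => P ^ m * g) (fun g hg => ?_) (fun g _ g' _ hgg => ?_)
      (fun f hf => ?_) (fun g _ => (hψ _ _).symm)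
    · obtain ⟨hgm, hgd⟩ := mem_monics.1 hg
      refine Finset.mem_filter.2 ⟨mem_monics.2 ⟨hPmm.mul hgm, ?_⟩, dvd_mul_right _ _⟩
      rw [hPmm.natDegree_mul hgm, hdeg, hgd]
      omega
    · exact mul_left_cancel₀ hPmm.ne_zero hgg
    · obtain ⟨hf1, g, rfl⟩ := Finset.mem_filter.1 hf
      obtain ⟨hfm, hfd⟩ := mem_monics.1 hf1
      have hgm : g.Monic := hPmm.of_mul_monic_left hfm
      refine ⟨g, mem_monics.2 ⟨hgm, ?_⟩, rfl⟩
      rw [hPmm.natDegree_mul hgm, hdeg] at hfd
      omega
  · refine Finset.sum_eq_zero fun f hf => if_neg fun hdv => h ?_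
    obtain ⟨hfm, hfd⟩ := mem_monics.1 hf
    have h5 := natDegree_le_of_dvd hdv hfm.ne_zero
    rw [hdeg, hfd] at h5
    exact h5

/-- The logarithmic derivative of the L-function. -/
theorem log_deriv (ψ : F[X] → ℝ) (hψ : ∀ f g, ψ (f * g) = ψ f * ψ g) (hψ1 : ψ 1 = 1) (k : ℕ) :
    (k : ℝ) * SS ψ k =
      ∑ x ∈ Finset.HasAntidiagonal.antidiagonal k, NN ψ x.1 * SS ψ x.2 := by
  have hpow : ∀ (P : F[X]) (m : ℕ), ψ (P ^ m) = ψ P ^ m := by
    intro P m
    induction m with
    | zero => simp [hψ1]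
    | succ m ih => rw [pow_succ, hψ, ih, pow_succ]
  -- left-hand side
  have hL : (k : ℝ) * SS ψ k = ∑ d ∈ Finset.Icc 1 k, ∑ m ∈ Finset.Icc 1 k,
      ∑ P ∈ primes F d, (d : ℝ) * if d * m ≤ k then ψ (P ^ m) * SS ψ (k - d * m) else 0 := by
    have h1 : (k : ℝ) * SS ψ k = ∑ f ∈ monics F k, ∑ d ∈ Finset.Icc 1 k, ∑ m ∈ Finset.Icc 1 k,
        ∑ P ∈ primes F d, (d : ℝ) * (if P ^ m ∣ f then ψ f else 0) := by
      rw [SS, Finset.mul_sum]
      refine Finset.sum_congr rfl fun f hf => ?_
      rw [degree_eq_sum hf, Finset.sum_mul]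
      refine Finset.sum_congr rfl fun d _ => ?_
      rw [Finset.sum_mul]
      refine Finset.sum_congr rfl fun m _ => ?_
      rw [Finset.sum_mul]
      refine Finset.sum_congr rfl fun P _ => ?_
      split_ifs <;> ring
    rw [h1, Finset.sum_comm]
    refine Finset.sum_congr rfl fun d _ => ?_
    rw [Finset.sum_comm]
    refine Finset.sum_congr rfl fun m _ => ?_
    rw [Finset.sum_comm]
    refine Finset.sum_congr rfl fun P hP => ?_
    rw [← Finset.mul_sum, sum_multiples ψ hψ k m hP]
  -- right-hand side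
  have hR : ∑ x ∈ Finset.HasAntidiagonal.antidiagonal k, NN ψ x.1 * SS ψ x.2 =
      ∑ d ∈ Finset.Icc 1 k, ∑ m ∈ Finset.Icc 1 k,
        ∑ P ∈ primes F d, (d : ℝ) * if d * m ≤ k then ψ (P ^ m) * SS ψ (k - d * m) else 0 := by
    have h1 : ∀ x ∈ Finset.HasAntidiagonal.antidiagonal k, NN ψ x.1 * SS ψ x.2 =
        ∑ d ∈ Finset.Icc 1 k, ∑ m ∈ Finset.Icc 1 k,
          (if d * m = x.1 then (d : ℝ) * ∑ P ∈ primes F d, ψ P ^ m else 0) * SS ψ x.2 := by
      intro x hx
      have hx' := Finset.HasAntidiagonal.mem_antidiagonal.1 hx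
      rw [NN_eq ψ (K := k) (by omega), Finset.sum_mul]
      refine Finset.sum_congr rfl fun d _ => ?_
      rw [Finset.sum_mul]
    rw [Finset.sum_congr rfl h1, Finset.sum_comm]
    refine Finset.sum_congr rfl fun d _ => ?_
    rw [Finset.sum_comm]
    refine Finset.sum_congr rfl fun m _ => ?_
    by_cases h : d * m ≤ k
    · rw [Finset.sum_eq_single (d * m, k - d * m)]
      · rw [if_pos rfl, Finset.mul_sum, Finset.sum_mul]
        refine Finset.sum_congr rfl fun P _ => ?_
        rw [if_pos h, hpow]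
        ring
      · intro x hx hne
        rw [if_neg, zero_mul]
        intro hdm
        apply hne
        have hx' := Finset.HasAntidiagonal.mem_antidiagonal.1 hx
        exact Prod.ext hdm.symm (by simp only; omega)
      · intro hx
        exact absurd (Finset.HasAntidiagonal.mem_antidiagonal.2 (by simp only; omega)) hx
    · rw [Finset.sum_eq_zero, Finset.sum_eq_zero]
      · intro P _
        rw [if_neg h, mul_zero]
      · intro x hx
        have hx' := Finset.HasAntidiagonal.mem_antidiagonal.1 hx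
        rw [if_neg (by omega), zero_mul]
  rw [hL, hR]

/-- The weighted number of prime powers of degree `j` is `q ^ j`. -/
lemma NN_one (j : ℕ) (hj : 0 < j) : NN (F := F) (fun _ => 1) j = (Fintype.card F : ℝ) ^ j := by
  set q : ℝ := (Fintype.card F : ℝ) with hq
  have hS : ∀ m, SS (F := F) (fun _ => 1) m = q ^ m := by
    intro m
    rw [SS, Finset.sum_const, card_monics, nsmul_eq_mul, mul_one]
    push_cast
    rfl
  have hq0 : q ≠ 0 := by
    rw [hq]
    exact_mod_cast Fintype.card_ne_zero
  induction j using Nat.strong_induction_on with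
  | _ j ih =>
    have h1 := log_deriv (F := F) (fun _ => 1) (fun _ _ => (one_mul 1).symm) rfl j
    rw [hS] at h1
    have h2 : ∀ x ∈ Finset.HasAntidiagonal.antidiagonal j,
        NN (F := F) (fun _ => 1) x.1 * SS (F := F) (fun _ => 1) x.2 =
        (q ^ j - if x = (0, j) then q ^ j else 0) +
          (if x = (j, 0) then NN (F := F) (fun _ => 1) j - q ^ j else 0) := by
      intro x hx
      have hx' := Finset.HasAntidiagonal.mem_antidiagonal.1 hx
      rw [hS]
      by_cases hx0 : x.1 = 0
      · have h3 : x = (0, j) := Prod.ext hx0 (by simp only; omega)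
        have h4 : x ≠ (j, 0) := fun h => by
          rw [h] at hx0
          simp only at hx0
          omega
        rw [if_pos h3, if_neg h4, hx0, NN_zero]
        ring
      · by_cases hxj : x.1 = j
        · have h3 : x = (j, 0) := Prod.ext hxj (by simp only; omega)
          have h4 : x ≠ (0, j) := fun h => by
            rw [h] at hx0
            exact hx0 rfl
          rw [if_neg h4, if_pos h3, h3]
          simp
        · have h3 : x ≠ (0, j) := fun h => by
            rw [h] at hx0
            exact hx0 rfl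
          have h4 : x ≠ (j, 0) := fun h => by
            rw [h] at hxj
            exact hxj rfl
          rw [if_neg h3, if_neg h4, ih x.1 (by omega) (by omega), ← pow_add, hx']
          ring
    rw [Finset.sum_congr rfl h2, Finset.sum_add_distrib, Finset.sum_sub_distrib,
      Finset.sum_const, Finset.Nat.card_antidiagonal, Finset.sum_ite_eq', Finset.sum_ite_eq',
      if_pos (by simp), if_pos (by simp), nsmul_eq_mul] at h1
    push_cast at h1
    linarith

end Pool.Agent.Helper8.PT
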