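import Pool.Agent.Helper8.PT.Places

/-!
# The infinite place of a rational function field
-/

set_option autoImplicit false

namespace Pool.Agent.Helper8.PT

open Module Pool.Agent.Helper47.BSD Polynomial Classical

variable {F : Type} [Field F]

lemma two_zpow_le {a b : ℤ} (h : a ≤ b) : (2 : ℝ) ^ a ≤ 2 ^ b :=
  zpow_le_zpow_right₀ one_le_two h

lemma iabs_max {x y : RatFunc F} :
    (if x + y = 0 then (0 : ℝ) else 2 ^ (x + y).intDegree) ≤
      max (if x = 0 then (0 : ℝ) else 2 ^ x.intDegree)
        (if y = 0 then (0 : ℝ) else 2 ^ y.intDegree) := by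
  by_cases hx : x = 0
  · subst hx
    simp
  by_cases hy : y = 0
  · subst hy
    simp [hx]
  by_cases hxy : x + y = 0
  · rw [if_pos hxy, if_neg hx]
    exact le_max_of_le_left (zpow_pos two_pos _).le
  · rw [if_neg hx, if_neg hy, if_neg hxy]
    have h := RatFunc.intDegree_add_le hy hxy
    rcases le_max_iff.1 h with h | h
    · exact le_max_of_le_left (two_zpow_le h)
    · exact le_max_of_le_right (two_zpow_le h)

/-- The absolute value at infinity. -/
noncomputable def iabs (F : Type) [Field F] : AbsoluteValue (RatFunc F) ℝ where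
  toFun z := if z = 0 then 0 else 2 ^ z.intDegree
  map_mul' x y := by
    by_cases hx : x = 0
    · simp [hx]
    by_cases hy : y = 0
    · simp [hy]
    rw [if_neg hx, if_neg hy, if_neg (mul_ne_zero hx hy), RatFunc.intDegree_mul hx hy,
      zpow_add₀ two_ne_zero]
  nonneg' x := by
    split_ifs
    · exact le_rfl
    · exact (zpow_pos two_pos _).le
  eq_zero' x := by
    constructor
    · intro h
      by_contra hx
      rw [if_neg hx] at h
      exact (zpow_pos (two_pos (α := ℝ)) _).ne' h
    · intro h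
      rw [if_pos h]
  add_le' x y := iabs_max.trans (max_le_add_of_nonneg
    (by split_ifs; exacts [le_rfl, (zpow_pos two_pos _).le])
    (by split_ifs; exacts [le_rfl, (zpow_pos two_pos _).le]))

lemma iabs_eq {z : RatFunc F} (hz : z ≠ 0) : iabs F z = 2 ^ z.intDegree := if_neg hz

lemma iabs_coe {f : F[X]} (hf : f ≠ 0) :
    iabs F (algebraMap F[X] (RatFunc F) f) = 2 ^ (f.natDegree : ℤ) := by
  rw [iabs_eq (coe_ne_zero hf), RatFunc.intDegree_polynomial]

lemma iabs_coe_lt {f g : F[X]} (hg : g ≠ 0) (h : f.degree < g.degree) :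
    iabs F (algebraMap F[X] (RatFunc F) f) < iabs F (algebraMap F[X] (RatFunc F) g) := by
  by_cases hf : f = 0
  · rw [hf, map_zero, map_zero, iabs_coe hg]
    exact zpow_pos two_pos _
  · rw [iabs_coe hf, iabs_coe hg]
    refine zpow_lt_zpow_right₀ one_lt_two ?_
    exact_mod_cast (natDegree_lt_natDegree hf h)

lemma iabs_coe_lt' {f g : F[X]} (hg : g ≠ 0)
    (h : iabs F (algebraMap F[X] (RatFunc F) f) < iabs F (algebraMap F[X] (RatFunc F) g)) :
    f.degree < g.degree := by
  by_cases hf : f = 0
  · rw [hf, degree_zero]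
    exact bot_lt_iff_ne_bot.2 (degree_ne_bot.2 hg)
  · rw [iabs_coe hf, iabs_coe hg, zpow_lt_zpow_iff_right₀ one_lt_two] at h
    rw [degree_eq_natDegree hf, degree_eq_natDegree hg]
    exact_mod_cast h

lemma iabs_X : iabs F (algebraMap F[X] (RatFunc F) X) = 2 := by
  rw [iabs_coe X_ne_zero, natDegree_X]
  norm_num

lemma iabs_isNontrivial : (iabs F).IsNontrivial :=
  ⟨algebraMap F[X] (RatFunc F) X, coe_ne_zero X_ne_zero, by rw [iabs_X]; norm_num⟩

/-- The residue field of the completion at infinity is `F`. -/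
lemma iabs_residue (p : ℕ) [CharP F p] (hp : p.Prime) (x : (iabs F).Completion) (hx : ‖x‖ ≤ 1) :
    ∃ c : F, ‖x - (algebraMap (RatFunc F) (iabs F).Completion).comp
      (algebraMap F (RatFunc F)) c‖ < 1 := by
  haveI : CharP (RatFunc F) p :=
    charP_of_injective_algebraMap (algebraMap F (RatFunc F)).injective p
  haveI := ultra_completion (iabs F) p hp
  obtain ⟨y, hy⟩ := Metric.denseRange_iff.1
    (UniformSpace.Completion.denseRange_coe (α := WithAbs (iabs F))) x 1 one_pos
  set z : RatFunc F := y.ofAbs with hz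
  have hy' : ‖x - (algebraMap (RatFunc F) (iabs F).Completion z)‖ < 1 := by
    rw [dist_eq_norm] at hy
    exact hy
  have hz1 : iabs F z ≤ 1 := by
    rw [← Helper47.BSD.norm_algebraMap (iabs F)]
    have h2 := IsUltrametricDist.norm_add_le_max x
      (-(x - algebraMap (RatFunc F) (iabs F).Completion z))
    rw [norm_neg, ← sub_eq_add_neg, sub_sub_cancel] at h2
    exact h2.trans (max_le hx hy'.le)
  have hmain : ∃ c : F, iabs F (z - algebraMap F (RatFunc F) c) < 1 := by
    by_cases hz0 : z = 0
    · exact ⟨0, by rw [hz0, map_zero, sub_zero, map_zero]; exact one_pos⟩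
    set a := z.num
    set b := z.denom
    have hb0 : b ≠ 0 := z.denom_ne_zero
    have hbm : b.Monic := z.monic_denom
    have ha0 : a ≠ 0 := RatFunc.num_ne_zero hz0
    have hzab : z = algebraMap F[X] (RatFunc F) a / algebraMap F[X] (RatFunc F) b :=
      (RatFunc.num_div_denom z).symm
    have hvb : 0 < iabs F (algebraMap F[X] (RatFunc F) b) := (iabs F).pos (coe_ne_zero hb0)
    have hdeg : a.natDegree ≤ b.natDegree := by
      rw [hzab, map_div₀, div_le_one hvb, iabs_coe ha0, iabs_coe hb0,
        zpow_le_zpow_iff_right₀ one_lt_two] at hz1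
      exact_mod_cast hz1
    refine ⟨a.coeff b.natDegree, ?_⟩
    have e1 : z - algebraMap F (RatFunc F) (a.coeff b.natDegree) =
        algebraMap F[X] (RatFunc F) (a - C (a.coeff b.natDegree) * b) /
          algebraMap F[X] (RatFunc F) b := by
      have hb' := coe_ne_zero hb0
      have e2 : algebraMap F (RatFunc F) (a.coeff b.natDegree) =
          algebraMap F[X] (RatFunc F) (C (a.coeff b.natDegree)) :=
        IsScalarTower.algebraMap_apply F F[X] (RatFunc F) _
      rw [hzab, e2, map_sub, map_mul]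
      field_simp
    rw [e1, map_div₀, div_lt_one hvb]
    refine iabs_coe_lt hb0 ?_
    rw [degree_eq_natDegree hb0, degree_lt_iff_coeff_zero]
    intro m hm
    rw [coeff_sub, coeff_C_mul]
    rcases hm.lt_or_eq with h | h
    · rw [coeff_eq_zero_of_natDegree_lt (by omega), coeff_eq_zero_of_natDegree_lt h]
      ring
    · rw [← h, hbm.coeff_natDegree]
      ring
  obtain ⟨c, hc⟩ := hmain
  refine ⟨c, ?_⟩
  have e3 : x - (algebraMap (RatFunc F) (iabs F).Completion).comp (algebraMap F (RatFunc F)) c =
      (x - algebraMap (RatFunc F) (iabs F).Completion z) +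
        algebraMap (RatFunc F) (iabs F).Completion (z - algebraMap F (RatFunc F) c) := by
    rw [map_sub, RingHom.comp_apply]
    ring
  rw [e3]
  refine (IsUltrametricDist.norm_add_le_max _ _).trans_lt (max_lt hy' ?_)
  rw [Helper47.BSD.norm_algebraMap]
  exact hc

lemma iabs_values (p : ℕ) [CharP F p] (hp : p.Prime) (z : (iabs F).Completion) (hz : z ≠ 0) :
    ∃ m : ℤ, ‖z‖ = ‖algebraMap (RatFunc F) (iabs F).Completion
      (algebraMap F[X] (RatFunc F) X)‖ ^ m := by
  haveI : CharP (RatFunc F) p :=
    charP_of_injective_algebraMap (algebraMap F (RatFunc F)).injective p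
  obtain ⟨y, hy0, hy⟩ := exists_abs_eq (iabs F) p hp z hz
  refine ⟨y.intDegree, ?_⟩
  rw [Helper47.BSD.norm_algebraMap, iabs_X, ← hy, iabs_eq hy0]

/-- A polynomial which is a square in the completion at infinity has even degree and its leading
coefficient is a square. -/
theorem isSquare_inf (p : ℕ) [CharP F p] (hp : p.Prime) {f : F[X]} (hf : f ≠ 0)
    (h : IsSquare (algebraMap (RatFunc F) (iabs F).Completion (algebraMap F[X] (RatFunc F) f))) :
    Even f.natDegree ∧ IsSquare f.leadingCoeff := by
  haveI : CharP (RatFunc F) p :=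
    charP_of_injective_algebraMap (algebraMap F (RatFunc F)).injective p
  obtain ⟨s, hs0, hs, hss⟩ := square_approx (iabs F) p hp (coe_ne_zero hf) h
  set a := s.num with ha
  set b := s.denom with hb
  have hb0 : b ≠ 0 := s.denom_ne_zero
  have hbm : b.Monic := s.monic_denom
  have ha0 : a ≠ 0 := RatFunc.num_ne_zero hs0
  have hsab : s = algebraMap F[X] (RatFunc F) a / algebraMap F[X] (RatFunc F) b :=
    (RatFunc.num_div_denom s).symm
  have hvb : 0 < iabs F (algebraMap F[X] (RatFunc F) b) := (iabs F).pos (coe_ne_zero hb0)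
  have h1 : iabs F (algebraMap F[X] (RatFunc F) (a ^ 2)) =
      iabs F (algebraMap F[X] (RatFunc F) (f * b ^ 2)) := by
    rw [hsab, map_div₀, div_pow, div_eq_iff (pow_pos hvb 2).ne'] at hs
    simp only [map_mul, map_pow]
    exact hs
  have hfb0 : f * b ^ 2 ≠ 0 := mul_ne_zero hf (pow_ne_zero _ hb0)
  have h2 : (a ^ 2).natDegree = (f * b ^ 2).natDegree := by
    rw [iabs_coe (pow_ne_zero 2 ha0), iabs_coe hfb0] at h1
    have := zpow_right_injective₀ (zero_lt_two (α := ℝ)) (by norm_num) h1
    exact_mod_cast this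
  have h3 : (f * b ^ 2 - a ^ 2).degree < (f * b ^ 2).degree := by
    apply iabs_coe_lt' hfb0
    have e1 : algebraMap F[X] (RatFunc F) (f * b ^ 2 - a ^ 2) =
        (algebraMap F[X] (RatFunc F) f - s ^ 2) * algebraMap F[X] (RatFunc F) b ^ 2 := by
      have hb' := coe_ne_zero hb0
      rw [hsab]
      simp only [map_sub, map_mul, map_pow]
      field_simp
    rw [e1]
    simp only [map_mul, map_pow]
    exact mul_lt_mul_of_pos_right hss (pow_pos hvb 2)
  have h4 : (f * b ^ 2).leadingCoeff = (a ^ 2).leadingCoeff := by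
    have h5 : (f * b ^ 2 - a ^ 2).coeff (f * b ^ 2).natDegree = 0 := by
      refine coeff_eq_zero_of_degree_lt ?_
      rw [← degree_eq_natDegree hfb0]
      exact h3
    rw [coeff_sub, sub_eq_zero] at h5
    rw [leadingCoeff, leadingCoeff, h5, h2]
  constructor
  · rw [natDegree_pow, natDegree_mul hf (pow_ne_zero _ hb0), natDegree_pow] at h2
    rw [even_iff_two_dvd]
    omega
  · rw [leadingCoeff_mul, leadingCoeff_pow, leadingCoeff_pow, hbm.leadingCoeff, one_pow,
      mul_one] at h4
    rw [h4]
    exact ⟨_, pow_two _⟩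

end Pool.Agent.Helper8.PT
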