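import Pool.Agent.Helper8.PT.Inf
import Pool.Agent.Helper47.BSD.Main

/-!
# Places of rational function fields
-/

set_option autoImplicit false

namespace Pool.Agent.Helper8.PT

open Module Pool.Agent.Helper47.BSD Polynomial IsDedekindDomain

section Approx

universe u

variable {K : Type u} [Field K]

/-- An element of `K` which becomes a square in the completion is approximated by a square. -/
lemma square_approx (v : AbsoluteValue K ℝ) (p : ℕ) [CharP K p] (hp : p.Prime) {z : K}
    (hz : z ≠ 0) (h : IsSquare (algebraMap K v.Completion z)) :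
    ∃ s : K, s ≠ 0 ∧ v s ^ 2 = v z ∧ v (z - s ^ 2) < v z := by
  haveI := ultra_completion v p hp
  obtain ⟨s, hs⟩ := h
  have hs0 : s ≠ 0 := by
    rintro rfl
    rw [mul_zero] at hs
    exact hz (by simpa using hs)
  have hs' : 0 < ‖s‖ := norm_pos_iff.2 hs0
  obtain ⟨y, hy⟩ := Metric.denseRange_iff.1
    (UniformSpace.Completion.denseRange_coe (α := WithAbs v)) s ‖s‖ hs'
  set t : K := y.ofAbs with ht
  have hy' : ‖s - (algebraMap K v.Completion t)‖ < ‖s‖ := by
    rw [dist_eq_norm] at hy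
    exact hy
  have h1 : ‖algebraMap K v.Completion t‖ = ‖s‖ := by
    have h2 := IsUltrametricDist.norm_add_le_max (s - algebraMap K v.Completion t)
      (algebraMap K v.Completion t)
    rw [sub_add_cancel] at h2
    have h3 := IsUltrametricDist.norm_add_le_max s (-(s - algebraMap K v.Completion t))
    rw [norm_neg, ← sub_eq_add_neg, sub_sub_cancel, max_eq_left hy'.le] at h3
    rcases le_max_iff.1 h2 with h4 | h4
    · exact absurd h4 (not_le.2 hy')
    · exact le_antisymm h3 h4
  have hvz : v z = ‖s‖ ^ 2 := by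
    rw [← Helper47.BSD.norm_algebraMap v, hs, norm_mul, pow_two]
  have hvt : v t = ‖s‖ := by rw [← Helper47.BSD.norm_algebraMap v, h1]
  refine ⟨t, fun h0 => ?_, by rw [hvt, hvz], ?_⟩
  · rw [h0, map_zero] at hvt
    exact hs'.ne hvt
  · rw [hvz, ← Helper47.BSD.norm_algebraMap v, map_sub, map_pow, hs]
    have e1 : s * s - algebraMap K v.Completion t ^ 2 =
        (s - algebraMap K v.Completion t) * (s + algebraMap K v.Completion t) := by ring
    rw [e1, norm_mul, pow_two]
    have h5 : ‖s + algebraMap K v.Completion t‖ ≤ ‖s‖ :=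
      (IsUltrametricDist.norm_add_le_max _ _).trans (max_le le_rfl h1.le)
    calc _ ≤ ‖s - algebraMap K v.Completion t‖ * ‖s‖ :=
          mul_le_mul_of_nonneg_left h5 (norm_nonneg _)
      _ < ‖s‖ * ‖s‖ := mul_lt_mul_of_pos_right hy' hs'

end Approx

variable {F : Type} [Field F]

section Finite

/-- The place of `F(t)` attached to an irreducible polynomial. -/
noncomputable def vp (π : F[X]) (hπ : Irreducible π) : HeightOneSpectrum F[X] where
  asIdeal := Ideal.span {π}
  isPrime := (Ideal.span_singleton_prime hπ.ne_zero).2 hπ.prime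
  ne_bot := by simpa using hπ.ne_zero

/-- The absolute value of `F(t)` attached to an irreducible polynomial. -/
noncomputable def pabs (π : F[X]) (hπ : Irreducible π) : AbsoluteValue (RatFunc F) ℝ :=
  (vp π hπ).adicAbv (b := 2) one_lt_two

/-- Minus the order at `π`. -/
noncomputable def pord (π : F[X]) (hπ : Irreducible π) (z : RatFunc F) : ℤ :=
  WithZero.log ((vp π hπ).valuation (RatFunc F) z)

/-- The parity of the order at `π`. -/
noncomputable def par (π : F[X]) (hπ : Irreducible π) (z : RatFunc F) : ZMod 2 :=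
  (pord π hπ z : ZMod 2)

variable {π : F[X]} (hπ : Irreducible π)

lemma pabs_eq {z : RatFunc F} (hz : z ≠ 0) : pabs π hπ z = 2 ^ pord π hπ z := by
  have h0 : (vp π hπ).valuation (RatFunc F) z ≠ 0 := by simpa using hz
  change (((vp π hπ).adicAbvDef (b := 2) one_lt_two z : NNReal) : ℝ) = _
  rw [HeightOneSpectrum.adicAbvDef, WithZeroMulInt.toNNReal_neg_apply _ h0]
  rw [WithZero.toAdd_unzero_eq_log]
  push_cast
  rfl

lemma pord_mul {x y : RatFunc F} (hx : x ≠ 0) (hy : y ≠ 0) :
    pord π hπ (x * y) = pord π hπ x + pord π hπ y := by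
  rw [pord, map_mul, WithZero.log_mul (by simpa using hx) (by simpa using hy)]
  rfl

lemma par_mul {x y : RatFunc F} (hx : x ≠ 0) (hy : y ≠ 0) :
    par π hπ (x * y) = par π hπ x + par π hπ y := by
  rw [par, pord_mul hπ hx hy, Int.cast_add]
  rfl

lemma par_one : par π hπ (1 : RatFunc F) = 0 := by
  simp [par, pord]

lemma par_sq {x : RatFunc F} (hx : x ≠ 0) : par π hπ (x ^ 2) = 0 := by
  rw [pow_two, par_mul hπ hx hx]
  exact CharTwo.add_self_eq_zero _

lemma par_mul_self {x : RatFunc F} (hx : x ≠ 0) : par π hπ (x * x) = 0 := by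
  rw [par_mul hπ hx hx]
  exact CharTwo.add_self_eq_zero _

lemma par_prod {α : Type} (s : Finset α) (f : α → RatFunc F) (h : ∀ i ∈ s, f i ≠ 0) :
    par π hπ (∏ i ∈ s, f i) = ∑ i ∈ s, par π hπ (f i) := by
  classical
  induction s using Finset.induction_on with
  | empty => simp [par_one]
  | insert a s ha ih =>
    rw [Finset.prod_insert ha, Finset.sum_insert ha, par_mul hπ
      (h a (Finset.mem_insert_self a s))
      (Finset.prod_ne_zero_iff.2 fun i hi => h i (Finset.mem_insert_of_mem hi)),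
      ih fun i hi => h i (Finset.mem_insert_of_mem hi)]

lemma pabs_coe_le (f : F[X]) : pabs π hπ (algebraMap F[X] (RatFunc F) f) ≤ 1 :=
  HeightOneSpectrum.adicAbv_coe_le_one _ _ _

lemma pabs_coe_lt_one_iff {f : F[X]} :
    pabs π hπ (algebraMap F[X] (RatFunc F) f) < 1 ↔ π ∣ f := by
  rw [pabs, HeightOneSpectrum.adicAbv_coe_lt_one_iff]
  exact Ideal.mem_span_singleton

lemma pabs_coe_eq_one_iff {f : F[X]} :
    pabs π hπ (algebraMap F[X] (RatFunc F) f) = 1 ↔ ¬ π ∣ f := by
  rw [pabs, HeightOneSpectrum.adicAbv_coe_eq_one_iff]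
  exact not_congr Ideal.mem_span_singleton

lemma coe_ne_zero {f : F[X]} (hf : f ≠ 0) : algebraMap F[X] (RatFunc F) f ≠ 0 := by
  rwa [Ne, FaithfulSMul.algebraMap_eq_zero_iff]

lemma pord_of_not_dvd {f : F[X]} (hf : ¬ π ∣ f) : pord π hπ (algebraMap F[X] (RatFunc F) f) = 0 := by
  have hf0 : f ≠ 0 := fun h => hf (h ▸ dvd_zero _)
  have h1 := (pabs_coe_eq_one_iff hπ).2 hf
  rw [pabs_eq hπ (coe_ne_zero hf0)] at h1
  exact (zpow_eq_one_iff_right₀ zero_le_two (by norm_num)).1 h1

lemma par_of_not_dvd {f : F[X]} (hf : ¬ π ∣ f) : par π hπ (algebraMap F[X] (RatFunc F) f) = 0 := by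
  rw [par, pord_of_not_dvd hπ hf, Int.cast_zero]

lemma pord_self : pord π hπ (algebraMap F[X] (RatFunc F) π) = -1 := by
  rw [pord, HeightOneSpectrum.valuation_of_algebraMap,
    HeightOneSpectrum.intValuation_singleton _ hπ.ne_zero rfl]
  rfl

lemma par_self : par π hπ (algebraMap F[X] (RatFunc F) π) = 1 := by
  rw [par, pord_self]
  decide

lemma pabs_self : pabs π hπ (algebraMap F[X] (RatFunc F) π) = 2⁻¹ := by
  rw [pabs_eq hπ (coe_ne_zero hπ.ne_zero), pord_self, zpow_neg_one]

lemma pabs_isNontrivial : (pabs π hπ).IsNontrivial :=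
  ⟨algebraMap F[X] (RatFunc F) π, coe_ne_zero hπ.ne_zero, by rw [pabs_self]; norm_num⟩

lemma par_eq_of_abs {z r δ : RatFunc F} {m : ℕ} (hz : z ≠ 0) (hr : r ≠ 0) (hδ : δ ≠ 0)
    (h : pabs π hπ z = pabs π hπ δ ^ m * pabs π hπ r ^ 2) :
    par π hπ z = m * par π hπ δ := by
  rw [pabs_eq hπ hz, pabs_eq hπ hr, pabs_eq hπ hδ, ← zpow_natCast, ← zpow_natCast, ← zpow_mul,
    ← zpow_mul, ← zpow_add₀ two_ne_zero] at h
  have h1 := zpow_right_injective₀ (zero_lt_two) (by norm_num) h
  rw [par, par, h1]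
  push_cast
  have h2 : (2 : ZMod 2) = 0 := rfl
  rw [h2, mul_zero, add_zero, mul_comm]

lemma par_eq_zero_of_abs {z r : RatFunc F} (hz : z ≠ 0) (hr : r ≠ 0)
    (h : pabs π hπ z = pabs π hπ r ^ 2) : par π hπ z = 0 := by
  have := par_eq_of_abs hπ (m := 0) hz hr one_ne_zero (by simpa using h)
  simpa using this

/-- A polynomial prime to `π` which is a square in the completion is a square modulo `π`. -/
theorem isSquare_mod (p : ℕ) [CharP F p] (hp : p.Prime) {f : F[X]} (hf : ¬ π ∣ f)
    (h : IsSquare (algebraMap (RatFunc F) (pabs π hπ).Completion (algebraMap F[X] (RatFunc F) f))) :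
    IsSquare (Ideal.Quotient.mk (Ideal.span {π}) f) := by
  haveI : CharP (RatFunc F) p :=
    charP_of_injective_algebraMap (algebraMap F (RatFunc F)).injective p
  have hf0 : f ≠ 0 := fun h => hf (h ▸ dvd_zero _)
  obtain ⟨s, hs0, hs, hss⟩ := square_approx (pabs π hπ) p hp (coe_ne_zero hf0) h
  have hv1 : pabs π hπ (algebraMap F[X] (RatFunc F) f) = 1 := (pabs_coe_eq_one_iff hπ).2 hf
  rw [hv1] at hs hss
  have hs1 : pabs π hπ s = 1 := (pow_eq_one_iff_of_nonneg ((pabs π hπ).nonneg _) two_ne_zero).1 hs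
  set a := s.num with ha
  set b := s.denom with hb
  have hb0 : b ≠ 0 := s.denom_ne_zero
  have hab : IsCoprime a b := s.isCoprime_num_denom
  have hsab : s = algebraMap F[X] (RatFunc F) a / algebraMap F[X] (RatFunc F) b :=
    (RatFunc.num_div_denom s).symm
  have hvab : pabs π hπ (algebraMap F[X] (RatFunc F) a) =
      pabs π hπ (algebraMap F[X] (RatFunc F) b) := by
    rw [hsab, map_div₀, div_eq_one_iff_eq ((pabs π hπ).ne_zero (coe_ne_zero hb0))] at hs1
    exact hs1
  have hπb : ¬ π ∣ b := by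
    intro h1
    have h2 := (pabs_coe_lt_one_iff hπ).2 h1
    rw [← hvab, pabs_coe_lt_one_iff] at h2
    exact hπ.not_isUnit (hab.isUnit_of_dvd' h2 h1)
  have hvb : pabs π hπ (algebraMap F[X] (RatFunc F) b) = 1 := (pabs_coe_eq_one_iff hπ).2 hπb
  have h3 : π ∣ f * b ^ 2 - a ^ 2 := by
    rw [← pabs_coe_lt_one_iff hπ]
    have e1 : algebraMap F[X] (RatFunc F) (f * b ^ 2 - a ^ 2) =
        (algebraMap F[X] (RatFunc F) f - s ^ 2) * algebraMap F[X] (RatFunc F) b ^ 2 := by
      have hb' := coe_ne_zero hb0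
      rw [hsab]
      simp only [map_sub, map_mul, map_pow]
      field_simp
    rw [e1, map_mul, map_pow, hvb, one_pow, mul_one]
    exact hss
  have hmax : (Ideal.span {π}).IsMaximal := PrincipalIdealRing.isMaximal_of_irreducible hπ
  letI := Ideal.Quotient.field (Ideal.span {π})
  have hb1 : Ideal.Quotient.mk (Ideal.span {π}) b ≠ 0 := by
    rw [Ne, Ideal.Quotient.eq_zero_iff_mem, Ideal.mem_span_singleton]
    exact hπb
  have h4 : Ideal.Quotient.mk (Ideal.span {π}) (f * b ^ 2 - a ^ 2) = 0 := by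
    rw [Ideal.Quotient.eq_zero_iff_mem, Ideal.mem_span_singleton]
    exact h3
  refine ⟨Ideal.Quotient.mk (Ideal.span {π}) a / Ideal.Quotient.mk (Ideal.span {π}) b, ?_⟩
  rw [map_sub, map_mul, map_pow, map_pow] at h4
  field_simp
  linear_combination h4

end Finite

end Pool.Agent.Helper8.PT
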