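import Mathlib

/-!
# Power sums: an elementary prime number theorem for function fields
-/

set_option autoImplicit false

namespace Pool.Agent.Helper8.PT

open Filter Topology PowerSeries

section Theta

variable {R : Type} [CommRing R]

/-- The operator `X d/dX`. -/
noncomputable def th (f : PowerSeries R) : PowerSeries R := X * d⁄dX R f

lemma coeff_th (f : PowerSeries R) (n : ℕ) : coeff n (th f) = n * coeff n f := by
  cases n with
  | zero => simp [th]
  | succ n =>
    rw [th, coeff_succ_X_mul, coeff_derivative]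
    push_cast
    ring

lemma th_mul (f g : PowerSeries R) : th (f * g) = th f * g + f * th g := by
  have h : d⁄dX R (f * g) = f * d⁄dX R g + g * d⁄dX R f := by
    rw [Derivation.leibniz, smul_eq_mul, smul_eq_mul]
  rw [th, h, th, th]
  ring

lemma th_eq_iff (f N : PowerSeries R) :
    th f = N * f ↔ ∀ k : ℕ, (k : R) * coeff k f = ∑ x ∈ Finset.HasAntidiagonal.antidiagonal k,
      coeff x.1 N * coeff x.2 f := by
  rw [PowerSeries.ext_iff]
  refine forall_congr' fun k => ?_
  rw [coeff_th, coeff_mul]

end Theta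

section Product

/-- The power series `∏ (1 - α X)`. -/
noncomputable def lser (s : Multiset ℂ) : PowerSeries ℂ := (s.map fun α => 1 - C α * X).prod

/-- The generating series of the power sums. -/
noncomputable def psum (s : Multiset ℂ) : PowerSeries ℂ :=
  mk fun j => if j = 0 then 0 else (s.map fun α => α ^ j).sum

lemma psum_cons (a : ℂ) (s : Multiset ℂ) : psum (a ::ₘ s) = psum {a} + psum s := by
  ext n
  by_cases h : n = 0
  · simp [psum, h]
  · simp [psum, h]

lemma coeff_mul_lin (f : PowerSeries ℂ) (a : ℂ) (n : ℕ) :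
    coeff (n + 1) (f * (1 - C a * X)) = coeff (n + 1) f - a * coeff n f := by
  have h : f * (1 - C a * X) = f - C a * (f * X) := by ring
  rw [h, map_sub, coeff_C_mul, coeff_succ_mul_X]

lemma th_lin (a : ℂ) : th (1 - C a * X) = -psum {a} * (1 - C a * X) := by
  ext n
  cases n with
  | zero => rw [coeff_th]; simp [psum]
  | succ n =>
    rw [coeff_th, neg_mul, map_neg, coeff_mul_lin]
    cases n with
    | zero => simp [psum, coeff_one]
    | succ n =>
      simp only [psum, coeff_mk, map_sub, coeff_C_mul, coeff_one]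
      simp [coeff_X]
      ring

lemma th_lser (s : Multiset ℂ) : th (lser s) = -psum s * lser s := by
  induction s using Multiset.induction_on with
  | empty =>
    ext n
    rw [coeff_th]
    cases n with
    | zero => simp [lser, psum]
    | succ n => simp [lser, psum, coeff_one]
  | cons a s ih =>
    have h1 : lser (a ::ₘ s) = (1 - C a * X) * lser s := by simp [lser]
    rw [h1, th_mul, ih, th_lin, psum_cons]
    ring

lemma exists_lser (n : ℕ) : ∀ p : Polynomial ℂ, p.natDegree = n → p.coeff 0 = 1 →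
    ∃ s : Multiset ℂ, (p : PowerSeries ℂ) = lser s ∧ ∀ a ∈ s, a ≠ 0 ∧ p.eval a⁻¹ = 0 := by
  induction n with
  | zero =>
    intro p hp h0
    refine ⟨0, ?_, by simp⟩
    have h1 := Polynomial.eq_C_of_natDegree_eq_zero hp
    rw [h0] at h1
    rw [h1]
    simp [lser]
  | succ n ih =>
    intro p hp h0
    have hdeg : p.degree ≠ 0 := by
      intro h
      have := Polynomial.natDegree_eq_zero_iff_degree_le_zero.2 h.le
      omega
    obtain ⟨r, hr⟩ := IsAlgClosed.exists_root p hdeg
    have hr0 : r ≠ 0 := by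
      rintro rfl
      rw [Polynomial.IsRoot.def, ← Polynomial.coeff_zero_eq_eval_zero, h0] at hr
      exact one_ne_zero hr
    obtain ⟨g, hg⟩ := Polynomial.dvd_iff_isRoot.2 hr
    set G : Polynomial ℂ := -(Polynomial.C r * g) with hG
    have hp0 : p ≠ 0 := by
      rintro rfl
      simp at h0
    have hg0 : g ≠ 0 := by
      rintro rfl
      exact hp0 (by rw [hg, mul_zero])
    have hpG : p = (1 - Polynomial.C r⁻¹ * Polynomial.X) * G := by
      rw [hG, hg]
      have : Polynomial.C r⁻¹ * Polynomial.C r = 1 := by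
        rw [← Polynomial.C_mul, inv_mul_cancel₀ hr0, Polynomial.C_1]
      linear_combination (-(Polynomial.X : Polynomial ℂ) * g) * this
    have hGdeg : G.natDegree = n := by
      have h3 : p.natDegree = 1 + g.natDegree := by
        rw [hg, Polynomial.natDegree_mul (Polynomial.X_sub_C_ne_zero r) hg0,
          Polynomial.natDegree_X_sub_C]
      rw [hG, Polynomial.natDegree_neg, Polynomial.natDegree_C_mul hr0]
      omega
    have hG0 : G.coeff 0 = 1 := by
      have h4 := congrArg (fun f => Polynomial.coeff f 0) hpG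
      simp only [Polynomial.mul_coeff_zero, Polynomial.coeff_sub, Polynomial.coeff_one_zero,
        Polynomial.coeff_X_zero, mul_zero, sub_zero, one_mul] at h4
      rw [← h4, h0]
    obtain ⟨s, hs, hs'⟩ := ih G hGdeg hG0
    refine ⟨r⁻¹ ::ₘ s, ?_, fun a ha => ?_⟩
    · have h5 : lser (r⁻¹ ::ₘ s) = (1 - C r⁻¹ * X) * lser s := by simp [lser]
      rw [h5, ← hs, hpG]
      simp
    · rcases Multiset.mem_cons.1 ha with rfl | ha
      · exact ⟨inv_ne_zero hr0, by rw [inv_inv]; exact hr⟩
      · refine ⟨(hs' a ha).1, ?_⟩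
        rw [hpG, Polynomial.eval_mul, (hs' a ha).2, mul_zero]

end Product

section Cesaro

/-- Averages of powers. -/
lemma avg_pow (γ : ℂ) (hγ : ‖γ‖ ≤ 1) :
    Tendsto (fun n : ℕ => (n : ℝ)⁻¹ • ∑ j ∈ Finset.range n, γ ^ (j + 1)) atTop
      (𝓝 (if γ = 1 then 1 else 0)) := by
  by_cases h : γ = 1
  · subst h
    rw [if_pos rfl]
    refine tendsto_const_nhds.congr' ?_
    filter_upwards [eventually_gt_atTop 0] with n hn
    have hn' : (n : ℂ) ≠ 0 := by exact_mod_cast hn.ne'
    simp only [one_pow, Finset.sum_const, Finset.card_range, nsmul_eq_mul, mul_one]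
    rw [Complex.real_smul]
    push_cast
    rw [inv_mul_cancel₀ hn']
  · rw [if_neg h]
    rw [tendsto_zero_iff_norm_tendsto_zero]
    have h1 : γ - 1 ≠ 0 := sub_ne_zero.2 h
    have h2 : ∀ n : ℕ, ‖∑ j ∈ Finset.range n, γ ^ (j + 1)‖ ≤ 2 / ‖γ - 1‖ := by
      intro n
      have h3 : ∑ j ∈ Finset.range n, γ ^ (j + 1) = γ * ((γ ^ n - 1) / (γ - 1)) := by
        rw [← geom_sum_eq h, Finset.mul_sum]
        exact Finset.sum_congr rfl fun j _ => by ring
      rw [h3, norm_mul, norm_div]
      have h4 : ‖γ ^ n - 1‖ ≤ 2 := by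
        refine (norm_sub_le _ _).trans ?_
        rw [norm_pow, norm_one]
        have := pow_le_one₀ (norm_nonneg γ) hγ (n := n)
        linarith
      have h5 : 0 < ‖γ - 1‖ := norm_pos_iff.2 h1
      calc ‖γ‖ * (‖γ ^ n - 1‖ / ‖γ - 1‖) ≤ 1 * (2 / ‖γ - 1‖) :=
            mul_le_mul hγ (div_le_div_of_nonneg_right h4 h5.le) (by positivity) zero_le_one
        _ = _ := one_mul _
    refine squeeze_zero (fun n => norm_nonneg _) (fun n => ?_)
      ((tendsto_inv_atTop_nhds_zero_nat (𝕜 := ℝ)).mul_const (2 / ‖γ - 1‖) |>.trans (by simp))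
    rw [norm_smul, norm_inv, Real.norm_natCast]
    exact mul_le_mul_of_nonneg_left (h2 n) (by positivity)

/-- Averages of power sums. -/
lemma avg_psum (t : Multiset ℂ) (ht : ∀ γ ∈ t, ‖γ‖ ≤ 1) :
    Tendsto (fun n : ℕ => (n : ℝ)⁻¹ • ∑ j ∈ Finset.range n, (t.map fun γ => γ ^ (j + 1)).sum) atTop
      (𝓝 (t.count 1 : ℂ)) := by
  induction t using Multiset.induction_on with
  | empty => simp
  | cons a t ih =>
    have h1 := avg_pow a (ht a (Multiset.mem_cons_self a t))
    have h2 := ih fun γ hγ => ht γ (Multiset.mem_cons_of_mem hγ)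
    have h3 := h1.add h2
    refine (h3.congr fun n => ?_).trans ?_
    · rw [← smul_add, ← Finset.sum_add_distrib]
      congr 1
      refine Finset.sum_congr rfl fun j _ => ?_
      rw [Multiset.map_cons, Multiset.sum_cons]
    · rw [Multiset.count_cons]
      by_cases h : a = 1
      · subst h
        simp [add_comm]
      · rw [if_neg h, if_neg (Ne.symm h)]
        simp

lemma psum_tendsto_zero (t : Multiset ℂ) (ht : ∀ γ ∈ t, ‖γ‖ < 1) :
    Tendsto (fun n : ℕ => (t.map fun γ => γ ^ n).sum) atTop (𝓝 0) := by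
  induction t using Multiset.induction_on with
  | empty => simp
  | cons a t ih =>
    have h1 := tendsto_pow_atTop_nhds_zero_of_norm_lt_one (ht a (Multiset.mem_cons_self a t))
    have h2 := ih fun γ hγ => ht γ (Multiset.mem_cons_of_mem hγ)
    have h3 := h1.add h2
    rw [add_zero] at h3
    refine h3.congr fun n => ?_
    rw [Multiset.map_cons, Multiset.sum_cons]

end Cesaro

/-- Positivity of the value at the boundary point. -/
lemma pos_at (q : ℝ) (hq : 1 < q) (S N : ℕ → ℝ) (D : ℕ) (hS0 : S 0 = 1)
    (hSD : ∀ m, D ≤ m → S m = 0) (hN0 : N 0 = 0)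
    (hrec : ∀ k : ℕ, (k : ℝ) * S k = ∑ x ∈ Finset.HasAntidiagonal.antidiagonal k, N x.1 * S x.2)
    (hc : ∀ j, 0 ≤ q ^ j + N j) (hev : ∀ j, Even j → 0 < j → 1 ≤ q ^ j + N j) :
    0 < ∑ m ∈ Finset.range D, S m * (q⁻¹) ^ m := by
  have hq0 : q ≠ 0 := by positivity
  let Z : PowerSeries ℝ := mk fun k => q ^ k
  let L : PowerSeries ℝ := mk S
  let Q : PowerSeries ℝ := mk fun j => if j = 0 then 0 else q ^ j
  let NN : PowerSeries ℝ := mk N
  have hL : th L = NN * L := by
    rw [th_eq_iff]
    intro k
    simp only [L, NN, coeff_mk]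
    exact hrec k
  have hZ : th Z = Q * Z := by
    rw [th_eq_iff]
    intro k
    simp only [Z, Q, coeff_mk]
    have h1 : ∀ x ∈ Finset.HasAntidiagonal.antidiagonal k, (if x.1 = 0 then 0 else q ^ x.1) * q ^ x.2 =
        q ^ k - if x = (0, k) then q ^ k else 0 := by
      intro x hx
      have hx' := Finset.HasAntidiagonal.mem_antidiagonal.1 hx
      by_cases h : x.1 = 0
      · have h2 : x = (0, k) := Prod.ext h (by simpa [h] using hx')
        rw [if_pos h, if_pos h2]
        ring
      · have h2 : x ≠ (0, k) := fun h3 => h (by rw [h3])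
        rw [if_neg h, if_neg h2, ← pow_add, hx', sub_zero]
    rw [Finset.sum_congr rfl h1, Finset.sum_sub_distrib, Finset.sum_const,
      Finset.Nat.card_antidiagonal, Finset.sum_ite_eq', if_pos (by simp), nsmul_eq_mul]
    push_cast
    ring
  have hB : th (Z * L) = (Q + NN) * (Z * L) := by
    rw [th_mul, hZ, hL]
    ring
  set b : ℕ → ℝ := fun k => coeff k (Z * L) with hb
  set c : ℕ → ℝ := fun j => coeff j (Q + NN) with hcdef
  have hc0 : ∀ j, 0 ≤ c j := by
    intro j
    simp only [hcdef, map_add, Q, NN, coeff_mk]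
    by_cases h : j = 0
    · rw [if_pos h, h, hN0, add_zero]
    · rw [if_neg h]
      exact hc j
  have hbrec : ∀ k : ℕ, (k : ℝ) * b k = ∑ x ∈ Finset.HasAntidiagonal.antidiagonal k, c x.1 * b x.2 :=
    (th_eq_iff _ _).1 hB
  have hb0 : b 0 = 1 := by
    simp [hb, Z, L, coeff_mul, hS0]
  have hbnn : ∀ k, 0 ≤ b k := by
    intro k
    induction k using Nat.strong_induction_on with
    | _ k ih =>
      rcases Nat.eq_zero_or_pos k with rfl | hk
      · rw [hb0]
        exact zero_le_one
      · have h1 : 0 ≤ (k : ℝ) * b k := by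
          rw [hbrec]
          refine Finset.sum_nonneg fun x hx => ?_
          have hx' := Finset.HasAntidiagonal.mem_antidiagonal.1 hx
          rcases Nat.eq_zero_or_pos x.1 with h | h
          · have : c x.1 = 0 := by
              rw [h]
              simp [hcdef, Q, NN, hN0]
            rw [this, zero_mul]
          · exact mul_nonneg (hc0 _) (ih _ (by omega))
        have hk' : (0 : ℝ) < k := by exact_mod_cast hk
        exact nonneg_of_mul_nonneg_right h1 hk'
  -- a large even index
  obtain ⟨k, hkD, hkev, hkpos⟩ : ∃ k, D ≤ k ∧ Even k ∧ 0 < k :=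
    ⟨2 * (D + 1), by omega, even_two_mul _, by omega⟩
  have hbk : 0 < b k := by
    have h1 : 1 ≤ (k : ℝ) * b k := by
      rw [hbrec]
      have h2 : c k * b 0 ≤ ∑ x ∈ Finset.HasAntidiagonal.antidiagonal k, c x.1 * b x.2 :=
        Finset.single_le_sum (f := fun x : ℕ × ℕ => c x.1 * b x.2)
          (fun x _ => mul_nonneg (hc0 _) (hbnn _)) (a := (k, 0)) (by simp)
      have h3 : 1 ≤ c k := by
        simp only [hcdef, map_add, Q, NN, coeff_mk]
        rw [if_neg hkpos.ne']
        exact hev k hkev hkpos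
      rw [hb0, mul_one] at h2
      exact h3.trans h2
    have hk' : (0 : ℝ) < k := by exact_mod_cast hkpos
    by_contra h
    push Not at h
    have := mul_nonpos_of_nonneg_of_nonpos hk'.le h
    linarith
  have hbval : b k = q ^ k * ∑ m ∈ Finset.range D, S m * (q⁻¹) ^ m := by
    simp only [hb, Z, L, coeff_mul, coeff_mk]
    rw [Finset.Nat.sum_antidiagonal_eq_sum_range_succ (fun i j => q ^ i * S j) k,
      ← Finset.sum_range_reflect, Finset.mul_sum]
    symm
    have hsub : Finset.range D ⊆ Finset.range (k + 1) := Finset.range_subset_range.2 (by omega)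
    rw [Finset.sum_subset hsub]
    · refine Finset.sum_congr rfl fun m hm => ?_
      have hm' := Finset.mem_range.1 hm
      have e1 : k + 1 - 1 - m = k - m := by omega
      have e2 : k - (k - m) = m := by omega
      rw [e1, e2]
      have e3 : q ^ k = q ^ (k - m) * q ^ m := by rw [← pow_add]; congr 1; omega
      rw [e3, inv_pow]
      have : q ^ m ≠ 0 := pow_ne_zero _ hq0
      field_simp
    · intro m _ hm
      rw [hSD m (by simpa using hm)]
      simp
  rw [hbval] at hbk
  exact (mul_pos_iff_of_pos_left (by positivity)).1 hbk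

end Pool.Agent.Helper8.PT
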