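import Pool.Agent.Helper8.PT.SqRoot

/-!
# Norms through an unramified quadratic extension
-/

set_option autoImplicit false

namespace Pool.Agent.Helper8.PT

universe u

open Module Pool.Agent.Helper47.BSD Polynomial

variable {k : Type u} [NontriviallyNormedField k] [IsUltrametricDist k] [CompleteSpace k]
  {L : Type u} [Field L] [Algebra k L] [FiniteDimensional k L]

/-- If `|x - y| < |y|` in `k` then `x = y z ^ 2`. -/
lemma exists_sq_mul_base (h2 : ‖(2 : k)‖ = 1) {x y : k} (h : ‖x - y‖ < ‖y‖) :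
    ∃ z : k, z ≠ 0 ∧ x = y * z ^ 2 := by
  have hy : y ≠ 0 := by
    rintro rfl
    rw [norm_zero] at h
    exact absurd h (not_lt.2 (norm_nonneg _))
  have hy' : 0 < ‖y‖ := norm_pos_iff.2 hy
  obtain ⟨z, hz⟩ := exists_sqrt_normed h2 (a := (x - y) / y) (by
    rw [norm_div, div_lt_one hy']
    exact h)
  refine ⟨z, ?_, ?_⟩
  · rintro rfl
    have h1 : x = 0 := by
      field_simp at hz
      linear_combination -hz
    rw [h1, zero_sub, norm_neg] at h
    exact lt_irrefl _ h
  · rw [hz]
    field_simp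
    ring

omit [IsUltrametricDist k] [CompleteSpace k] in
lemma finrank_adjoin_sqrt {κ : k} (hκ : ¬ IsSquare κ) {z : L} (hz : z ^ 2 = algebraMap k L κ) :
    finrank k (IntermediateField.adjoin k {z}) = 2 := by
  have hint : IsIntegral k z := Algebra.IsIntegral.isIntegral z
  rw [IntermediateField.adjoin.finrank hint]
  have h1 : aeval z (X ^ 2 - C κ : k[X]) = 0 := by simp [hz]
  have hdeg : (X ^ 2 - C κ : k[X]).natDegree = 2 := natDegree_X_pow_sub_C
  have hne : (X ^ 2 - C κ : k[X]) ≠ 0 := by
    intro h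
    rw [h, natDegree_zero] at hdeg
    exact absurd hdeg (by norm_num)
  have h2 : (minpoly k z).natDegree ≤ 2 := by
    rw [← hdeg]
    exact natDegree_le_of_dvd (minpoly.dvd k z h1) hne
  have h3 : 0 < (minpoly k z).natDegree := minpoly.natDegree_pos hint
  have h4 : (minpoly k z).natDegree ≠ 1 := by
    intro h
    obtain ⟨c, hc⟩ := minpoly.natDegree_eq_one_iff.1 h
    apply hκ
    refine ⟨c, ?_⟩
    have : algebraMap k L κ = algebraMap k L (c * c) := by rw [← hz, ← hc, map_mul, pow_two]
    exact (algebraMap k L).injective this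
  omega

omit [IsUltrametricDist k] [CompleteSpace k] in
lemma exists_add_mul {κ : k} {z : L} (hz : z ^ 2 = algebraMap k L κ)
    (w : IntermediateField.adjoin k {z}) :
    ∃ a b : k, (w : L) = algebraMap k L a + algebraMap k L b * z := by
  have hint : IsIntegral k z := Algebra.IsIntegral.isIntegral z
  have hw : (w : L) ∈ Algebra.adjoin k {z} := by
    rw [← IntermediateField.adjoin_simple_toSubalgebra_of_isAlgebraic hint.isAlgebraic]
    exact w.2
  rw [Algebra.adjoin_singleton_eq_range_aeval] at hw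
  obtain ⟨g, hg⟩ := hw
  have hg' : aeval z g = (w : L) := hg
  have hm : (X ^ 2 - C κ : k[X]).Monic := monic_X_pow_sub_C κ two_ne_zero
  have h1 : aeval z (X ^ 2 - C κ : k[X]) = 0 := by simp [hz]
  have h2 : aeval z (g %ₘ (X ^ 2 - C κ)) = (w : L) := by
    have := congrArg (aeval z) (modByMonic_add_div g (X ^ 2 - C κ))
    rw [map_add, map_mul, h1, zero_mul, add_zero, hg'] at this
    exact this
  have h3 : (g %ₘ (X ^ 2 - C κ)).natDegree ≤ 1 := by
    have h4 := natDegree_modByMonic_lt g hm (by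
      intro h
      have h5 := congrArg natDegree h
      rw [natDegree_X_pow_sub_C, natDegree_one] at h5
      exact absurd h5 (by norm_num))
    rw [natDegree_X_pow_sub_C] at h4
    omega
  refine ⟨(g %ₘ (X ^ 2 - C κ)).coeff 0, (g %ₘ (X ^ 2 - C κ)).coeff 1, ?_⟩
  rw [← h2, aeval_eq_sum_range' (n := 2) (by omega)]
  simp [Finset.sum_range_succ, Algebra.smul_def]

/-- The absolute values on an unramified quadratic extension are those of the base. -/
lemma specAbs_adjoin_sqrt (h2 : ‖(2 : k)‖ = 1) {κ : k} (hκ1 : ‖κ‖ = 1) (hκ : ¬ IsSquare κ) {z : L}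
    (hz : z ^ 2 = algebraMap k L κ) (w : L) (a b : k)
    (hw : w = algebraMap k L a + algebraMap k L b * z) (hw0 : w ≠ 0) :
    ∃ r : k, r ≠ 0 ∧ specAbs k L w = ‖r‖ := by
  have hz1 : specAbs k L z = 1 := by
    have h3 : specAbs k L z ^ 2 = 1 := by rw [← map_pow, hz, specAbs_algebraMap, hκ1]
    exact (pow_eq_one_iff_of_nonneg ((specAbs k L).nonneg z) two_ne_zero).1 h3
  have hbz : specAbs k L (algebraMap k L b * z) = ‖b‖ := by
    rw [map_mul, hz1, mul_one, specAbs_algebraMap]
  have ha : specAbs k L (algebraMap k L a) = ‖a‖ := specAbs_algebraMap a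
  rcases lt_trichotomy ‖a‖ ‖b‖ with hab | hab | hab
  · refine ⟨b, ?_, ?_⟩
    · rintro rfl
      rw [norm_zero] at hab
      exact absurd hab (not_lt.2 (norm_nonneg _))
    · have h4 : w = algebraMap k L b * z - -(algebraMap k L a) := by rw [hw]; ring
      rw [h4, abs_sub_eq specAbs_add_le (by rw [AbsoluteValue.map_neg, ha, hbz]; exact hab), hbz]
  · -- equal absolute values
    have hb0 : b ≠ 0 := by
      rintro rfl
      rw [norm_zero, norm_eq_zero] at hab
      rw [hab, map_zero, zero_mul, add_zero] at hw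
      exact hw0 hw
    refine ⟨b, hb0, ?_⟩
    have hle : specAbs k L w ≤ ‖b‖ := by
      rw [hw]
      refine (specAbs_add_le _ _).trans (max_le (by rw [ha, hab]) (by rw [hbz]))
    refine le_antisymm hle ?_
    by_contra hlt
    push Not at hlt
    have hle' : specAbs k L (algebraMap k L a - algebraMap k L b * z) ≤ ‖b‖ := by
      rw [sub_eq_add_neg]
      refine (specAbs_add_le _ _).trans (max_le (by rw [ha, hab]) (by
        rw [AbsoluteValue.map_neg, hbz]))
    have h5 : algebraMap k L (a ^ 2 - κ * b ^ 2) =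
        w * (algebraMap k L a - algebraMap k L b * z) := by
      rw [hw, map_sub, map_mul, map_pow, map_pow, ← hz]
      ring
    have hbpos : 0 < ‖b‖ := norm_pos_iff.2 hb0
    have h6 : ‖a ^ 2 - κ * b ^ 2‖ < ‖b‖ ^ 2 := by
      rw [← specAbs_algebraMap (L := L), h5, map_mul, pow_two]
      calc specAbs k L w * specAbs k L (algebraMap k L a - algebraMap k L b * z)
          ≤ specAbs k L w * ‖b‖ := mul_le_mul_of_nonneg_left hle' ((specAbs k L).nonneg _)
        _ < ‖b‖ * ‖b‖ := mul_lt_mul_of_pos_right hlt hbpos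
    obtain ⟨s, hs0, hs⟩ := exists_sq_mul_base h2 (x := a ^ 2) (y := κ * b ^ 2) (by
      rw [norm_mul, hκ1, one_mul, norm_pow]
      exact h6)
    apply hκ
    refine ⟨a / (b * s), ?_⟩
    field_simp
    linear_combination -hs
  · refine ⟨a, ?_, ?_⟩
    · rintro rfl
      rw [norm_zero] at hab
      exact absurd hab (not_lt.2 (norm_nonneg _))
    · have h4 : w = algebraMap k L a - -(algebraMap k L b * z) := by rw [hw]; ring
      rw [h4, abs_sub_eq specAbs_add_le (by rw [AbsoluteValue.map_neg, ha, hbz]; exact hab), ha]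

/-- Norms from a field which contains the square root of a nonsquare unit. -/
theorem quad_norm (h2 : ‖(2 : k)‖ = 1) {κ : k} (hκ1 : ‖κ‖ = 1) (hκ : ¬ IsSquare κ) {z : L}
    (hz : z ^ 2 = algebraMap k L κ) :
    Even (finrank k L) ∧ ∀ w : L, w ≠ 0 → ∃ r : k, r ≠ 0 ∧ ‖Algebra.norm k w‖ = ‖r‖ ^ 2 := by
  have hfr := finrank_adjoin_sqrt hκ hz
  refine ⟨?_, fun w hw => ?_⟩
  · rw [← Module.finrank_mul_finrank k (IntermediateField.adjoin k {z}) L, hfr]
    exact even_two_mul _
  · let K' := IntermediateField.adjoin k {z}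
    let w' : K' := Algebra.norm K' w
    have hw' : w' ≠ 0 := Algebra.norm_ne_zero_iff.2 hw
    have h3 : Algebra.norm k w = Algebra.norm k w' := (Algebra.norm_norm).symm
    obtain ⟨a, b, hab⟩ := exists_add_mul hz w'
    have hzK : z ∈ K' := IntermediateField.mem_adjoin_simple_self k z
    have hz' : (⟨z, hzK⟩ : K') ^ 2 = algebraMap k K' κ := by
      apply Subtype.ext
      exact hz
    have hab' : w' = algebraMap k K' a + algebraMap k K' b * ⟨z, hzK⟩ := by
      apply Subtype.ext
      exact hab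
    obtain ⟨r, hr0, hr⟩ := specAbs_adjoin_sqrt (L := K') h2 hκ1 hκ hz' w' a b hab' hw'
    refine ⟨r, hr0, ?_⟩
    rw [h3, norm_norm_eq, hr]
    congr 1

end Pool.Agent.Helper8.PT
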