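import Pool.Agent.Helper8.PT.Core

/-!
# Selmer groups of prime twists
-/

set_option autoImplicit false

namespace Pool.Agent.Helper8.PT

open Module Pool.Agent.Helper47.BSD Polynomial Classical UniqueFactorizationMonoid

variable {F : Type} [Field F] {ι : Type} [Fintype ι]

/-- The monic primes at which two branch points collide. -/
noncomputable def bad (e : ι → F[X]) : Finset F[X] :=
  (normalizedFactors (∏ x ∈ (Finset.univ : Finset ι).offDiag, (e x.1 - e x.2))).toFinset

lemma mem_bad {e : ι → F[X]} (hne : ∀ i j, i ≠ j → e i - e j ≠ 0) {π : F[X]} :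
    π ∈ bad e ↔ π.Monic ∧ Irreducible π ∧ ∃ i j, i ≠ j ∧ π ∣ e i - e j := by
  have h0 : ∏ x ∈ (Finset.univ : Finset ι).offDiag, (e x.1 - e x.2) ≠ 0 :=
    Finset.prod_ne_zero_iff.2 fun x hx => hne _ _ (Finset.mem_offDiag.1 hx).2.2
  rw [bad, Multiset.mem_toFinset, mem_normalizedFactors_iff' h0]
  constructor
  · rintro ⟨h1, h2, h3⟩
    refine ⟨?_, h1, ?_⟩
    · rw [← h2]
      exact monic_normalize h1.ne_zero
    · rw [h1.prime.dvd_finsetProd_iff] at h3
      obtain ⟨x, hx, hd⟩ := h3
      exact ⟨x.1, x.2, (Finset.mem_offDiag.1 hx).2.2, hd⟩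
  · rintro ⟨h1, h2, i, j, hij, hd⟩
    refine ⟨h2, h1.normalize_eq_self, ?_⟩
    have h4 : (i, j) ∈ (Finset.univ : Finset ι).offDiag := by simp [hij]
    have h5 : e i - e j ∣ ∏ x ∈ (Finset.univ : Finset ι).offDiag, (e x.1 - e x.2) := by
      rw [← Finset.mul_prod_erase _ _ h4]
      exact dvd_mul_right _ _
    exact dvd_trans hd h5

section

variable (J J' : F[X] → ι) (n : ℕ) (a b : ι)

/-- The indicator of the colliding pair. -/
noncomputable def ind (i : ι) (Q : F[X]) : ZMod 2 := if i = J Q ∨ i = J' Q then 1 else 0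

/-- The leading coefficient classes as a function of the parities. -/
noncomputable def lead (e : ι → F[X]) (Q : F[X]) (i : ι) : ZMod 2 :=
  (Q.natDegree : ZMod 2) * ∑ j, ind J J' j Q * tl e (sw e n a b j) i

/-- The class of the product of the other differences. -/
noncomputable def eps (e : ι → F[X]) (π : F[X]) : ZMod 2 :=
  ∑ i ∈ others (J π) (J' π), lg π (e (J π) - e i)

/-- The matrix of the descent. -/
noncomputable def mat (e : ι → F[X]) (u : F) (π Q : F[X]) : ZMod 2 :=
  lg π (C u) * (lead J J' n a b e Q (J π) + lead J J' n a b e Q (J' π)) +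
    (ind J J' (J π) Q + ind J J' (J' π) Q) * lg π Q + (if Q = π then eps J J' e π else 0)

/-- The primes at which the colliding branch points differ by an element of odd order. -/
noncomputable def oddBad (e : ι → F[X]) : Finset F[X] :=
  (bad e).filter fun π => ∃ h : Irreducible π,
    par π h (algebraMap F[X] (RatFunc F) (e (J π) - e (J' π))) = 1

variable [Finite F] (p : ℕ) [CharP F p]

theorem good_square (hp : p.Prime) (hp2 : p ≠ 2) (hodd : Odd (Fintype.card ι)) {e : ι → F[X]}
    (hdeg : EqualDegrees e n a b) (hcop : PairCoprime e) {u : F}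
    (hu : ¬ IsSquare u) (hJ : ∀ π ∈ bad e, J π ≠ J' π ∧ π ∣ e (J π) - e (J' π))
    {s : F[X] → ZMod 2} (hs : ∀ v : F[X] → ZMod 2, (∀ k, k ∉ oddBad J J' e → v k = 0) →
      (∀ k ∈ oddBad J J' e, ∑ l ∈ oddBad J J' e, mat J J' n a b e u k l * v l + s k * v k = 0) →
        ∀ k, v k = 0)
    {P : F[X]} (hPm : P.Monic) (hP : Irreducible P) (hPe : ∀ i j, i ≠ j → ¬ P ∣ e i - e j)
    (hpar : Odd (P.natDegree + n)) (hs0 : ∀ π ∈ oddBad J J' e, lg π P = s π)
    (hs1 : ∀ π ∈ bad e, π ∉ oddBad J J' e → lg π P = 1 + eps J J' e π)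
    {d : ι → (RatFunc F)ˣ} (hg : Good P e d) (hdP : ∀ i, par P hP (d i : RatFunc F) = 0) (i : ι) :
    IsSquare (d i : RatFunc F) := by
  have h2 := ringChar_ne (F := F) p hp2
  have hne := hdeg.ne
  have hoddc : Odd (Fintype.card ι) := hodd
  -- properties of the bad primes
  have hbP : ∀ π ∈ bad e, ¬ π ∣ P := by
    intro π hπ hd
    obtain ⟨hm, hirr, i, j, hij, hd'⟩ := (mem_bad hne).1 hπ
    have : π = P := eq_of_monic_of_associated hm hPm (hirr.associated_of_dvd hP hd)
    exact hPe i j hij (this ▸ hd')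
  -- square classes
  have hrep := fun i => ratFunc_repr (d i : RatFunc F) (d i).ne_zero
  choose c hc S hS x hx hd using hrep
  have hparS : ∀ i Q (hQ : Irreducible Q), Q.Monic →
      par Q hQ (d i : RatFunc F) = if Q ∈ S i then 1 else 0 := by
    intro i Q hQ hQm
    rw [hd i]
    exact par_repr (hc i) (hS i) (hx i) hQ hQm
  -- the classes of the products of the other differences
  set kp : F[X] → F[X] := fun π => ∏ i ∈ others (J π) (J' π), (P * (e (J π) - e i)) with hkp
  have hkpnd : ∀ π ∈ bad e, ∀ i ∈ others (J π) (J' π), ¬ π ∣ P * (e (J π) - e i) := by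
    intro π hπ i hi hdv
    obtain ⟨hm, hirr, -⟩ := (mem_bad hne).1 hπ
    rw [mem_others] at hi
    rcases hirr.prime.dvd_or_dvd hdv with h | h
    · exact hbP π hπ h
    · exact hcop.not_dvd hirr (hJ π hπ).1 (hJ π hπ).2 hi.2.symm (fun h => hi.1 h.2)
        (fun h => (hJ π hπ).1 h.1) h
  have hkpnd' : ∀ π ∈ bad e, ¬ π ∣ kp π := fun π hπ =>
    not_dvd_prod ((mem_bad hne).1 hπ).2.1 _ _ (hkpnd π hπ)
  have hlgkp : ∀ π ∈ bad e, lg π (kp π) = lg π P + eps J J' e π := by
    intro π hπ
    obtain ⟨hm, hirr, -⟩ := (mem_bad hne).1 hπ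
    rw [hkp, lg_prod hirr h2 _ _ (hkpnd π hπ), eps]
    have h3 : ∀ i ∈ others (J π) (J' π), lg π (P * (e (J π) - e i)) =
        lg π P + lg π (e (J π) - e i) := fun i hi =>
      lg_mul hirr h2 (hbP π hπ) fun h => hkpnd π hπ i hi (h.mul_left P)
    rw [Finset.sum_congr rfl h3, Finset.sum_add_distrib, Finset.sum_const]
    have hcard : (others (J π) (J' π)).card = Fintype.card ι - 1 - 1 := by
      rw [others, Finset.card_erase_of_mem (by simp [(hJ π hπ).1.symm]),
        Finset.card_erase_of_mem (Finset.mem_univ _), Finset.card_univ]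
    have hodd1 : (((others (J π) (J' π)).card : ℕ) : ZMod 2) = 1 := by
      rw [ZMod.natCast_eq_one_iff_odd, hcard]
      have h5 : 1 < Fintype.card ι := Fintype.one_lt_card_iff.2 ⟨_, _, (hJ π hπ).1⟩
      obtain ⟨m, hm⟩ := hodd
      exact ⟨m - 1, by omega⟩
    rw [nsmul_eq_mul, hodd1, one_mul]
  -- the conditions at the nodes
  have hnode : ∀ π ∈ bad e, ∀ hπ : Irreducible π,
      (∀ i, i ≠ J π → i ≠ J' π → par π hπ (d i : RatFunc F) = 0) ∧
      par π hπ (d (J π) : RatFunc F) = par π hπ (d (J' π) : RatFunc F) ∧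
      (par π hπ (algebraMap F[X] (RatFunc F) (P * (e (J π) - e (J' π)))) = 1 → ∀ v : ℕ,
        (v : ZMod 2) = par π hπ (d (J π) : RatFunc F) →
        IsSquare (algebraMap (RatFunc F) (pabs π hπ).Completion
          ((d (J π) : RatFunc F) * d (J' π) * algebraMap F[X] (RatFunc F) (kp π) ^ v))) ∧
      (par π hπ (algebraMap F[X] (RatFunc F) (P * (e (J π) - e (J' π)))) = 0 →
        ¬ IsSquare (algebraMap (RatFunc F) (pabs π hπ).Completion
          (algebraMap F[X] (RatFunc F) (kp π))) → par π hπ (d (J π) : RatFunc F) = 0) := by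
    intro π hπb hπ
    refine node_par p hp hπ ((pabs_coe_eq_one_iff hπ).2 (hkpnd' π hπb))
      (coe_ne_zero (mul_ne_zero hP.ne_zero (hne _ _ (hJ π hπb).1))) ?_
    have h3 := hg.node π hπ (hbP π hπb) (J π) (J' π) (hJ π hπb).1 (hJ π hπb).2
    have e1 : kap (brc P e (pabs π hπ)) (J π) (J' π) =
        algebraMap (RatFunc F) (pabs π hπ).Completion
          (algebraMap F[X] (RatFunc F) (kp π)) := by
      rw [kap, hkp, map_prod, map_prod]
      refine Finset.prod_congr rfl fun i _ => ?_
      rw [brc, brc, ← map_sub, br_sub]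
    have e2 : brc P e (pabs π hπ) (J π) - brc P e (pabs π hπ) (J' π) =
        algebraMap (RatFunc F) (pabs π hπ).Completion
          (algebraMap F[X] (RatFunc F) (P * (e (J π) - e (J' π)))) := by
      rw [brc, brc, ← map_sub, br_sub]
    rw [e1, e2] at h3
    exact h3
  -- the unknown vector
  set v : F[X] → ZMod 2 := fun Q => if Q ∈ bad e ∧ Q ∈ S (J Q) then 1 else 0 with hv
  have hvpar : ∀ π ∈ bad e, ∀ hπ : Irreducible π, par π hπ (d (J π) : RatFunc F) = v π := by
    intro π hπb hπ
    rw [hparS _ π hπ ((mem_bad hne).1 hπb).1, hv]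
    simp [hπb]
  have hmemS : ∀ i Q, Q ∈ S i ↔ Q ∈ bad e ∧ ind J J' i Q * v Q = 1 := by
    intro i Q
    constructor
    · intro hQ
      obtain ⟨hQm, hQi⟩ := hS i Q hQ
      have h1 : par Q hQi (d i : RatFunc F) = 1 := by rw [hparS i Q hQi hQm, if_pos hQ]
      have hQb : Q ∈ bad e := by
        by_contra hQb
        by_cases hQP : Q ∣ P
        · have : Q = P := eq_of_monic_of_associated hQm hPm (hQi.associated_of_dvd hP hQP)
          subst this
          rw [hdP i] at h1
          exact absurd h1 (by decide)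
        · have h3 := hg.good Q hQi hQP (fun a b hab hd' =>
            hQb ((mem_bad hne).2 ⟨hQm, hQi, a, b, hab, hd'⟩)) i
          rw [h3] at h1
          exact absurd h1 (by decide)
      refine ⟨hQb, ?_⟩
      obtain ⟨hn1, hn2, -⟩ := hnode Q hQb hQi
      rw [← hvpar Q hQb hQi]
      by_cases hiJ : i = J Q
      · rw [← hiJ, h1, ind, if_pos (Or.inl hiJ), mul_one]
      · by_cases hiJ' : i = J' Q
        · rw [hn2, ← hiJ', h1, ind, if_pos (Or.inr hiJ'), mul_one]
        · rw [hn1 i hiJ hiJ'] at h1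
          exact absurd h1 (by decide)
    · rintro ⟨hQb, h1⟩
      obtain ⟨hQm, hQi, -⟩ := (mem_bad hne).1 hQb
      obtain ⟨hn1, hn2, -⟩ := hnode Q hQb hQi
      by_contra hQS
      have h3 : par Q hQi (d i : RatFunc F) = 0 := by rw [hparS i Q hQi hQm, if_neg hQS]
      rw [← hvpar Q hQb hQi] at h1
      by_cases hiJ : i = J Q
      · rw [← hiJ, h3, mul_zero] at h1
        exact absurd h1 (by decide)
      · by_cases hiJ' : i = J' Q
        · rw [hn2, ← hiJ', h3, mul_zero] at h1
          exact absurd h1 (by decide)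
        · rw [ind, if_neg (by tauto), zero_mul] at h1
          exact absurd h1 (by decide)
  have hsumS : ∀ i (f : F[X] → ZMod 2), ∑ Q ∈ S i, f Q =
      ∑ Q ∈ bad e, ind J J' i Q * v Q * f Q := by
    intro i f
    have hsub : S i ⊆ bad e := fun Q hQ => ((hmemS i Q).1 hQ).1
    rw [← Finset.sum_subset hsub (f := fun Q => ind J J' i Q * v Q * f Q)]
    · refine Finset.sum_congr rfl fun Q hQ => ?_
      rw [((hmemS i Q).1 hQ).2, one_mul]
    · intro Q hQb hQS
      have h3 : ind J J' i Q * v Q ≠ 1 := fun h => hQS ((hmemS i Q).2 ⟨hQb, h⟩)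
      rcases zmod2_cases (ind J J' i Q * v Q) with h | h
      · rw [h, zero_mul]
      · exact absurd h h3
  -- leading coefficients
  have hql : ∀ i, ql (c i) = ∑ Q ∈ bad e, lead J J' n a b e Q i * v Q := by
    intro i
    rw [inf_lead p hp hp2 hoddc hPm hdeg hpar hg.inf hc hS hx hd i]
    have h3 : ∀ j, (∑ Q ∈ S j, (Q.natDegree : ZMod 2)) * tl e (sw e n a b j) i =
        ∑ Q ∈ bad e, (Q.natDegree : ZMod 2) * (ind J J' j Q * tl e (sw e n a b j) i) * v Q := by
      intro j
      rw [hsumS j, Finset.sum_mul]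
      exact Finset.sum_congr rfl fun Q _ => by ring
    rw [Finset.sum_congr rfl fun j _ => h3 j, Finset.sum_comm]
    refine Finset.sum_congr rfl fun Q _ => ?_
    rw [lead, Finset.mul_sum, Finset.sum_mul]
  have hmulP : ∀ π ∈ bad e, ∀ hπ : Irreducible π,
      par π hπ (algebraMap F[X] (RatFunc F) (P * (e (J π) - e (J' π)))) =
      par π hπ (algebraMap F[X] (RatFunc F) (e (J π) - e (J' π))) := by
    intro π hπb hπ
    rw [map_mul, par_mul hπ (coe_ne_zero hP.ne_zero) (coe_ne_zero (hne _ _ (hJ π hπb).1)),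
      par_of_not_dvd hπ (hbP π hπb), zero_add]
  -- the vector vanishes outside `oddBad`
  have hv0 : ∀ k, k ∉ oddBad J J' e → v k = 0 := by
    intro k hk
    by_cases hkb : k ∈ bad e
    · obtain ⟨hkm, hki, -⟩ := (mem_bad hne).1 hkb
      have h3 : par k hki (algebraMap F[X] (RatFunc F) (e (J k) - e (J' k))) = 0 := by
        rcases zmod2_cases (par k hki (algebraMap F[X] (RatFunc F) (e (J k) - e (J' k)))) with h | h
        · exact h
        · exact absurd (Finset.mem_filter.2 ⟨hkb, hki, h⟩) hk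
      rw [← hvpar k hkb hki]
      refine (hnode k hkb hki).2.2.2 (by rw [hmulP k hkb hki, h3]) fun hsq => ?_
      have h4 := lg_eq_zero.2 (isSquare_mod hki p hp (hkpnd' k hkb) hsq)
      rw [hlgkp k hkb, hs1 k hkb hk, add_assoc, CharTwo.add_self_eq_zero, add_zero] at h4
      exact absurd h4 (by decide)
    · simp [hv, hkb]
  have hsumb : ∀ f : F[X] → ZMod 2, ∑ Q ∈ bad e, f Q * v Q =
      ∑ Q ∈ oddBad J J' e, f Q * v Q := by
    intro f
    symm
    refine Finset.sum_subset (Finset.filter_subset _ _) fun Q _ hQ => ?_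
    rw [hv0 Q hQ, mul_zero]
  -- the rows
  have hrow : ∀ k ∈ oddBad J J' e,
      ∑ l ∈ oddBad J J' e, mat J J' n a b e u k l * v l + s k * v k = 0 := by
    intro k hk
    obtain ⟨hkb, hki, hk1⟩ := Finset.mem_filter.1 hk
    obtain ⟨hkm, -, -⟩ := (mem_bad hne).1 hkb
    obtain ⟨hn1, hn2, hn3, -⟩ := hnode k hkb hki
    obtain ⟨m, hm⟩ : ∃ m : ℕ, (m : ZMod 2) = v k := ⟨(v k).val, ZMod.natCast_zmod_val _⟩
    have hsq := hn3 (by rw [hmulP k hkb hki, hk1]) m (by rw [hm, hvpar k hkb hki])
    have hSS : k ∈ S (J k) ↔ k ∈ S (J' k) := by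
      have h3 := hn2
      rw [hparS _ k hki hkm, hparS _ k hki hkm] at h3
      constructor
      · intro h4
        by_contra h5
        rw [if_pos h4, if_neg h5] at h3
        exact absurd h3 (by decide)
      · intro h5
        by_contra h4
        rw [if_neg h4, if_pos h5] at h3
        exact absurd h3 (by decide)
    have h6 := node_symbol p hp hp2 hki (hc (J k)) (hc (J' k)) (hS (J k)) (hS (J' k)) hkm hSS
      (hx _) (hx _) (hd _) (hd _) (hkpnd' k hkb) m hsq
    rw [lg_C h2 hu (hc _), lg_C h2 hu (hc _), hlgkp k hkb, hs0 k hk, hm] at h6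
    have herase : ∀ i, ∑ Q ∈ (S i).erase k, lg k Q =
        ∑ Q ∈ S i, lg k Q - (if k ∈ S i then lg k k else 0) := by
      intro i
      by_cases h : k ∈ S i
      · rw [if_pos h, ← Finset.add_sum_erase (S i) (fun Q => lg k Q) h]
        ring
      · rw [if_neg h, Finset.erase_eq_of_notMem h, sub_zero]
    rw [herase, herase] at h6
    have hif : (if k ∈ S (J k) then lg k k else 0) = (if k ∈ S (J' k) then lg k k else 0) := by
      simp only [hSS]
    rw [hif, hsumS, hsumS, hql, hql] at h6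
    have hsub2 : ∀ a b c : ZMod 2, a - c + (b - c) = a + b := by decide
    rw [hsub2] at h6
    have hmat : ∑ l ∈ oddBad J J' e, mat J J' n a b e u k l * v l =
        (∑ Q ∈ bad e, lead J J' n a b e Q (J k) * v Q) * lg k (C u) +
          (∑ Q ∈ bad e, lead J J' n a b e Q (J' k) * v Q) * lg k (C u) +
          (∑ Q ∈ bad e, ind J J' (J k) Q * v Q * lg k Q +
            ∑ Q ∈ bad e, ind J J' (J' k) Q * v Q * lg k Q) + eps J J' e k * v k := by
      rw [← hsumb]
      have h7 : eps J J' e k * v k = ∑ Q ∈ bad e, (if Q = k then eps J J' e k else 0) * v Q := by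
        rw [Finset.sum_eq_single k]
        · simp
        · intro Q _ hQ
          simp [hQ]
        · intro h
          exact absurd hkb h
      rw [h7, Finset.sum_mul, Finset.sum_mul, ← Finset.sum_add_distrib, ← Finset.sum_add_distrib,
        ← Finset.sum_add_distrib, ← Finset.sum_add_distrib]
      refine Finset.sum_congr rfl fun Q _ => ?_
      rw [mat]
      ring
    rw [hmat]
    linear_combination h6
  have hvz := hs v hv0 hrow
  have hSe : S i = ∅ := by
    rw [Finset.eq_empty_iff_forall_notMem]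
    intro Q hQ
    have h3 := ((hmemS i Q).1 hQ).2
    rw [hvz Q, mul_zero] at h3
    exact absurd h3 (by decide)
  have hcz : ql (c i) = 0 := by
    rw [hql i]
    exact Finset.sum_eq_zero fun Q _ => by rw [hvz Q, mul_zero]
  obtain ⟨t, ht⟩ := ql_eq_zero.1 hcz
  refine ⟨algebraMap F[X] (RatFunc F) (C t) * x i, ?_⟩
  rw [hd i, hSe, Finset.prod_empty, mul_one, ht, C_mul, map_mul]
  ring

end

end Pool.Agent.Helper8.PT
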