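import Pool.Agent.Helper47.BSD.Spectral

/-!
# Square roots of elements near one
-/

set_option autoImplicit false

namespace Pool.Agent.Helper8.PT

universe u

open Module Pool.Agent.Helper47.BSD

lemma exists_sqrt_normed {R : Type u} [NormedField R] [IsUltrametricDist R] [CompleteSpace R]
    (h2 : ‖(2 : R)‖ = 1) {a : R} (ha : ‖a‖ < 1) : ∃ z : R, z ^ 2 = 1 + a := by
  have h20 : (2 : R) ≠ 0 := by
    intro h
    rw [h, norm_zero] at h2
    exact zero_ne_one h2
  let f : R → R := fun y => (a - y ^ 2) / 2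
  let s : Set R := Metric.closedBall 0 ‖a‖
  have hmaps : Set.MapsTo f s s := by
    intro y hy
    rw [mem_closedBall_zero_iff] at hy ⊢
    change ‖(a - y ^ 2) / 2‖ ≤ ‖a‖
    rw [norm_div, h2, div_one]
    refine ((by rw [sub_eq_add_neg]; exact (IsUltrametricDist.norm_add_le_max _ _).trans (by rw [norm_neg])) : ‖a - y ^ 2‖ ≤ max ‖a‖ ‖y ^ 2‖).trans (max_le le_rfl ?_)
    rw [norm_pow, pow_two]
    calc ‖y‖ * ‖y‖ ≤ ‖a‖ * 1 := mul_le_mul hy (hy.trans ha.le) (norm_nonneg _) (norm_nonneg _)
      _ = ‖a‖ := mul_one _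
  have hs : IsComplete s := Metric.isClosed_closedBall.isComplete
  have hc : ContractingWith ⟨‖a‖, norm_nonneg a⟩ (hmaps.restrict f s s) := by
    refine ⟨by exact_mod_cast ha, ?_⟩
    refine LipschitzWith.of_dist_le_mul fun x y => ?_
    rw [Subtype.dist_eq, Subtype.dist_eq, dist_eq_norm, dist_eq_norm]
    change ‖(a - (x : R) ^ 2) / 2 - (a - (y : R) ^ 2) / 2‖ ≤ ‖a‖ * ‖(x : R) - y‖
    have e1 : (a - (x : R) ^ 2) / 2 - (a - (y : R) ^ 2) / 2 =
        -(((x : R) + y) * ((x : R) - y)) / 2 := by ring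
    rw [e1, norm_div, h2, div_one, norm_neg, norm_mul]
    refine mul_le_mul_of_nonneg_right ?_ (norm_nonneg _)
    have hx := x.2
    have hy := y.2
    rw [mem_closedBall_zero_iff] at hx hy
    exact (IsUltrametricDist.norm_add_le_max _ _).trans (max_le hx hy)
  have h0 : (0 : R) ∈ s := by
    rw [mem_closedBall_zero_iff, norm_zero]
    exact norm_nonneg _
  obtain ⟨y, -, hy, -⟩ := hc.exists_fixedPoint' hs hmaps h0 (by
    rw [edist_dist]
    exact ENNReal.ofReal_ne_top)
  refine ⟨1 + y, ?_⟩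
  have h3 : (a - y ^ 2) / 2 = y := hy
  rw [div_eq_iff h20] at h3
  linear_combination -h3

section

variable {k : Type u} [NontriviallyNormedField k] [IsUltrametricDist k] [CompleteSpace k]
  {L : Type u} [Field L] [Algebra k L] [FiniteDimensional k L]

omit [FiniteDimensional k L] in
lemma specAbs_two [Algebra.IsAlgebraic k L] (h2 : ‖(2 : k)‖ = 1) : specAbs k L 2 = 1 := by
  have := specAbs_algebraMap (k := k) (L := L) 2
  rw [map_ofNat, h2] at this
  exact this

lemma exists_sqrt_spec (h2 : ‖(2 : k)‖ = 1) {a : L} (ha : specAbs k L a < 1) :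
    ∃ z : L, z ^ 2 = 1 + a := by
  letI hNF : NormedField L := spectralNorm.normedField k L
  haveI hcs : CompleteSpace L := spectralNorm.completeSpace k L
  haveI hul : IsUltrametricDist L := by
    refine IsUltrametricDist.isUltrametricDist_of_forall_norm_add_le_max_norm fun x y => ?_
    exact specAbs_add_le (k := k) x y
  have h2' : ‖(2 : L)‖ = 1 := specAbs_two (k := k) (L := L) h2
  exact exists_sqrt_normed h2' ha

/-- If `|x - y| < |y|` then `x = y z ^ 2`. -/
lemma exists_sq_mul (h2 : ‖(2 : k)‖ = 1) {x y : L} (h : specAbs k L (x - y) < specAbs k L y) :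
    ∃ z : L, z ≠ 0 ∧ x = y * z ^ 2 := by
  have hy : y ≠ 0 := by
    rintro rfl
    rw [map_zero] at h
    exact absurd h (not_lt.2 ((specAbs k L).nonneg _))
  have hy' : 0 < specAbs k L y := (specAbs k L).pos hy
  obtain ⟨z, hz⟩ := exists_sqrt_spec (L := L) h2 (a := (x - y) / y) (by
    rw [map_div₀, div_lt_one hy']
    exact h)
  refine ⟨z, ?_, ?_⟩
  · rintro rfl
    have h1 : x = 0 := by
      field_simp at hz
      linear_combination -hz
    rw [h1, zero_sub, AbsoluteValue.map_neg] at h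
    exact lt_irrefl _ h
  · rw [hz]
    field_simp
    ring

end

end Pool.Agent.Helper8.PT
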