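import Pool.Agent.Helper8.PT.Quad

/-!
# Norms of units in extensions of even ramification index
-/

set_option autoImplicit false

namespace Pool.Agent.Helper8.PT

universe u

open Module Pool.Agent.Helper47.BSD Polynomial

section

variable {L : Type u} [Field L]

lemma sum_lt_one {N : AbsoluteValue L ℝ} (hN : ∀ x y, N (x + y) ≤ max (N x) (N y)) {α : Type}
    (s : Finset α) (f : α → L) (h : ∀ i ∈ s, N (f i) < 1) : N (∑ i ∈ s, f i) < 1 := by
  classical
  induction s using Finset.induction_on with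
  | empty => simp
  | insert a s ha ih =>
    rw [Finset.sum_insert ha]
    exact (hN _ _).trans_lt (max_lt (h a (Finset.mem_insert_self a s))
      (ih fun i hi => h i (Finset.mem_insert_of_mem hi)))

lemma sum_le_one {N : AbsoluteValue L ℝ} (hN : ∀ x y, N (x + y) ≤ max (N x) (N y)) {α : Type}
    (s : Finset α) (f : α → L) (h : ∀ i ∈ s, N (f i) ≤ 1) : N (∑ i ∈ s, f i) ≤ 1 := by
  classical
  induction s using Finset.induction_on with
  | empty => simp
  | insert a s ha ih =>
    rw [Finset.sum_insert ha]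
    exact (hN _ _).trans (max_le (h a (Finset.mem_insert_self a s))
      (ih fun i hi => h i (Finset.mem_insert_of_mem hi)))

end

variable {k : Type u} [NontriviallyNormedField k] [IsUltrametricDist k] [CompleteSpace k]
  {L : Type u} [Field L] [Algebra k L] [FiniteDimensional k L]
  {F : Type u} [Field F]

omit [IsUltrametricDist k] [CompleteSpace k] in
lemma exists_reduction (φ : F →+* k) (hres : ∀ x : k, ‖x‖ ≤ 1 → ∃ c : F, ‖x - φ c‖ < 1)
    (a : k[X]) (ha : a ≠ 0) : ∃ c : k, c ≠ 0 ∧ ∃ g : F[X], g ≠ 0 ∧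
      g.natDegree ≤ a.natDegree ∧ ∀ i, ‖a.coeff i / c - φ (g.coeff i)‖ < 1 := by
  obtain ⟨i0, hi0, hmax⟩ := Finset.exists_max_image a.support (fun i => ‖a.coeff i‖)
    (support_nonempty.2 ha)
  set c := a.coeff i0 with hc
  have hc0 : c ≠ 0 := mem_support_iff.1 hi0
  have hle : ∀ i, ‖a.coeff i / c‖ ≤ 1 := by
    intro i
    rw [norm_div, div_le_one (norm_pos_iff.2 hc0)]
    by_cases hi : a.coeff i = 0
    · rw [hi, norm_zero]
      exact norm_nonneg _
    · exact hmax i (mem_support_iff.2 hi)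
  choose r hr using fun i => hres _ (hle i)
  let g : F[X] := ∑ i ∈ Finset.range (a.natDegree + 1), monomial i (r i)
  have hg : ∀ i, g.coeff i = if i < a.natDegree + 1 then r i else 0 := by
    intro i
    simp only [g, finsetSum_coeff, coeff_monomial]
    rw [Finset.sum_ite_eq' (Finset.range (a.natDegree + 1)) i]
    simp
  refine ⟨c, hc0, g, ?_, ?_, fun i => ?_⟩
  · intro h
    have h1 := hg i0
    rw [h, coeff_zero, if_pos (Nat.lt_succ_of_le (le_natDegree_of_mem_supp i0 hi0))] at h1
    have h2 := hr i0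
    rw [← h1, map_zero, sub_zero, ← hc, div_self hc0, norm_one] at h2
    exact lt_irrefl _ h2
  · rw [natDegree_le_iff_coeff_eq_zero]
    intro i hi
    rw [hg, if_neg (by omega)]
  · rw [hg]
    split_ifs with h
    · exact hr i
    · rw [coeff_eq_zero_of_natDegree_lt (by omega), zero_div, map_zero, sub_zero, norm_zero]
      exact one_pos

lemma reduction_eval (φ : F →+* k) (a : k[X]) {c : k} (g : F[X])
    (hdeg : g.natDegree ≤ a.natDegree) (h : ∀ i, ‖a.coeff i / c - φ (g.coeff i)‖ < 1) {w : L}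
    (hw : specAbs k L w ≤ 1) :
    specAbs k L (aeval w a * algebraMap k L c⁻¹ - g.eval₂ ((algebraMap k L).comp φ) w) < 1 := by
  have e1 : aeval w a * algebraMap k L c⁻¹ - g.eval₂ ((algebraMap k L).comp φ) w =
      ∑ i ∈ Finset.range (a.natDegree + 1),
        algebraMap k L (a.coeff i / c - φ (g.coeff i)) * w ^ i := by
    rw [aeval_eq_sum_range, eval₂_eq_sum_range' _ (Nat.lt_succ_of_le hdeg), Finset.sum_mul,
      ← Finset.sum_sub_distrib]
    refine Finset.sum_congr rfl fun i _ => ?_
    rw [Algebra.smul_def, map_sub, div_eq_mul_inv, map_mul, RingHom.comp_apply]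
    ring
  rw [e1]
  refine sum_lt_one specAbs_add_le _ _ fun i _ => ?_
  rw [map_mul, specAbs_algebraMap, map_pow]
  calc ‖a.coeff i / c - φ (g.coeff i)‖ * specAbs k L w ^ i
      ≤ ‖a.coeff i / c - φ (g.coeff i)‖ * 1 :=
        mul_le_mul_of_nonneg_left (pow_le_one₀ ((specAbs k L).nonneg _) hw) (norm_nonneg _)
    _ < 1 := by rw [mul_one]; exact h i

variable [Finite F]

omit [IsUltrametricDist k] [CompleteSpace k] in
lemma norm_const (φ : F →+* k) {c : F} (hc : c ≠ 0) : ‖φ c‖ = 1 := by
  have := Fintype.ofFinite F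
  have h1 : c ^ (Fintype.card F - 1) = 1 := FiniteField.pow_card_sub_one_eq_one c hc
  have h2 : ‖φ c‖ ^ (Fintype.card F - 1) = 1 := by rw [← norm_pow, ← map_pow, h1, map_one, norm_one]
  exact (pow_eq_one_iff_of_nonneg (norm_nonneg _) (by
    have := Fintype.one_lt_card (α := F)
    omega)).1 h2

lemma spec_eval_le (φ : F →+* k) {w : L} (hw : specAbs k L w ≤ 1) (g : F[X]) :
    specAbs k L (g.eval₂ ((algebraMap k L).comp φ) w) ≤ 1 := by
  rw [eval₂_eq_sum_range]
  refine sum_le_one specAbs_add_le _ _ fun i _ => ?_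
  rw [map_mul, map_pow, RingHom.comp_apply, specAbs_algebraMap]
  refine mul_le_one₀ ?_ (pow_nonneg ((specAbs k L).nonneg _) _)
    (pow_le_one₀ ((specAbs k L).nonneg _) hw)
  by_cases hc : g.coeff i = 0
  · rw [hc, map_zero, norm_zero]
    exact zero_le_one
  · exact (norm_const φ hc).le

/-- An irreducible polynomial over `F` with small value. -/
lemma exists_irreducible_small (φ : F →+* k) {w : L} (hw : specAbs k L w ≤ 1) (g : F[X])
    (hg0 : g ≠ 0) (hg : specAbs k L (g.eval₂ ((algebraMap k L).comp φ) w) < 1) :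
    ∃ h : F[X], Irreducible h ∧ specAbs k L (h.eval₂ ((algebraMap k L).comp φ) w) < 1 := by
  induction g using UniqueFactorizationMonoid.induction_on_prime with
  | h₁ => exact absurd rfl hg0
  | h₂ x hx =>
    obtain ⟨c, hc, rfl⟩ := Polynomial.isUnit_iff.1 hx
    rw [eval₂_C, RingHom.comp_apply, specAbs_algebraMap, norm_const φ hc.ne_zero] at hg
    exact absurd hg (lt_irrefl _)
  | h₃ b q hb hq ih =>
    rcases (spec_eval_le φ hw q).lt_or_eq with h | h
    · exact ⟨q, hq.irreducible, h⟩
    · rw [eval₂_mul, map_mul, h, one_mul] at hg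
      exact ih hb hg

variable (p : ℕ) [CharP k p]

/-- Teichmueller representatives. -/
theorem exists_teich (hp : p.Prime) (φ : F →+* k)
    (hres : ∀ x : k, ‖x‖ ≤ 1 → ∃ c : F, ‖x - φ c‖ < 1) {w : L} (hw : specAbs k L w = 1) :
    ∃ (ω : L) (a : ℕ), p ^ a ≠ 1 ∧ (∀ c : F, c ^ p ^ a = c) ∧ ω ^ p ^ a = ω ∧
      specAbs k L (w - ω) < 1 := by
  have : Fact p.Prime := ⟨hp⟩
  have : CharP F p := (RingHom.charP_iff φ φ.injective p).2 inferInstance
  have : CharP L p := charP_of_injective_algebraMap (algebraMap k L).injective p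
  have hint : IsIntegral k w := Algebra.IsIntegral.isIntegral w
  obtain ⟨c, hc0, g, hg0, hdeg, hg⟩ := exists_reduction φ hres (minpoly k w)
    (minpoly.ne_zero hint)
  have h1 := reduction_eval (L := L) φ (minpoly k w) g hdeg hg hw.le
  rw [minpoly.aeval, zero_mul, zero_sub, AbsoluteValue.map_neg] at h1
  obtain ⟨h, hirr, hh⟩ := exists_irreducible_small φ hw.le g hg0 h1
  have : Fact (Irreducible h) := ⟨hirr⟩
  have : Module.Finite F (AdjoinRoot h) := (AdjoinRoot.powerBasis hirr.ne_zero).finite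
  have : Finite (AdjoinRoot h) := Module.finite_of_finite F
  have := Fintype.ofFinite (AdjoinRoot h)
  have : CharP (AdjoinRoot h) p := charP_of_injective_algebraMap (algebraMap F _).injective p
  obtain ⟨a, -, ha⟩ := FiniteField.card (AdjoinRoot h) p
  have hQ : ∀ x : AdjoinRoot h, x ^ p ^ (a : ℕ) = x := fun x => by
    rw [← ha]
    exact FiniteField.pow_card x
  have hdvd : h ∣ X ^ p ^ (a : ℕ) - X := by
    rw [← AdjoinRoot.mk_eq_zero, map_sub, map_pow, AdjoinRoot.mk_X, hQ, sub_self]
  have hsmall : specAbs k L (w ^ p ^ (a : ℕ) - w) < 1 := by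
    obtain ⟨f, hf⟩ := hdvd
    have h3 := congrArg (eval₂ ((algebraMap k L).comp φ) w) hf
    rw [eval₂_sub, eval₂_pow, eval₂_X, eval₂_mul] at h3
    rw [h3, map_mul]
    calc _ ≤ specAbs k L (h.eval₂ ((algebraMap k L).comp φ) w) * 1 :=
          mul_le_mul_of_nonneg_left (spec_eval_le φ hw.le f) ((specAbs k L).nonneg _)
      _ < 1 := by rw [mul_one]; exact hh
  have hF : ∀ c : F, c ^ p ^ (a : ℕ) = c := fun c => by
    have := hQ (algebraMap F _ c)
    rw [← map_pow] at this
    exact (algebraMap F (AdjoinRoot h)).injective this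
  -- the fixed point
  let hNF : NormedField L := spectralNorm.normedField k L
  have hcs : CompleteSpace L := spectralNorm.completeSpace k L
  have hul : IsUltrametricDist L := by
    refine IsUltrametricDist.isUltrametricDist_of_forall_norm_add_le_max_norm fun x y => ?_
    exact specAbs_add_le (k := k) x y
  have hnorm : ∀ x : L, ‖x‖ = specAbs k L x := fun x => rfl
  set r := ‖w ^ p ^ (a : ℕ) - w‖ with hr
  have hr1 : r < 1 := hsmall
  let f : L → L := fun y => y ^ p ^ (a : ℕ)
  have hQ2 : 2 ≤ p ^ (a : ℕ) := by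
    have := Nat.one_lt_pow a.ne_zero hp.one_lt
    omega
  have hpow : ∀ x y : L, ‖x - y‖ ≤ r → ‖f x - f y‖ ≤ r * ‖x - y‖ := by
    intro x y hxy
    change ‖x ^ p ^ (a : ℕ) - y ^ p ^ (a : ℕ)‖ ≤ _
    rw [← sub_pow_char_pow, norm_pow]
    obtain ⟨m, hm⟩ := Nat.exists_eq_add_of_le hQ2
    rw [hm, add_comm, pow_add, pow_two, ← mul_assoc]
    refine mul_le_mul_of_nonneg_right ?_ (norm_nonneg _)
    calc ‖x - y‖ ^ m * ‖x - y‖ ≤ 1 * r :=
          mul_le_mul (pow_le_one₀ (norm_nonneg _) (hxy.trans hr1.le)) hxy (norm_nonneg _)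
            zero_le_one
      _ = r := one_mul r
  let s : Set L := Metric.closedBall w r
  have hmaps : Set.MapsTo f s s := by
    intro y hy
    rw [mem_closedBall_iff_norm] at hy ⊢
    have e1 : f y - w = (f y - f w) + (f w - w) := by ring
    rw [e1]
    refine (IsUltrametricDist.norm_add_le_max _ _).trans (max_le ?_ le_rfl)
    refine (hpow y w hy).trans ?_
    calc r * ‖y - w‖ ≤ 1 * r := mul_le_mul hr1.le hy (norm_nonneg _) zero_le_one
      _ = r := one_mul r
  have hs : IsComplete s := Metric.isClosed_closedBall.isComplete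
  have hcw : ContractingWith ⟨r, norm_nonneg _⟩ (hmaps.restrict f s s) := by
    refine ⟨by exact_mod_cast hr1, ?_⟩
    refine LipschitzWith.of_dist_le_mul fun x y => ?_
    rw [Subtype.dist_eq, Subtype.dist_eq, dist_eq_norm, dist_eq_norm]
    refine hpow x y ?_
    have hx := x.2
    have hy := y.2
    rw [mem_closedBall_iff_norm] at hx hy
    have e1 : (x : L) - y = ((x : L) - w) + -((y : L) - w) := by ring
    rw [e1]
    refine (IsUltrametricDist.norm_add_le_max _ _).trans (max_le hx ?_)
    rw [norm_neg]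
    exact hy
  have h0 : w ∈ s := by
    rw [mem_closedBall_iff_norm, sub_self, norm_zero]
    exact norm_nonneg _
  obtain ⟨ω, hωs, hω, -⟩ := hcw.exists_fixedPoint' hs hmaps h0 (by
    rw [edist_dist]
    exact ENNReal.ofReal_ne_top)
  refine ⟨ω, a, by omega, hF, hω, ?_⟩
  rw [mem_closedBall_iff_norm, hnorm] at hωs
  rw [← AbsoluteValue.map_neg, neg_sub]
  exact hωs.trans_lt hr1

omit [Finite F] in
/-- The values on the extension generated by a Teichmueller representative. -/
theorem value_adjoin_teich (hp : p.Prime) (φ : F →+* k)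
    (hres : ∀ x : k, ‖x‖ ≤ 1 → ∃ c : F, ‖x - φ c‖ < 1) {ω : L} {a : ℕ}
    (hF : ∀ c : F, c ^ p ^ a = c) (hω : ω ^ p ^ a = ω) (hω0 : ω ≠ 0) (ha : p ^ a ≠ 1) (w : L)
    (hw : w ∈ IntermediateField.adjoin k {ω}) (hw0 : w ≠ 0) :
    ∃ r : k, r ≠ 0 ∧ specAbs k L w = ‖r‖ := by
  have : Fact p.Prime := ⟨hp⟩
  have : CharP L p := charP_of_injective_algebraMap (algebraMap k L).injective p
  have hint : IsIntegral k ω := Algebra.IsIntegral.isIntegral ω
  have hpos : 0 < p ^ a := pow_pos hp.pos a
  have hone : ∀ x : L, x ≠ 0 → x ^ p ^ a = x → specAbs k L x = 1 := by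
    intro x hx0 hx
    have h1 : x ^ (p ^ a - 1) = 1 := by
      have h2 : x ^ (p ^ a - 1) * x = 1 * x := by
        rw [← pow_succ, Nat.sub_add_cancel hpos, hx, one_mul]
      exact mul_right_cancel₀ hx0 h2
    refine (pow_eq_one_iff_of_nonneg ((specAbs k L).nonneg x) (n := p ^ a - 1) (by omega)).1 ?_
    rw [← map_pow, h1, map_one]
  have hω1 : specAbs k L ω ≤ 1 := (hone ω hω0 hω).le
  rw [← IntermediateField.mem_toSubalgebra,
    IntermediateField.adjoin_simple_toSubalgebra_of_isAlgebraic hint.isAlgebraic,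
    Algebra.adjoin_singleton_eq_range_aeval] at hw
  obtain ⟨f, hf⟩ := hw
  have hf' : aeval ω f = w := hf
  have hm : (minpoly k ω).Monic := minpoly.monic hint
  set b := f %ₘ minpoly k ω with hb
  have hbw : aeval ω b = w := by
    have := congrArg (aeval ω) (modByMonic_add_div f (minpoly k ω))
    rw [map_add, map_mul, minpoly.aeval, zero_mul, add_zero, hf'] at this
    exact this
  have hb0 : b ≠ 0 := by
    intro h
    rw [h, map_zero] at hbw
    exact hw0 hbw.symm
  have hbdeg : b.natDegree < (minpoly k ω).natDegree :=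
    natDegree_modByMonic_lt f hm (minpoly.ne_one k ω)
  obtain ⟨c, hc0, g, hg0, hdeg, hg⟩ := exists_reduction φ hres b hb0
  have h1 := reduction_eval (L := L) φ b g hdeg hg hω1
  rw [hbw] at h1
  -- the value of `g`
  set ev := g.eval₂ ((algebraMap k L).comp φ) ω with hev
  have hev0 : ev ≠ 0 := by
    intro h0
    have h2 : aeval ω (g.map φ) = 0 := by
      rw [aeval_def, eval₂_map]
      exact h0
    have h3 : g.map φ ≠ 0 := by
      rwa [Ne, Polynomial.map_eq_zero]
    have h4 := natDegree_le_of_dvd (minpoly.dvd k ω h2) h3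
    rw [natDegree_map] at h4
    omega
  have hevQ : ev ^ p ^ a = ev := by
    have h5 : iterateFrobenius L p a ev = ev := by
      rw [hev, hom_eval₂]
      have e1 : (iterateFrobenius L p a) ω = ω := hω
      have e2 : (iterateFrobenius L p a).comp ((algebraMap k L).comp φ) =
          (algebraMap k L).comp φ := by
        ext c
        simp only [RingHom.comp_apply, iterateFrobenius_def]
        rw [← map_pow, ← map_pow, hF]
      rw [e1, e2]
    exact h5
  have hev1 : specAbs k L ev = 1 := hone ev hev0 hevQ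
  refine ⟨c, hc0, ?_⟩
  have h6 : specAbs k L (w * algebraMap k L c⁻¹) = 1 := by
    have e1 : w * algebraMap k L c⁻¹ = ev - -(w * algebraMap k L c⁻¹ - ev) := by ring
    rw [e1, abs_sub_eq specAbs_add_le (by rw [AbsoluteValue.map_neg, hev1]; exact h1), hev1]
  rw [map_mul, specAbs_algebraMap, norm_inv, mul_inv_eq_one₀ (norm_ne_zero_iff.2 hc0)] at h6
  exact h6

/-- Norms of units from an extension of even ramification index. -/
theorem unit_norm_sq (hp : p.Prime) (h2 : ‖(2 : k)‖ = 1) (φ : F →+* k)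
    (hres : ∀ x : k, ‖x‖ ≤ 1 → ∃ c : F, ‖x - φ c‖ < 1) (T : k) (hT : 1 < ‖T‖)
    (hval : ∀ z : k, z ≠ 0 → ∃ m : ℤ, ‖z‖ = ‖T‖ ^ m) (s : L) (hs : specAbs k L s ^ 2 = ‖T‖)
    (w : L) (hw : specAbs k L w = 1) : Even (finrank k L) ∧ IsSquare (Algebra.norm k w) := by
  obtain ⟨ω, a, ha, hF, hω, hωw⟩ := exists_teich p hp φ hres hw
  have hω1 : specAbs k L ω = 1 := by
    have e1 : ω = w - (w - ω) := by ring
    rw [e1, abs_sub_eq specAbs_add_le (by rw [hw]; exact hωw), hw]
  have hω0 : ω ≠ 0 := by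
    rintro rfl
    rw [map_zero] at hω1
    exact zero_ne_one hω1
  let K' := IntermediateField.adjoin k {ω}
  have hs0 : s ≠ 0 := by
    rintro rfl
    rw [map_zero, zero_pow two_ne_zero] at hs
    rw [← hs] at hT
    exact absurd hT (by norm_num)
  have heven : Even (finrank K' L) := by
    let s' : K' := Algebra.norm K' s
    have hs' : s' ≠ 0 := Algebra.norm_ne_zero_iff.2 hs0
    obtain ⟨r, hr0, hr⟩ := value_adjoin_teich (L := L) p hp φ hres hF hω hω0 ha (s' : L) s'.2
      (fun h => hs' (Subtype.ext h))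
    have hcompat : specAbs k K' s' = specAbs k L (s' : L) := by
      change spectralValue (minpoly k s') = spectralValue (minpoly k (algebraMap K' L s'))
      rw [minpoly.algebraMap_eq (algebraMap K' L).injective]
    obtain ⟨m, hm⟩ := hval r hr0
    have h3 : ‖Algebra.norm k s‖ = ‖T‖ ^ (m * finrank k K') := by
      rw [← Algebra.norm_norm (S := K'), norm_norm_eq]
      change specAbs k K' s' ^ _ = _
      rw [hcompat, hr, hm, zpow_mul, zpow_natCast]
    have h4 : ‖Algebra.norm k s‖ ^ 2 = ‖T‖ ^ (finrank k L) := by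
      rw [norm_norm_eq, ← pow_mul, mul_comm, pow_mul, hs]
    rw [h3, ← Module.finrank_mul_finrank k K' L, ← zpow_natCast, ← zpow_mul, ← zpow_natCast] at h4
    have h5 := zpow_right_injective₀ (zero_lt_one.trans hT) hT.ne' h4
    have hpos : 0 < finrank k K' := Module.finrank_pos
    have h6 : (finrank K' L : ℤ) = 2 * m := by
      have h7 : (finrank k K' : ℤ) ≠ 0 := by exact_mod_cast hpos.ne'
      push_cast at h5
      have h8 : (finrank k K' : ℤ) * (finrank K' L : ℤ) = (finrank k K' : ℤ) * (2 * m) := by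
        linarith
      exact mul_left_cancel₀ h7 h8
    rw [← Int.even_coe_nat, h6]
    exact even_two_mul m
  refine ⟨?_, ?_⟩
  · rw [← Module.finrank_mul_finrank k K' L]
    exact heven.mul_left _
  · obtain ⟨z, hz0, hz⟩ := exists_sq_mul (L := L) h2 (x := w) (y := ω) (by rw [hω1]; exact hωw)
    rw [hz, map_mul, map_pow, pow_two, Algebra.norm_eq_norm_adjoin k ω]
    exact (heven.isSquare_pow _).mul ⟨_, rfl⟩

end Pool.Agent.Helper8.PT
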