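import Pool.Agent.Helper8.PT.Selmer

/-!
# The Selmer group of a prime twist consists of torsion classes
-/

set_option autoImplicit false

namespace Pool.Agent.Helper8.PT

open Module Pool.Agent.Helper47.BSD Polynomial Classical

variable {F : Type} [Field F] {ι : Type} [Fintype ι]

lemma par_tc_self {P : F[X]} (hP : Irreducible P) (hodd : Odd (Fintype.card ι)) {e : ι → F[X]}
    (hPe : ∀ i j, i ≠ j → ¬ P ∣ e i - e j) (a i : ι) :
    par P hP (tc (br P e) a i) = 1 + if i = a then 1 else 0 := by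
  have hne : ∀ i j, i ≠ j → e i - e j ≠ 0 := fun i j hij h => hPe i j hij (h ▸ dvd_zero _)
  have h1 : ∀ i j, i ≠ j → par P hP (br P e i - br P e j) = 1 := by
    intro i j hij
    rw [br_sub, map_mul, par_mul hP (coe_ne_zero hP.ne_zero) (coe_ne_zero (hne i j hij)),
      par_self, par_of_not_dvd hP (hPe i j hij), add_zero]
  by_cases h : i = a
  · subst h
    rw [if_pos rfl, tc_self, par_prod hP _ _ fun l hl =>
      sub_ne_zero.2 (br_ne hP.ne_zero hne i l (Finset.ne_of_mem_erase hl).symm),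
      Finset.sum_congr rfl fun l hl => h1 i l (Finset.ne_of_mem_erase hl).symm, Finset.sum_const,
      Finset.card_erase_of_mem (Finset.mem_univ i), Finset.card_univ, nsmul_eq_mul, mul_one]
    obtain ⟨m, hm⟩ := hodd
    rw [hm, Nat.add_sub_cancel]
    exact (ZMod.natCast_eq_zero_iff_even.2 (even_two_mul m)).trans (by decide)
  · rw [if_neg h, add_zero, tc_ne _ h]
    exact h1 a i (Ne.symm h)

variable [Finite F] (p : ℕ) [CharP F p]

theorem selmer_torsion (hp : p.Prime) (hp2 : p ≠ 2) (hodd : Odd (Fintype.card ι)) {e : ι → F[X]}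
    {n : ℕ} {a b : ι} (hdeg : EqualDegrees e n a b) (hcop : PairCoprime e) :
    ∃ s : F[X] → ZMod 2, ∀ P : F[X], P.Monic → Irreducible P →
      (∀ i j, i ≠ j → ¬ P ∣ e i - e j) → Odd (P.natDegree + n) → (∀ π ∈ bad e, lg π P = s π) →
        ∀ d ∈ selmerSet 2 (fun _ => 1) (br P e), ∃ A : Finset ι, ∀ i,
          IsSquare ((d i : RatFunc F) * ∏ a ∈ A, tc (br P e) a i) := by
  have h2 := ringChar_ne (F := F) p hp2
  have hne := hdeg.ne
  have : Nonempty ι := Fintype.card_pos_iff.1 hodd.pos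
  have hJ : ∃ J J' : F[X] → ι, ∀ π ∈ bad e, J π ≠ J' π ∧ π ∣ e (J π) - e (J' π) := by
    have h3 : ∀ π ∈ bad e, ∃ j j' : ι, j ≠ j' ∧ π ∣ e j - e j' := fun π hπ =>
      ((mem_bad hne).1 hπ).2.2
    choose! J J' hJ using h3
    exact ⟨J, J', hJ⟩
  obtain ⟨J, J', hJ⟩ := hJ
  obtain ⟨u, hu⟩ := FiniteField.exists_nonsquare h2
  obtain ⟨s, hs⟩ := exists_diag (mat J J' n a b e u) (oddBad J J' e)
  refine ⟨fun π => if π ∈ oddBad J J' e then s π else 1 + eps J J' e π,
    fun P hPm hP hPe hpar hsP d hd => ?_⟩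
  set A : Finset ι := Finset.univ.filter fun i => par P hP (d i : RatFunc F) = 1 with hA
  refine ⟨A, ?_⟩
  set d' : ι → (RatFunc F)ˣ := d * ∏ a ∈ A, tcU (br P e) (br_ne hP.ne_zero hne) a with hd'
  have hg : Good P e d' := (good_selmer p hp hp2 hodd hP.ne_zero hdeg hcop hpar hd).mul
    (good_prod A _ fun a => good_tc p hp hp2 hP.ne_zero hne hcop a)
  have hval : ∀ i, (d' i : RatFunc F) = (d i : RatFunc F) * ∏ a ∈ A, tc (br P e) a i := by
    intro i
    rw [hd', Pi.mul_apply, Units.val_mul, Finset.prod_apply, Units.coe_prod]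
    rfl
  have hAind : ∀ i, par P hP (d i : RatFunc F) = if i ∈ A then 1 else 0 := by
    intro i
    by_cases h : i ∈ A
    · rw [if_pos h]
      exact (Finset.mem_filter.1 h).2
    · rw [if_neg h]
      rcases zmod2_cases (par P hP (d i : RatFunc F)) with h3 | h3
      · exact h3
      · exact absurd (Finset.mem_filter.2 ⟨Finset.mem_univ i, h3⟩) h
  have hAcard : (A.card : ZMod 2) = 0 := by
    rw [← par_prod_selmer p hp hd P hP, Finset.sum_congr rfl fun i _ => hAind i]
    simp
  have hdP : ∀ i, par P hP (d' i : RatFunc F) = 0 := by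
    intro i
    rw [hval i, par_mul hP (d i).ne_zero (Finset.prod_ne_zero_iff.2 fun a _ =>
      tc_ne_zero (br_ne hP.ne_zero hne) a i), par_prod hP _ _ fun a _ =>
      tc_ne_zero (br_ne hP.ne_zero hne) a i, hAind i,
      Finset.sum_congr rfl fun a _ => par_tc_self hP hodd hPe a i, Finset.sum_add_distrib,
      Finset.sum_const, nsmul_eq_mul, hAcard, zero_mul, zero_add, Finset.sum_ite_eq]
    exact CharTwo.add_self_eq_zero _
  intro i
  rw [← hval i]
  refine good_square J J' n a b p hp hp2 hodd hdeg hcop hu hJ hs hPm hP hPe hpar (fun π hπ => ?_)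
    (fun π hπ hπ' => ?_) hg hdP i
  · rw [hsP π (Finset.mem_filter.1 hπ).1]
    exact if_pos hπ
  · rw [hsP π hπ]
    exact if_neg hπ'

end Pool.Agent.Helper8.PT
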